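import Pool.Agent.H444.FA.Stm

set_option autoImplicit false
set_option linter.unusedSectionVars false

/-!
From even classes to circuits.
-/

open Finset

namespace Pool.Agent.H444.FA

open Pool.Agent.Helper347.Sab
open Pool.Agent.Helper998.Near (Rch)

theorem cdc : SCdc := by
  intro V E _ _ _ _ G H S hSH hH hS hG
  classical
  obtain ⟨n, Z, hZ, hcov, hev⟩ := hG
  have hdeg : ∀ c v, dg G (Z c) v = 0 ∨ dg G (Z c) v = 2 := by
    intro c v
    have a1 := hev c v
    have a2 := dg_mono (G := G) (hZ c) v
    have a3 := hH v
    rw [Nat.even_iff] at a1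
    omega
  obtain ⟨N0, a0, b0⟩ := decompose G _ S le_rfl hS
  choose N a b using fun c => decompose G _ (Z c) le_rfl (hdeg c)
  refine ⟨N0 + ∑ c, N c, ?_, ?_, ?_⟩
  · intro X hX
    rw [Multiset.mem_add, Multiset.mem_sum] at hX
    rcases hX with h | ⟨c, _, h⟩
    · exact a0 X h
    · exact a c X h
  · intro e
    have h1 : Multiset.countP (e ∈ ·) (∑ c, N c) = (univ.filter fun c => e ∈ Z c).card := by
      have h2 := map_sum (Multiset.countPAddMonoidHom (fun X : Finset E => e ∈ X)) N univ
      simp only [Multiset.coe_countPAddMonoidHom] at h2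
      rw [h2, card_filter]
      exact sum_congr rfl fun c _ => b c e
    rw [Multiset.countP_add, h1, b0]
    by_cases he : e ∈ H
    · rw [hcov e he, mS, if_pos he]
      by_cases hs : e ∈ S
      · simp [hs]
      · simp [hs]
    · rw [if_neg he, if_neg (fun h => he (hSH h))]
      have : (univ.filter fun c => e ∈ Z c) = ∅ := by
        rw [filter_eq_empty_iff]
        intro c _ hc
        exact he (hZ c hc)
      rw [this, card_empty]
  · intro C hC hCS
    rw [Multiset.mem_add]
    exact Or.inl (Pool.Agent.Helper998.Near.mem_decomp G S hS N0 a0 b0 C hC hCS)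

end Pool.Agent.H444.FA
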