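import Pool.Agent.H444.FA.Stm

set_option autoImplicit false
set_option linter.unusedSectionVars false

/-! B2 (helper325): classification of the even patterns with four legs. -/

open Finset

namespace Pool.Agent.H444.FA

open Pool.Agent.Helper347.Sab
open Pool.Agent.Helper998.Near (Rch)

/-- the 2-subsets of `Fin 4` -/
def classL : List (Finset (Fin 4)) := [{0, 1}, {0, 2}, {0, 3}, {1, 2}, {1, 3}, {2, 3}]

theorem classL_mem : ∀ s : Finset (Fin 4), s.card = 2 → s ∈ classL := by decide +kernel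

/-- the four permutations fixing `{0, 1}` -/
def classS : List (Fin 4 ↪ Fin 4) :=
  [(Equiv.refl (Fin 4)).toEmbedding, (Equiv.swap 0 1 : Equiv.Perm (Fin 4)).toEmbedding,
    (Equiv.swap 2 3 : Equiv.Perm (Fin 4)).toEmbedding,
    ((Equiv.swap 0 1 : Equiv.Perm (Fin 4)).trans (Equiv.swap 2 3)).toEmbedding]

theorem class_fin : ∀ P1 ∈ classL, ∀ P2 ∈ classL, ∀ P3 ∈ classL,
    (∀ c : Fin 4, Even (univ.filter fun i : Fin 4 =>
      c ∈ (![({0, 1} : Finset (Fin 4)), P1, P2, P3] i)).card) →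
    ∃ ι ∈ classS, (∀ i, ![({0, 1} : Finset (Fin 4)), P1, P2, P3] i = (Qp i).map ι) ∨
      ∃ k : Fin 3, (∀ i, ![({0, 1} : Finset (Fin 4)), P1, P2, P3] i = (Ap k i).map ι) ∨
        (∀ i, ![({0, 1} : Finset (Fin 4)), P1, P2, P3] i = (Bp k i).map ι) ∨
        (∀ i, ![({0, 1} : Finset (Fin 4)), P1, P2, P3] i = (Rp k i).map ι) := by
  decide +kernel

theorem class_U {κ : Type} [Fintype κ] [DecidableEq κ] (p : Fin 4 → Finset κ)
    (h2 : ∀ i, (p i).card = 2) (hev : ∀ c, Even (univ.filter fun i => c ∈ p i).card) :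
    (univ.filter fun c => ∃ i, c ∈ p i).card ≤ 4 := by
  have h1 : ∑ c : κ, (univ.filter fun i => c ∈ p i).card = 8 := by
    simp only [Finset.card_filter]
    rw [Finset.sum_comm]
    have h : ∀ i : Fin 4, ∑ c : κ, (if c ∈ p i then 1 else 0) = 2 := by
      intro i
      rw [← Finset.card_filter, ← h2 i]
      congr 1
      ext c
      simp
    rw [Finset.sum_congr rfl (fun i _ => h i)]
    simp
  have h3 : ∑ c ∈ (univ.filter fun c => ∃ i, c ∈ p i), 2 ≤
      ∑ c : κ, (univ.filter fun i => c ∈ p i).card := by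
    refine le_trans (Finset.sum_le_sum fun c hc => ?_)
      (Finset.sum_le_sum_of_subset (Finset.subset_univ (univ.filter fun c => ∃ i, c ∈ p i)))
    obtain ⟨i, hi⟩ := (Finset.mem_filter.1 hc).2
    have hpos : 0 < (univ.filter fun i => c ∈ p i).card :=
      Finset.card_pos.2 ⟨i, Finset.mem_filter.2 ⟨Finset.mem_univ _, hi⟩⟩
    obtain ⟨r, hr⟩ := hev c
    omega
  rw [Finset.sum_const, smul_eq_mul, h1] at h3
  omega

theorem classify : SClass := by
  intro κ _ _ hκ p h2 hev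
  have hU := class_U p h2 hev
  obtain ⟨S, hUS, _, hS⟩ := Finset.exists_subsuperset_card_eq
    (Finset.subset_univ (univ.filter fun c => ∃ i, c ∈ p i)) hU
    (by rw [Finset.card_univ]; exact hκ)
  have hpS : ∀ i, p i ⊆ S := fun i c hc => hUS (Finset.mem_filter.2 ⟨Finset.mem_univ _, i, hc⟩)
  obtain ⟨a, b, hab, hp0⟩ := Finset.card_eq_two.1 (h2 0)
  have hSd : (S \ p 0).card = 2 := by
    rw [Finset.card_sdiff_of_subset (hpS 0), hS, h2 0]
  obtain ⟨c, d, hcd, hSd'⟩ := Finset.card_eq_two.1 hSd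
  have hc : c ∈ S \ p 0 := by rw [hSd']; simp
  have hd : d ∈ S \ p 0 := by rw [hSd']; simp
  have hS' : ∀ x ∈ S, x = a ∨ x = b ∨ x = c ∨ x = d := by
    intro x hx
    by_cases hx0 : x ∈ p 0
    · rw [hp0] at hx0
      simp at hx0
      tauto
    · have : x ∈ S \ p 0 := Finset.mem_sdiff.2 ⟨hx, hx0⟩
      rw [hSd'] at this
      simp at this
      tauto
  rw [Finset.mem_sdiff, hp0] at hc hd
  simp only [Finset.mem_insert, Finset.mem_singleton, not_or] at hc hd
  obtain ⟨_, hca, hcb⟩ := hc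
  obtain ⟨_, hda, hdb⟩ := hd
  have hinj : Function.Injective (![a, b, c, d] : Fin 4 → κ) := by
    intro i j hij
    fin_cases i <;> fin_cases j <;> simp_all [eq_comm]
  set ι₀ : Fin 4 ↪ κ := ⟨![a, b, c, d], hinj⟩ with hι
  have hι0 : ι₀ 0 = a := rfl
  have hι1 : ι₀ 1 = b := rfl
  have hι2 : ι₀ 2 = c := rfl
  have hι3 : ι₀ 3 = d := rfl
  set P : Fin 4 → Finset (Fin 4) := fun i => univ.filter fun x => ι₀ x ∈ p i with hP
  have hPm : ∀ i, p i = (P i).map ι₀ := by
    intro i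
    ext x
    rw [Finset.mem_map]
    constructor
    · intro hx
      rcases hS' x (hpS i hx) with h | h | h | h
      · exact ⟨0, Finset.mem_filter.2 ⟨Finset.mem_univ _, by rw [hι0, ← h]; exact hx⟩,
          by rw [hι0, h]⟩
      · exact ⟨1, Finset.mem_filter.2 ⟨Finset.mem_univ _, by rw [hι1, ← h]; exact hx⟩,
          by rw [hι1, h]⟩
      · exact ⟨2, Finset.mem_filter.2 ⟨Finset.mem_univ _, by rw [hι2, ← h]; exact hx⟩,
          by rw [hι2, h]⟩
      · exact ⟨3, Finset.mem_filter.2 ⟨Finset.mem_univ _, by rw [hι3, ← h]; exact hx⟩,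
          by rw [hι3, h]⟩
    · rintro ⟨y, hy, rfl⟩
      exact (Finset.mem_filter.1 hy).2
  have hPc : ∀ i, (P i).card = 2 := by
    intro i
    rw [← Finset.card_map ι₀, ← hPm i, h2 i]
  have hP0 : P 0 = {0, 1} := by
    have h1 : ({0, 1} : Finset (Fin 4)) ⊆ P 0 := by
      intro x hx
      rw [Finset.mem_insert, Finset.mem_singleton] at hx
      refine Finset.mem_filter.2 ⟨Finset.mem_univ _, ?_⟩
      rw [hp0]
      rcases hx with rfl | rfl
      · rw [hι0]; simp
      · rw [hι1]; simp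
    exact (Finset.eq_of_subset_of_card_le h1 (by rw [hPc 0]; rfl)).symm
  have hPP : P = ![({0, 1} : Finset (Fin 4)), P 1, P 2, P 3] := by
    funext i
    fin_cases i
    · exact hP0
    · rfl
    · rfl
    · rfl
  have hPe : ∀ x : Fin 4, Even (univ.filter fun i : Fin 4 =>
      x ∈ (![({0, 1} : Finset (Fin 4)), P 1, P 2, P 3] i)).card := by
    intro x
    rw [← hPP]
    have h := hev (ι₀ x)
    have e : (univ.filter fun i : Fin 4 => x ∈ P i) = (univ.filter fun i => ι₀ x ∈ p i) := by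
      ext i
      simp [hP]
    rw [e]
    exact h
  obtain ⟨ι, _, h⟩ := class_fin (P 1) (classL_mem _ (hPc 1)) (P 2) (classL_mem _ (hPc 2))
    (P 3) (classL_mem _ (hPc 3)) hPe
  rw [← hPP] at h
  have hcomp : ∀ Q : Fin 4 → Finset (Fin 4), (∀ i, P i = (Q i).map ι) →
      ∃ ι : Fin 4 ↪ κ, ∀ i, p i = (Q i).map ι := by
    intro Q hQ
    refine ⟨ι.trans ι₀, fun i => ?_⟩
    rw [hPm i, hQ i, Finset.map_map]
  rcases h with h | ⟨k, h | h | h⟩
  · exact Or.inl (hcomp _ h)
  · exact Or.inr ⟨k, Or.inl (hcomp _ h)⟩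
  · exact Or.inr ⟨k, Or.inr (Or.inl (hcomp _ h))⟩
  · exact Or.inr ⟨k, Or.inr (Or.inr (hcomp _ h))⟩

end Pool.Agent.H444.FA
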