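import Pool.Agent.H444.FA.Stm

set_option autoImplicit false
set_option linter.unusedSectionVars false

/-!
Pieces with two or three legs.
-/

open Finset

namespace Pool.Agent.H444.FA

open Pool.Agent.Helper347.Sab
open Pool.Agent.Helper998.Near (Rch)

namespace Core3Aux

/-- the pattern of a cover of `F` at a vertex with one edge of `F` has two elements -/
theorem pat_card {V E : Type} [Fintype V] [DecidableEq V] [Fintype E] [DecidableEq E]
    (G : MGraph V E) (F : Finset E) {d : ℕ} (x : Fin d → V) {κ : Type} [Fintype κ]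
    (Y : κ → Finset E) (hY : PC G F (fun _ => 2) x Y) (i : Fin d) (h1 : dg G F (x i) = 1) :
    (pat G x Y i).card = 2 := by
  unfold dg at h1
  obtain ⟨e, he⟩ := card_eq_one.mp h1
  have heF : e ∈ F ∧ x i ∈ G.ends e := by
    have h : e ∈ F.filter fun e => x i ∈ G.ends e := by rw [he]; exact mem_singleton_self e
    simpa using h
  have hpat : pat G x Y i = univ.filter fun c => e ∈ Y c := by
    unfold pat
    apply filter_congr
    intro c _
    have hsub : ((Y c).filter fun e => x i ∈ G.ends e) ⊆ {e} := by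
      rw [← he]
      exact filter_subset_filter _ (hY.1 c)
    constructor
    · intro h
      by_contra hc
      have h0 : ((Y c).filter fun e => x i ∈ G.ends e) = ∅ := by
        rcases subset_singleton_iff.mp hsub with h2 | h2
        · exact h2
        · exfalso
          have h3 : e ∈ (Y c).filter fun e => x i ∈ G.ends e := by
            rw [h2]; exact mem_singleton_self e
          exact hc (mem_filter.mp h3).1
      unfold dg at h
      rw [h0] at h
      simp at h
    · intro h
      have h0 : ((Y c).filter fun e => x i ∈ G.ends e) = {e} := by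
        apply subset_antisymm hsub
        rw [singleton_subset_iff, mem_filter]
        exact ⟨h, heF.2⟩
      unfold dg
      rw [h0]
      simp
  rw [hpat]
  exact hY.2.1 e heF.1

/-- three even two-element patterns -/
theorem three {κ : Type} [Fintype κ] [DecidableEq κ] (p : Fin 3 → Finset κ)
    (hc : ∀ i, (p i).card = 2) (he : ∀ c, Even (univ.filter fun i => c ∈ p i).card) :
    ∃ ι : Fin 3 ↪ κ, ∀ i, p i =
      ((![{0, 1}, {1, 2}, {0, 2}] : Fin 3 → Finset (Fin 3)) i).map ι := by
  have hx : ∀ c, c ∈ p 2 ↔ (c ∈ p 0 ∧ c ∉ p 1) ∨ (c ∉ p 0 ∧ c ∈ p 1) := by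
    intro c
    have h := he c
    rw [card_filter, Fin.sum_univ_three] at h
    by_cases h0 : c ∈ p 0 <;> by_cases h1 : c ∈ p 1 <;> by_cases h2 : c ∈ p 2 <;>
      simp [h0, h1, h2] at h ⊢
    all_goals revert h; decide
  have hp2 : p 2 = (p 0 \ p 1) ∪ (p 1 \ p 0) := by
    ext c
    rw [hx, mem_union, mem_sdiff, mem_sdiff]
    tauto
  have h1 : (p 2).card = (p 0 \ p 1).card + (p 1 \ p 0).card := by
    rw [hp2]
    apply card_union_of_disjoint
    rw [disjoint_left]
    intro c h1 h2
    rw [mem_sdiff] at h1 h2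
    exact h1.2 h2.1
  have h2 : (p 0 \ p 1).card + (p 0 ∩ p 1).card = (p 0).card := card_sdiff_add_card_inter _ _
  have h3 : (p 1 \ p 0).card + (p 1 ∩ p 0).card = (p 1).card := card_sdiff_add_card_inter _ _
  rw [inter_comm] at h3
  rw [hc] at h1 h2 h3
  have h4 : (p 0 \ p 1).card = 1 := by omega
  have h5 : (p 1 \ p 0).card = 1 := by omega
  have h6 : (p 0 ∩ p 1).card = 1 := by omega
  obtain ⟨a, ha⟩ := card_eq_one.mp h4
  obtain ⟨c, hcc⟩ := card_eq_one.mp h5
  obtain ⟨b, hb⟩ := card_eq_one.mp h6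
  have ma : a ∈ p 0 ∧ a ∉ p 1 := by
    rw [← mem_sdiff, ha]; exact mem_singleton_self a
  have mc : c ∈ p 1 ∧ c ∉ p 0 := by
    rw [← mem_sdiff, hcc]; exact mem_singleton_self c
  have mb : b ∈ p 0 ∧ b ∈ p 1 := by
    rw [← mem_inter, hb]; exact mem_singleton_self b
  have hab : a ≠ b := fun h => ma.2 (h ▸ mb.2)
  have hac : a ≠ c := fun h => ma.2 (h ▸ mc.1)
  have hbc : b ≠ c := fun h => mc.2 (h ▸ mb.1)
  have e0 : p 0 = {a, b} := by
    ext t
    rw [← sdiff_union_inter (p 0) (p 1), ha, hb, mem_union, mem_singleton, mem_singleton,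
      mem_insert, mem_singleton]
  have e1 : p 1 = {b, c} := by
    ext t
    rw [← sdiff_union_inter (p 1) (p 0), hcc, inter_comm, hb, mem_union, mem_singleton,
      mem_singleton, mem_insert, mem_singleton]
    tauto
  have e2 : p 2 = {a, c} := by
    ext t
    rw [hp2, ha, hcc, mem_union, mem_singleton, mem_singleton, mem_insert, mem_singleton]
  refine ⟨⟨![a, b, c], ?_⟩, ?_⟩
  · intro i j hij
    fin_cases i <;> fin_cases j <;>
      first
      | rfl
      | exact absurd hij hab
      | exact absurd hij hac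
      | exact absurd hij hbc
      | exact absurd hij.symm hab
      | exact absurd hij.symm hac
      | exact absurd hij.symm hbc
  · intro i
    fin_cases i
    · change p 0 = ({0, 1} : Finset (Fin 3)).map _
      rw [e0, map_insert, map_singleton]
      rfl
    · change p 1 = ({1, 2} : Finset (Fin 3)).map _
      rw [e1, map_insert, map_singleton]
      rfl
    · change p 2 = ({0, 2} : Finset (Fin 3)).map _
      rw [e2, map_insert, map_singleton]
      rfl

/-- two even two-element patterns -/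
theorem two {κ : Type} [Fintype κ] [DecidableEq κ] (p : Fin 2 → Finset κ)
    (hc : ∀ i, (p i).card = 2) (he : ∀ c, Even (univ.filter fun i => c ∈ p i).card) :
    ∃ ι : Fin 2 ↪ κ, ∀ i, p i =
      ((fun _ => {0, 1} : Fin 2 → Finset (Fin 2)) i).map ι := by
  have hx : ∀ c, c ∈ p 1 ↔ c ∈ p 0 := by
    intro c
    have h := he c
    rw [card_filter, Fin.sum_univ_two] at h
    by_cases h0 : c ∈ p 0 <;> by_cases h1 : c ∈ p 1 <;> simp [h0, h1] at h ⊢
  have h01 : p 1 = p 0 := by
    ext c
    exact hx c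
  obtain ⟨a, b, hab, h0⟩ := card_eq_two.mp (hc 0)
  refine ⟨⟨![a, b], ?_⟩, ?_⟩
  · intro i j hij
    fin_cases i <;> fin_cases j <;>
      first
      | rfl
      | exact absurd hij hab
      | exact absurd hij.symm hab
  · intro i
    have hi : p i = {a, b} := by
      fin_cases i
      · exact h0
      · exact h01.trans h0
    rw [hi]
    ext t
    rw [mem_map]
    constructor
    · intro h
      rw [mem_insert, mem_singleton] at h
      rcases h with rfl | rfl
      · exact ⟨0, by simp, rfl⟩
      · exact ⟨1, by simp, rfl⟩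
    · rintro ⟨j, _, rfl⟩
      fin_cases j
      · exact mem_insert_self _ _
      · exact mem_insert_of_mem (mem_singleton_self _)

end Core3Aux

theorem core3 (h1 : SGlue) (h2 : SPatEven) : SCore3 := by
  intro V E _ _ _ _ G A F S hd hS x hx hF hY hX
  obtain ⟨Y, hY⟩ := hY
  obtain ⟨n, X, hX, hXc⟩ := hX
  have hYc : ∀ i, (pat G x Y i).card = 2 := fun i => Core3Aux.pat_card G F x Y hY i (hF i)
  obtain ⟨ι, hι⟩ := Core3Aux.three (pat G x X) hXc (h2 V E G A (mS S) 3 x hx (Fin n) X hX)
  obtain ⟨ι', hι'⟩ := Core3Aux.three (pat G x Y) hYc (h2 V E G F (fun _ => 2) 3 x hx T3 Y hY)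
  exact h1 V E G A F S hd hS 3 x (Fin n) X hX Y hY (Fin 3) ι ι' _ hι hι'

theorem core2 (h1 : SGlue) (h2 : SPatEven) : SCore2 := by
  intro V E _ _ _ _ G A F S hd hS x hx hF hY hX
  obtain ⟨Y, hY⟩ := hY
  obtain ⟨n, X, hX, hXc⟩ := hX
  have hYc : ∀ i, (pat G x Y i).card = 2 := fun i => Core3Aux.pat_card G F x Y hY i (hF i)
  obtain ⟨ι, hι⟩ := Core3Aux.two (pat G x X) hXc (h2 V E G A (mS S) 2 x hx (Fin n) X hX)
  obtain ⟨ι', hι'⟩ := Core3Aux.two (pat G x Y) hYc (h2 V E G F (fun _ => 2) 2 x hx T3 Y hY)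
  exact h1 V E G A F S hd hS 2 x (Fin n) X hX Y hY (Fin 2) ι ι' _ hι hι'

end Pool.Agent.H444.FA
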