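import Pool.Agent.H444.FA.Logic

set_option autoImplicit false
set_option linter.unusedSectionVars false

/-!
The core theorem for a piece with four legs.
-/

open Finset

namespace Pool.Agent.H444.FA

open Pool.Agent.Helper347.Sab
open Pool.Agent.Helper998.Near (Rch)

section

variable {V E : Type} [Fintype V] [DecidableEq V] [Fintype E] [DecidableEq E]

/-- patterns of covers with multiplicity 2 at legs -/
theorem card_pat (G : MGraph V E) (F : Finset E) {d : ℕ} (x : Fin d → V)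
    (h1 : ∀ i, dg G F (x i) = 1) {κ : Type} [Fintype κ] [DecidableEq κ] (X : κ → Finset E)
    (hX : PC G F (fun _ => 2) x X) (i : Fin d) : (pat G x X i).card = 2 := by
  have h2 := h1 i
  unfold dg at h2
  obtain ⟨e, he⟩ := card_eq_one.1 h2
  have heF : e ∈ F ∧ x i ∈ G.ends e := by
    have : e ∈ F.filter fun e => x i ∈ G.ends e := by rw [he]; simp
    exact mem_filter.1 this
  have h3 : pat G x X i = univ.filter fun c => e ∈ X c := by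
    ext c
    simp only [pat, mem_filter, mem_univ, true_and]
    have h4 : (X c).filter (fun f => x i ∈ G.ends f) = if e ∈ X c then {e} else ∅ := by
      ext f
      rw [mem_filter]
      constructor
      · rintro ⟨h5, h6⟩
        have h7 : f ∈ F.filter fun e => x i ∈ G.ends e := mem_filter.2 ⟨hX.1 c h5, h6⟩
        rw [he, mem_singleton] at h7
        subst h7
        rw [if_pos h5]
        simp
      · intro h5
        by_cases h6 : e ∈ X c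
        · rw [if_pos h6, mem_singleton] at h5
          subst h5
          exact ⟨h6, heF.2⟩
        · rw [if_neg h6] at h5
          simp at h5
    unfold dg
    rw [h4]
    by_cases h6 : e ∈ X c
    · simp [h6]
    · simp [h6]
  rw [h3]
  exact hX.2.1 e heF.1

/-- adding four empty classes -/
def padX {n : ℕ} (X : Fin n → Finset E) : Fin (n + 4) → Finset E :=
  Fin.append X (fun _ : Fin 4 => ∅)

theorem padX_left {n : ℕ} (X : Fin n → Finset E) (c : Fin n) :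
    padX X (Fin.castAdd 4 c) = X c := by
  simp [padX]

theorem padX_right {n : ℕ} (X : Fin n → Finset E) (c : Fin 4) :
    padX X (Fin.natAdd n c) = ∅ := by
  simp [padX]

theorem filter_pad {n : ℕ} (p : Fin (n + 4) → Prop) [DecidablePred p]
    (hp : ∀ c, ¬ p (Fin.natAdd n c)) :
    univ.filter p = (univ.filter fun c : Fin n => p (Fin.castAdd 4 c)).map
      (Fin.castAddEmb 4) := by
  ext c
  refine Fin.addCases (fun c => ?_) (fun c => ?_) c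
  · simp only [mem_filter, mem_univ, true_and, mem_map]
    constructor
    · intro h
      exact ⟨c, h, rfl⟩
    · rintro ⟨c', h, h'⟩
      have : c' = c := Fin.castAdd_injective _ _ h'
      rw [← this]
      exact h
  · simp only [mem_filter, mem_univ, true_and, mem_map]
    constructor
    · intro h
      exact absurd h (hp c)
    · rintro ⟨c', h, h'⟩
      exfalso
      have h1 := congrArg Fin.val h'
      simp at h1
      omega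

theorem pad_PC (G : MGraph V E) (A : Finset E) (m : E → ℕ) {d : ℕ} (x : Fin d → V) {n : ℕ}
    (X : Fin n → Finset E) (hX : PC G A m x X) : PC G A m x (padX X) := by
  obtain ⟨h1, h2, h3⟩ := hX
  refine ⟨fun c => ?_, fun e he => ?_, fun c => ?_⟩
  · refine Fin.addCases (fun c => ?_) (fun c => ?_) c
    · rw [padX_left]; exact h1 c
    · rw [padX_right]; exact empty_subset _
  · rw [filter_pad (fun c => e ∈ padX X c) (fun c => by rw [padX_right]; simp), card_map]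
    simp only [padX_left]
    exact h2 e he
  · refine Fin.addCases (fun c => ?_) (fun c => ?_) c
    · rw [padX_left]; exact h3 c
    · rw [padX_right]
      intro v _
      simp [dg]

theorem pad_pat (G : MGraph V E) {d : ℕ} (x : Fin d → V) {n : ℕ}
    (X : Fin n → Finset E) (i : Fin d) :
    pat G x (padX X) i = (pat G x X i).map (Fin.castAddEmb 4) := by
  unfold pat
  rw [filter_pad (fun c => Odd (dg G (padX X c) (x i))) (fun c => by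
    rw [padX_right]; simp [dg])]
  simp only [padX_left]

/-- realised by some cover of the rest -/
def RI (G : MGraph V E) (A S : Finset E) (x : Fin 4 → V) (P : Fin 4 → Finset (Fin 4)) : Prop :=
  ∃ n, RT G A (mS S) x (Fin n) P

theorem inter_card {κ : Type} [DecidableEq κ] (ι : Fin 4 ↪ κ) (p q : Finset κ)
    (P Q : Finset (Fin 4)) (hp : p = P.map ι) (hq : q = Q.map ι) :
    (p ∩ q).card = (P ∩ Q).card := by
  rw [hp, hq, ← map_inter, card_map]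

theorem fA2 : ∀ k k' : Fin 3, 2 = (Ap k' 0 ∩ Ap k' k.succ).card → k' = k := by decide
theorem fB2 : ∀ k k' : Fin 3, 2 = (Bp k' 0 ∩ Bp k' k.succ).card → k' = k := by decide
theorem fR2 : ∀ k k' : Fin 3, 2 ≠ (Rp k' 0 ∩ Rp k' k.succ).card := by decide
theorem fQ1 : ∀ k : Fin 3, 1 ≠ (Qp 0 ∩ Qp k.succ).card := by decide
theorem fA1 : ∀ k k' : Fin 3, 1 = (Ap k' 0 ∩ Ap k' k.succ).card → k' ≠ k := by decide
theorem fB1 : ∀ k k' : Fin 3, 1 ≠ (Bp k' 0 ∩ Bp k' k.succ).card := by decide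
theorem fR1 : ∀ k k' : Fin 3, 1 = (Rp k' 0 ∩ Rp k' k.succ).card → k' ≠ k := by decide

theorem hit_par (hc : SClass) (he : SPatEven) (G : MGraph V E) (A S : Finset E) (x : Fin 4 → V)
    (hx : Function.Injective x) (k : Fin 3)
    (h : ∃ (n : ℕ) (X : Fin n → Finset E), PC G A (mS S) x X ∧
      (∀ i, (pat G x X i).card = 2) ∧ pat G x X 0 = pat G x X k.succ) :
    RI G A S x Qp ∨ RI G A S x (Ap k) ∨ RI G A S x (Bp k) := by
  obtain ⟨n, X, hX, hcard, heq⟩ := h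
  have hX' := pad_PC G A (mS S) x X hX
  have h2 : ∀ i, (pat G x (padX X) i).card = 2 := by
    intro i
    rw [pad_pat, card_map]
    exact hcard i
  have h3 : (pat G x (padX X) 0 ∩ pat G x (padX X) k.succ).card = 2 := by
    rw [pad_pat, pad_pat, heq, inter_self, card_map]
    exact hcard _
  rcases hc (Fin (n + 4)) (by simp) (pat G x (padX X)) h2
    (he V E G A (mS S) 4 x hx _ _ hX') with ⟨ι, hι⟩ | ⟨k', ⟨ι, hι⟩ | ⟨ι, hι⟩ | ⟨ι, hι⟩⟩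
  · exact Or.inl ⟨n + 4, _, hX', ι, hι⟩
  · have h4 := inter_card ι _ _ _ _ (hι 0) (hι k.succ)
    rw [h3] at h4
    have h5 : k' = k := fA2 k k' h4
    subst h5
    exact Or.inr (Or.inl ⟨n + 4, _, hX', ι, hι⟩)
  · have h4 := inter_card ι _ _ _ _ (hι 0) (hι k.succ)
    rw [h3] at h4
    have h5 : k' = k := fB2 k k' h4
    subst h5
    exact Or.inr (Or.inr ⟨n + 4, _, hX', ι, hι⟩)
  · exfalso
    have h4 := inter_card ι _ _ _ _ (hι 0) (hι k.succ)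
    rw [h3] at h4
    exact fR2 k k' h4

theorem hit_tree (hc : SClass) (he : SPatEven) (G : MGraph V E) (A S : Finset E) (x : Fin 4 → V)
    (hx : Function.Injective x) (k : Fin 3)
    (h : ∃ (n : ℕ) (X : Fin n → Finset E), PC G A (mS S) x X ∧
      (∀ i, (pat G x X i).card = 2) ∧ (pat G x X 0 ∩ pat G x X k.succ).card = 1) :
    ∃ l, l ≠ k ∧ (RI G A S x (Ap l) ∨ RI G A S x (Rp l)) := by
  obtain ⟨n, X, hX, hcard, heq⟩ := h
  have hX' := pad_PC G A (mS S) x X hX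
  have h2 : ∀ i, (pat G x (padX X) i).card = 2 := by
    intro i
    rw [pad_pat, card_map]
    exact hcard i
  have h3 : (pat G x (padX X) 0 ∩ pat G x (padX X) k.succ).card = 1 := by
    rw [pad_pat, pad_pat, ← map_inter, card_map]
    exact heq
  rcases hc (Fin (n + 4)) (by simp) (pat G x (padX X)) h2
    (he V E G A (mS S) 4 x hx _ _ hX') with ⟨ι, hι⟩ | ⟨k', ⟨ι, hι⟩ | ⟨ι, hι⟩ | ⟨ι, hι⟩⟩
  · exfalso
    have h4 := inter_card ι _ _ _ _ (hι 0) (hι k.succ)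
    rw [h3] at h4
    exact fQ1 k h4
  · have h4 := inter_card ι _ _ _ _ (hι 0) (hι k.succ)
    rw [h3] at h4
    have h5 : k' ≠ k := fA1 k k' h4
    exact ⟨k', h5, Or.inl ⟨n + 4, _, hX', ι, hι⟩⟩
  · exfalso
    have h4 := inter_card ι _ _ _ _ (hι 0) (hι k.succ)
    rw [h3] at h4
    exact fB1 k k' h4
  · have h4 := inter_card ι _ _ _ _ (hι 0) (hι k.succ)
    rw [h3] at h4
    have h5 : k' ≠ k := fR1 k k' h4
    exact ⟨k', h5, Or.inr ⟨n + 4, _, hX', ι, hι⟩⟩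

end

theorem ex3 {p : Fin 3 → Prop} (h : ∃ k, p k) : p 0 ∨ p 1 ∨ p 2 := by
  obtain ⟨k, hk⟩ := h
  fin_cases k
  · exact Or.inl hk
  · exact Or.inr (Or.inl hk)
  · exact Or.inr (Or.inr hk)

theorem core4 (hrules : SRules) (hf : SFrule) (hglue : SGlue) (hc : SClass) (he : SPatEven) :
    SCore4 := by
  intro V E _ _ _ _ G A F S hAF hSA hdeg x hx hone hcov hpar htree
  by_contra hno
  -- types
  obtain ⟨s, hs⟩ : ∃ s : (Fin 4 → Finset (Fin 4)) → Prop,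
      s = RT G F (fun _ => 2) x T3 := ⟨_, rfl⟩
  obtain ⟨r, hr⟩ : ∃ r : (Fin 4 → Finset (Fin 4)) → Prop, r = RI G A S x := ⟨_, rfl⟩
  have hdis : ∀ P, ¬ (s P ∧ r P) := by
    rintro P ⟨h1, h2⟩
    apply hno
    rw [hs] at h1
    rw [hr] at h2
    obtain ⟨Y, hY, ι', hι'⟩ := h1
    obtain ⟨n, X, hX, ι, hι⟩ := h2
    exact hglue V E G A F S hAF hSA 4 x (Fin n) X hX Y hY (Fin 4) ι ι' P hι hι'
  -- some type is realised
  have hne : s Qp ∨ ∃ k, s (Ap k) ∨ s (Bp k) ∨ s (Rp k) := by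
    obtain ⟨X, hX⟩ := hcov
    have h1 := hc T3 (by decide) (pat G x X) (card_pat G F x hone X hX)
      (he V E G F (fun _ => 2) 4 x hx T3 X hX)
    rw [hs]
    rcases h1 with ⟨ι, hι⟩ | ⟨k, ⟨ι, hι⟩ | ⟨ι, hι⟩ | ⟨ι, hι⟩⟩
    · exact Or.inl ⟨X, hX, ι, hι⟩
    · exact Or.inr ⟨k, Or.inl ⟨X, hX, ι, hι⟩⟩
    · exact Or.inr ⟨k, Or.inr (Or.inl ⟨X, hX, ι, hι⟩)⟩
    · exact Or.inr ⟨k, Or.inr (Or.inr ⟨X, hX, ι, hι⟩)⟩
  -- rules for s
  obtain ⟨sQ, -, -, -, sJ, sJR⟩ := hrules V E G F (fun _ => 2) x hx T3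
  obtain ⟨f1, f2, f3⟩ := hf V E G F x hx hdeg hone
  rw [← hs] at sQ sJ sJR f1 f2 f3
  -- rules for r
  have rQ : r Qp → ∃ k, r (Ap k) := by
    rw [hr]
    rintro ⟨n, h⟩
    obtain ⟨k, hk⟩ := (hrules V E G A (mS S) x hx (Fin n)).1 h
    exact ⟨k, n, hk⟩
  have rA : ∀ k, r (Ap k) → r (Bp k) ∨ ∃ l, l ≠ k ∧ r (Rp l) := by
    rw [hr]
    rintro k ⟨n, h⟩
    rcases (hrules V E G A (mS S) x hx (Fin n)).2.1 k h with h | ⟨l, hl, h⟩
    · exact Or.inl ⟨n, h⟩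
    · exact Or.inr ⟨l, hl, n, h⟩
  have rB : ∀ k, r (Bp k) → r (Ap k) ∨ ∃ l, l ≠ k ∧ r (Rp l) := by
    rw [hr]
    rintro k ⟨n, h⟩
    rcases (hrules V E G A (mS S) x hx (Fin n)).2.2.1 k h with h | ⟨l, hl, h⟩
    · exact Or.inl ⟨n, h⟩
    · exact Or.inr ⟨l, hl, n, h⟩
  have rR : ∀ k l, l ≠ k → r (Rp k) → r (Ap (third k l)) ∨ r (Bp (third k l)) ∨ r (Rp l) := by
    rw [hr]
    rintro k l hkl ⟨n, h⟩
    rcases (hrules V E G A (mS S) x hx (Fin n)).2.2.2.1 k l hkl h with h | h | h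
    · exact Or.inl ⟨n, h⟩
    · exact Or.inr (Or.inl ⟨n, h⟩)
    · exact Or.inr (Or.inr ⟨n, h⟩)
  have rp : ∀ k : Fin 3, r Qp ∨ r (Ap k) ∨ r (Bp k) := by
    intro k
    rw [hr]
    exact hit_par hc he G A S x hx k (hpar k.succ (Fin.succ_ne_zero k))
  have rt : ∀ k : Fin 3, ∃ l, l ≠ k ∧ (r (Ap l) ∨ r (Rp l)) := by
    intro k
    rw [hr]
    exact hit_tree hc he G A S x hx k (htree k.succ (Fin.succ_ne_zero k))
  clear hno hs hr hpar htree hcov hrules hf hglue hc he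
  have e0 : ∀ {p : Fin 3 → Prop} , (∃ l, l ≠ (0 : Fin 3) ∧ p l) → p 1 ∨ p 2 := by
    rintro p ⟨l, hl, h⟩
    fin_cases l
    · exact absurd rfl hl
    · exact Or.inl h
    · exact Or.inr h
  have e1 : ∀ {p : Fin 3 → Prop} , (∃ l, l ≠ (1 : Fin 3) ∧ p l) → p 0 ∨ p 2 := by
    rintro p ⟨l, hl, h⟩
    fin_cases l
    · exact Or.inl h
    · exact absurd rfl hl
    · exact Or.inr h
  have e2 : ∀ {p : Fin 3 → Prop} , (∃ l, l ≠ (2 : Fin 3) ∧ p l) → p 0 ∨ p 1 := by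
    rintro p ⟨l, hl, h⟩
    fin_cases l
    · exact Or.inl h
    · exact Or.inr h
    · exact absurd rfl hl
  have hJ0 := sJ 0
  have hJ1 := sJ 1
  have hJ2 := sJ 2
  have jj0 : s (Ap 0) → (s Qp ∧ s (Bp 0) ∧ s (Ap 0)) ∨
      (s Qp ∧ s (Rp 2) ∧ s (Ap 1)) ∨
      (s Qp ∧ s (Rp 1) ∧ s (Ap 2)) ∨
      (s (Ap 2) ∧ s (Bp 0) ∧ s (Rp 1)) ∨
      (s (Ap 2) ∧ s (Rp 2) ∧ s (Rp 0)) ∨
      (s (Ap 2) ∧ s (Rp 1) ∧ s (Bp 2)) ∨
      (s (Ap 1) ∧ s (Bp 0) ∧ s (Rp 2)) ∨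
      (s (Ap 1) ∧ s (Rp 2) ∧ s (Bp 1)) ∨
      (s (Ap 1) ∧ s (Rp 1) ∧ s (Rp 0)) := by
    intro h
    rcases ex3 (hJ0 h) with h | h | h
    · rcases ex3 h with ⟨h1, h2, h3⟩ | ⟨h1, h2, h3⟩ | ⟨h1, h2, h3⟩
      · exact Or.inl ⟨h1, h2, h3⟩
      · exact Or.inr (Or.inl ⟨h1, h2, h3⟩)
      · exact Or.inr (Or.inr (Or.inl ⟨h1, h2, h3⟩))
    · rcases ex3 h with ⟨h1, h2, h3⟩ | ⟨h1, h2, h3⟩ | ⟨h1, h2, h3⟩
      · exact Or.inr (Or.inr (Or.inr (Or.inl ⟨h1, h2, h3⟩)))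
      · exact Or.inr (Or.inr (Or.inr (Or.inr (Or.inl ⟨h1, h2, h3⟩))))
      · exact Or.inr (Or.inr (Or.inr (Or.inr (Or.inr (Or.inl ⟨h1, h2, h3⟩)))))
    · rcases ex3 h with ⟨h1, h2, h3⟩ | ⟨h1, h2, h3⟩ | ⟨h1, h2, h3⟩
      · exact Or.inr (Or.inr (Or.inr (Or.inr (Or.inr (Or.inr (Or.inl ⟨h1, h2, h3⟩))))))
      · exact Or.inr (Or.inr (Or.inr (Or.inr (Or.inr (Or.inr (Or.inr (Or.inl ⟨h1, h2, h3⟩)))))))
      · exact Or.inr (Or.inr (Or.inr (Or.inr (Or.inr (Or.inr (Or.inr (Or.inr (⟨h1, h2, h3⟩))))))))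
  have jj1 : s (Ap 1) → (s (Ap 2) ∧ s (Rp 2) ∧ s (Rp 1)) ∨
      (s (Ap 2) ∧ s (Bp 1) ∧ s (Rp 0)) ∨
      (s (Ap 2) ∧ s (Rp 0) ∧ s (Bp 2)) ∨
      (s Qp ∧ s (Rp 2) ∧ s (Ap 0)) ∨
      (s Qp ∧ s (Bp 1) ∧ s (Ap 1)) ∨
      (s Qp ∧ s (Rp 0) ∧ s (Ap 2)) ∨
      (s (Ap 0) ∧ s (Rp 2) ∧ s (Bp 0)) ∨
      (s (Ap 0) ∧ s (Bp 1) ∧ s (Rp 2)) ∨
      (s (Ap 0) ∧ s (Rp 0) ∧ s (Rp 1)) := by
    intro h
    rcases ex3 (hJ1 h) with h | h | h
    · rcases ex3 h with ⟨h1, h2, h3⟩ | ⟨h1, h2, h3⟩ | ⟨h1, h2, h3⟩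
      · exact Or.inl ⟨h1, h2, h3⟩
      · exact Or.inr (Or.inl ⟨h1, h2, h3⟩)
      · exact Or.inr (Or.inr (Or.inl ⟨h1, h2, h3⟩))
    · rcases ex3 h with ⟨h1, h2, h3⟩ | ⟨h1, h2, h3⟩ | ⟨h1, h2, h3⟩
      · exact Or.inr (Or.inr (Or.inr (Or.inl ⟨h1, h2, h3⟩)))
      · exact Or.inr (Or.inr (Or.inr (Or.inr (Or.inl ⟨h1, h2, h3⟩))))
      · exact Or.inr (Or.inr (Or.inr (Or.inr (Or.inr (Or.inl ⟨h1, h2, h3⟩)))))
    · rcases ex3 h with ⟨h1, h2, h3⟩ | ⟨h1, h2, h3⟩ | ⟨h1, h2, h3⟩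
      · exact Or.inr (Or.inr (Or.inr (Or.inr (Or.inr (Or.inr (Or.inl ⟨h1, h2, h3⟩))))))
      · exact Or.inr (Or.inr (Or.inr (Or.inr (Or.inr (Or.inr (Or.inr (Or.inl ⟨h1, h2, h3⟩)))))))
      · exact Or.inr (Or.inr (Or.inr (Or.inr (Or.inr (Or.inr (Or.inr (Or.inr (⟨h1, h2, h3⟩))))))))
  have jj2 : s (Ap 2) → (s (Ap 1) ∧ s (Rp 1) ∧ s (Rp 2)) ∨
      (s (Ap 1) ∧ s (Rp 0) ∧ s (Bp 1)) ∨
      (s (Ap 1) ∧ s (Bp 2) ∧ s (Rp 0)) ∨
      (s (Ap 0) ∧ s (Rp 1) ∧ s (Bp 0)) ∨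
      (s (Ap 0) ∧ s (Rp 0) ∧ s (Rp 2)) ∨
      (s (Ap 0) ∧ s (Bp 2) ∧ s (Rp 1)) ∨
      (s Qp ∧ s (Rp 1) ∧ s (Ap 0)) ∨
      (s Qp ∧ s (Rp 0) ∧ s (Ap 1)) ∨
      (s Qp ∧ s (Bp 2) ∧ s (Ap 2)) := by
    intro h
    rcases ex3 (hJ2 h) with h | h | h
    · rcases ex3 h with ⟨h1, h2, h3⟩ | ⟨h1, h2, h3⟩ | ⟨h1, h2, h3⟩
      · exact Or.inl ⟨h1, h2, h3⟩
      · exact Or.inr (Or.inl ⟨h1, h2, h3⟩)
      · exact Or.inr (Or.inr (Or.inl ⟨h1, h2, h3⟩))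
    · rcases ex3 h with ⟨h1, h2, h3⟩ | ⟨h1, h2, h3⟩ | ⟨h1, h2, h3⟩
      · exact Or.inr (Or.inr (Or.inr (Or.inl ⟨h1, h2, h3⟩)))
      · exact Or.inr (Or.inr (Or.inr (Or.inr (Or.inl ⟨h1, h2, h3⟩))))
      · exact Or.inr (Or.inr (Or.inr (Or.inr (Or.inr (Or.inl ⟨h1, h2, h3⟩)))))
    · rcases ex3 h with ⟨h1, h2, h3⟩ | ⟨h1, h2, h3⟩ | ⟨h1, h2, h3⟩
      · exact Or.inr (Or.inr (Or.inr (Or.inr (Or.inr (Or.inr (Or.inl ⟨h1, h2, h3⟩))))))
      · exact Or.inr (Or.inr (Or.inr (Or.inr (Or.inr (Or.inr (Or.inr (Or.inl ⟨h1, h2, h3⟩)))))))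
      · exact Or.inr (Or.inr (Or.inr (Or.inr (Or.inr (Or.inr (Or.inr (Or.inr (⟨h1, h2, h3⟩))))))))
  have jr : ∀ k, s (Rp k) → s Qp ∨ s (Ap 0) ∨ s (Ap 1) ∨ s (Ap 2) ∨ s (Bp 0) ∨ s (Bp 1) ∨
      s (Bp 2) := by
    intro k h
    rcases sJR k h with h | h
    · exact Or.inl h
    · have := ex3 h
      grind
  have ne : s Qp ∨ s (Ap 0) ∨ s (Ap 1) ∨ s (Ap 2) ∨ s (Bp 0) ∨ s (Bp 1) ∨ s (Bp 2) ∨
      s (Rp 0) ∨ s (Rp 1) ∨ s (Rp 2) := by
    rcases hne with h | h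
    · exact Or.inl h
    · have := ex3 h
      grind
  refine logic_flat (s Qp) (s (Ap 0)) (s (Ap 1)) (s (Ap 2)) (s (Bp 0)) (s (Bp 1)) (s (Bp 2))
    (s (Rp 0)) (s (Rp 1)) (s (Rp 2)) (r Qp) (r (Ap 0)) (r (Ap 1)) (r (Ap 2)) (r (Bp 0))
    (r (Bp 1)) (r (Bp 2)) (r (Rp 0)) (r (Rp 1)) (r (Rp 2)) (hdis _) (hdis _) (hdis _) (hdis _)
    (hdis _) (hdis _) (hdis _) (hdis _) (hdis _) (hdis _) ne (fun h => ex3 (sQ h)) (jr 0) (jr 1)
    (jr 2) (f1 0) (f1 1) (f1 2) (f2 0 1 (by decide)) (f2 0 2 (by decide)) (f2 1 0 (by decide))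
    (f2 1 2 (by decide)) (f2 2 0 (by decide)) (f2 2 1 (by decide)) (fun h => e0 (f3 0 h))
    (fun h => e1 (f3 1 h)) (fun h => e2 (f3 2 h)) jj0 jj1 jj2 (fun h => ex3 (rQ h)) ?_ ?_ ?_ ?_ ?_
    ?_ ?_ ?_ ?_ ?_ ?_ ?_ (rp 0) (rp 1) (rp 2) ?_ ?_ ?_
  · intro h
    rcases rA 0 h with h | h
    · exact Or.inl h
    · exact Or.inr (e0 h)
  · intro h
    rcases rA 1 h with h | h
    · exact Or.inl h
    · exact Or.inr (e1 h)
  · intro h
    rcases rA 2 h with h | h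
    · exact Or.inl h
    · exact Or.inr (e2 h)
  · intro h
    rcases rB 0 h with h | h
    · exact Or.inl h
    · exact Or.inr (e0 h)
  · intro h
    rcases rB 1 h with h | h
    · exact Or.inl h
    · exact Or.inr (e1 h)
  · intro h
    rcases rB 2 h with h | h
    · exact Or.inl h
    · exact Or.inr (e2 h)
  · exact rR 0 1 (by decide)
  · exact rR 0 2 (by decide)
  · exact rR 1 0 (by decide)
  · exact rR 1 2 (by decide)
  · exact rR 2 0 (by decide)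
  · exact rR 2 1 (by decide)
  · have := e0 (rt 0); grind
  · have := e1 (rt 1); grind
  · have := e2 (rt 2); grind

end Pool.Agent.H444.FA
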