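import Pool.Agent.H444.FA.Stm

set_option autoImplicit false
set_option linter.unusedSectionVars false

/-!
Task E (helper704): eight-colour covers of a bridgeless piece.
-/

open Finset

namespace Pool.Agent.H444.FA

open Pool.Agent.Helper347.Sab
open Pool.Agent.Helper998.Near (Rch)
open Pool.Agent.Helper879.ECD (f2_add_self cn)
open Pool.Agent.H126R2.CDC (IsFl exists_double_cover)

section

variable {V E : Type} [Fintype V] [DecidableEq V] [Fintype E] [DecidableEq E]

theorem E_halves (G : MGraph V E) :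
    ∃ v : E × Bool → V, ∀ e, G.ends e = s(v (e, false), v (e, true)) := by
  have h : ∀ e, ∃ p : V × V, G.ends e = s(p.1, p.2) := by
    intro e
    induction h : G.ends e using Sym2.ind with
    | _ x y => exact ⟨(x, y), rfl⟩
  choose p hp using h
  refine ⟨fun h => if h.2 then (p h.1).2 else (p h.1).1, fun e => ?_⟩
  simpa using hp e

open Classical in
/-- the contracted half-edges -/
noncomputable def E_half (v : E × Bool → V) (F : Finset E) {d : ℕ} (x : Fin d → V) :
    {e // e ∈ F} × Bool → Option V :=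
  fun h => if ∃ i, v (h.1.1, h.2) = x i then none else some (v (h.1.1, h.2))

theorem E_half_iff (v : E × Bool → V) (F : Finset E) {d : ℕ} (x : Fin d → V) (u : V)
    (hu : ∀ i, u ≠ x i) (h : {e // e ∈ F} × Bool) :
    E_half v F x h = some u ↔ v (h.1.1, h.2) = u := by
  unfold E_half
  split_ifs with h1
  · obtain ⟨i, hi⟩ := h1
    constructor
    · intro h2; exact absurd h2 (by simp)
    · intro h2
      exact absurd (h2.symm.trans hi) (hu i)
  · simp

theorem E_half_ne (v : E × Bool → V) (F : Finset E) {d : ℕ} (x : Fin d → V) (i : Fin d)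
    (h : {e // e ∈ F} × Bool) : E_half v F x h ≠ some (x i) := by
  unfold E_half
  split_ifs with h1
  · simp
  · intro h2
    exact h1 ⟨i, Option.some.inj h2⟩

theorem E_par (G : MGraph V E) (v : E × Bool → V)
    (hv : ∀ e, G.ends e = s(v (e, false), v (e, true))) (F D : Finset E) (hD : D ⊆ F) {d : ℕ}
    (x : Fin d → V) (u : V) (hu : ∀ i, u ≠ x i) :
    ∑ h : {e // e ∈ F} × Bool,
      (if E_half v F x h = some u then (if h.1.1 ∈ D then (1 : F2) else 0) else 0) =
      ((dg G D u : ℕ) : F2) := by
  rw [Fintype.sum_prod_type]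
  have h1 : ∀ e : {e // e ∈ F}, ∑ b : Bool,
      (if E_half v F x (e, b) = some u then (if e.1 ∈ D then (1 : F2) else 0) else 0) =
      (fun e : E => if e ∈ D ∧ u ∈ G.ends e then (1 : F2) else 0) e.1 := by
    intro e
    rw [Fintype.sum_bool]
    simp only [E_half_iff v F x u hu]
    have hne : v (e.1, false) ≠ v (e.1, true) := by
      intro h
      apply G.loopless e.1
      rw [hv e.1, h]
      simp
    have hmem : u ∈ G.ends e.1 ↔ (u = v (e.1, false) ∨ u = v (e.1, true)) := by
      rw [hv e.1, Sym2.mem_iff]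
    by_cases he : e.1 ∈ D
    · by_cases c1 : v (e.1, false) = u
      · have c2 : v (e.1, true) ≠ u := fun c2 => hne (c1.trans c2.symm)
        have c3 : u ∈ G.ends e.1 := hmem.2 (Or.inl c1.symm)
        simp [he, c1, c2, c3]
      · by_cases c2 : v (e.1, true) = u
        · have c3 : u ∈ G.ends e.1 := hmem.2 (Or.inr c2.symm)
          simp [he, c1, c2, c3]
        · have c3 : u ∉ G.ends e.1 := fun h => by
            rcases hmem.1 h with h | h
            · exact c1 h.symm
            · exact c2 h.symm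
          simp [he, c1, c2, c3]
    · simp [he]
  rw [Finset.sum_congr rfl fun e _ => h1 e]
  rw [Finset.sum_coe_sort F (fun e : E => if e ∈ D ∧ u ∈ G.ends e then (1 : F2) else 0)]
  unfold dg
  rw [← Finset.sum_filter, Finset.sum_const, nsmul_eq_mul, mul_one]
  congr 2
  ext e
  simp only [mem_filter]
  constructor
  · rintro ⟨-, h2, h3⟩; exact ⟨h2, h3⟩
  · rintro ⟨h2, h3⟩; exact ⟨hD h2, h2, h3⟩

theorem E_isFl (G : MGraph V E) (v : E × Bool → V)
    (hv : ∀ e, G.ends e = s(v (e, false), v (e, true))) (F D : Finset E) (hD : D ⊆ F) {d : ℕ}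
    (x : Fin d → V) (hE : ∀ u, (∀ i, u ≠ x i) → Even (dg G D u)) :
    IsFl (E_half v F x) (fun e => if e.1 ∈ D then (1 : F2) else 0) := by
  have hsome : ∀ u : V, ∑ h : {e // e ∈ F} × Bool,
      (if E_half v F x h = some u then (if h.1.1 ∈ D then (1 : F2) else 0) else 0) = 0 := by
    intro u
    by_cases hu : ∀ i, u ≠ x i
    · rw [E_par G v hv F D hD x u hu]
      exact (ZMod.natCast_eq_zero_iff_even).2 (hE u hu)
    · push Not at hu
      obtain ⟨i, rfl⟩ := hu
      refine Finset.sum_eq_zero fun h _ => ?_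
      rw [if_neg (E_half_ne v F x i h)]
  intro w
  cases w with
  | some u => exact hsome u
  | none =>
    have h1 : ∑ w : Option V, ∑ h : {e // e ∈ F} × Bool,
        (if E_half v F x h = w then (if h.1.1 ∈ D then (1 : F2) else 0) else 0) = 0 := by
      rw [Finset.sum_comm]
      simp only [Finset.sum_ite_eq, Finset.mem_univ, if_true]
      rw [Fintype.sum_prod_type]
      refine Finset.sum_eq_zero fun e _ => ?_
      rw [Fintype.sum_bool]
      exact f2_add_self _
    rw [Fintype.sum_option] at h1
    simp only [hsome, Finset.sum_const_zero, add_zero] at h1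
    exact h1

theorem E_no_one_cut (G : MGraph V E) (v : E × Bool → V)
    (hv : ∀ e, G.ends e = s(v (e, false), v (e, true))) (F : Finset E) {d : ℕ}
    (x : Fin d → V) (hZ : ∀ e ∈ F, ∃ Z, Z ⊆ F ∧ e ∈ Z ∧ ∀ v, (∀ i, v ≠ x i) → Even (dg G Z v))
    (X : Finset (Option V)) :
    cn (fun e => E_half v F x (e, false)) (fun e => E_half v F x (e, true)) univ X ≠ 1 := by
  intro h
  unfold cn at h
  obtain ⟨e, he⟩ := Finset.card_eq_one.1 h
  obtain ⟨Z, hZF, heZ, hZe⟩ := hZ e.1 e.2
  have h1 := (Pool.Agent.H126R2.CDC.isFl_iff _ _).1 (E_isFl G v hv F Z hZF x hZe)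
    (fun w => if w ∈ X then 1 else 0)
  have h2 : ∀ f ∈ (univ : Finset {e // e ∈ F}), (if f.1 ∈ Z then (1 : F2) else 0) *
      ((if E_half v F x (f, false) ∈ X then (1 : F2) else 0) +
        (if E_half v F x (f, true) ∈ X then (1 : F2) else 0)) =
      if f = e then 1 else 0 := by
    intro f _
    have h3 : f ∈ univ.filter (fun e => ¬ (E_half v F x (e, false) ∈ X ↔
        E_half v F x (e, true) ∈ X)) ↔ f ∈ ({e} : Finset {e // e ∈ F}) := by rw [he]
    simp only [Finset.mem_filter, Finset.mem_univ, true_and, Finset.mem_singleton] at h3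
    by_cases hfe : f = e
    · subst hfe
      have h4 := h3.2 rfl
      rw [if_pos heZ, if_pos rfl, one_mul]
      by_cases h5 : E_half v F x (f, false) ∈ X
      · have h6 : E_half v F x (f, true) ∉ X := fun h6 => h4 ⟨fun _ => h6, fun _ => h5⟩
        simp [h5, h6]
      · have h6 : E_half v F x (f, true) ∈ X := by
          by_contra h6; exact h4 ⟨fun h => absurd h h5, fun h => absurd h h6⟩
        simp [h5, h6]
    · have h4 := not_not.1 (fun h => hfe (h3.1 h))
      rw [if_neg hfe]
      by_cases h5 : E_half v F x (f, false) ∈ X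
      · have h6 := h4.1 h5
        rw [if_pos h5, if_pos h6, f2_add_self, mul_zero]
      · have h6 : E_half v F x (f, true) ∉ X := fun h => h5 (h4.2 h)
        rw [if_neg h5, if_neg h6, add_zero, mul_zero]
  rw [Finset.sum_congr rfl h2] at h1
  simp at h1

end

theorem cov : SCov := by
  intro V E _ _ _ _ G F d x hdeg hZ
  classical
  obtain ⟨v, hv⟩ := E_halves G
  obtain ⟨S, hS1, hS2⟩ := exists_double_cover (E_half v F x) (E_no_one_cut G v hv F x hZ)
  refine ⟨fun c => F.filter fun e => ∃ h : e ∈ F, c ∈ S ⟨e, h⟩, fun c => filter_subset _ _, ?_, ?_⟩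
  · intro e he
    rw [← hS1 ⟨e, he⟩]
    congr 1
    ext c
    simp only [mem_filter, mem_univ, true_and]
    constructor
    · rintro ⟨-, h, hc⟩; exact hc
    · intro hc; exact ⟨he, he, hc⟩
  · intro c u hu
    have h1 := hS2 c (some u)
    have h2 := E_par G v hv F (F.filter fun e => ∃ h : e ∈ F, c ∈ S ⟨e, h⟩) (filter_subset _ _)
      x u hu
    have h3 : ∑ h : {e // e ∈ F} × Bool, (if E_half v F x h = some u then
        (if h.1.1 ∈ (F.filter fun e => ∃ h : e ∈ F, c ∈ S ⟨e, h⟩) then (1 : F2) else 0) else 0) =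
        ∑ h : {e // e ∈ F} × Bool, (if E_half v F x h = some u then
          (if c ∈ S h.1 then (1 : F2) else 0) else 0) := by
      refine Finset.sum_congr rfl fun h _ => ?_
      have h4 : h.1.1 ∈ (F.filter fun e => ∃ h : e ∈ F, c ∈ S ⟨e, h⟩) ↔ c ∈ S h.1 := by
        simp only [mem_filter]
        constructor
        · rintro ⟨-, _, hc⟩; exact hc
        · intro hc; exact ⟨h.1.2, h.1.2, hc⟩
      simp only [h4]
    rw [h3] at h2
    rw [h2] at h1
    exact (ZMod.natCast_eq_zero_iff_even).1 h1

end Pool.Agent.H444.FA
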