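import Pool.Agent.H444.FA.Stm2

set_option autoImplicit false
set_option linter.unusedSectionVars false

/-! O: the edge version. -/

open Finset

namespace Pool.Agent.H444.FA

open Pool.Agent.Helper347.Sab
open Pool.Agent.Helper998.Near (Rch)
open Pool.Agent.H164R2 (SB)

theorem finalH (h : SMain) : SFinalH := by
  intro V E _ _ _ _ G H S hSH hH hS hoff h'
  classical
  -- edges outside S at a vertex of S are equal
  have huniq : ∀ v, dg G S v ≠ 0 → ∀ f g, f ∈ H → f ∉ S → g ∈ H → g ∉ S → v ∈ G.ends f →
      v ∈ G.ends g → f = g := by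
    intro v hv f g hf hfS hg hgS hvf hvg
    have h1 := dg_sdiff (G := G) hSH v
    have h2 := hH v
    have h3 := hS v
    have h4 : dg G (H \ S) v ≤ 1 := by omega
    unfold dg at h4
    rw [card_le_one] at h4
    exact h4 f (mem_filter.2 ⟨mem_sdiff.2 ⟨hf, hfS⟩, hvf⟩) g
      (mem_filter.2 ⟨mem_sdiff.2 ⟨hg, hgS⟩, hvg⟩)
  -- chains starting in H \ S stay there
  have hstay : ∀ e ∈ H, e ∉ S → ∀ f, SB G S e f → f ∈ H ∧ f ∉ S := by
    intro e he heS f hf
    induction hf with
    | refl => exact ⟨he, heS⟩
    | tail h0 h1 ih =>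
      rename_i b c
      obtain ⟨h2, v, h3, h4, h5⟩ := h1
      refine ⟨?_, h2⟩
      by_contra hcon
      exact hoff c hcon v h4 h5
  -- a chain of edges gives a walk
  have hwalk : ∀ e ∈ H, e ∉ S → ∀ f, SB G S e f → ∀ v ∈ G.ends e, ∀ u ∈ G.ends f,
      Rch G (H \ S) v u := by
    intro e he heS f hf
    have hone : ∀ g ∈ H, g ∉ S → ∀ v ∈ G.ends g, ∀ u ∈ G.ends g, Rch G (H \ S) v u := by
      intro g hg hgS v hv u hu
      by_cases huv : v = u
      · rw [huv]
      · exact Relation.ReflTransGen.single ⟨g, mem_sdiff.2 ⟨hg, hgS⟩,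
          (Sym2.mem_and_mem_iff huv).1 ⟨hv, hu⟩⟩
    induction hf with
    | refl => exact hone e he heS
    | tail h0 h1 ih =>
      rename_i b c
      intro v hv u hu
      obtain ⟨h2, x, h3, h4, h5⟩ := h1
      have hc := hstay e he heS c (h0.tail ⟨h2, x, h3, h4, h5⟩)
      exact (ih v hv x h3).trans (hone c hc.1 hc.2 x h4 u hu)
  -- a walk gives a chain of edges
  have hchain : ∀ e ∈ H, e ∉ S → ∀ v ∈ G.ends e, ∀ u, Rch G (H \ S) v u → ∀ f ∈ H, f ∉ S →
      u ∈ G.ends f → SB G S e f := by
    intro e he heS v hv u hu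
    induction hu with
    | refl =>
      intro f hf hfS hvf
      by_cases h1 : dg G S v = 0
      · exact Relation.ReflTransGen.single ⟨hfS, v, hv, hvf, h1⟩
      · rw [huniq v h1 e f he heS hf hfS hv hvf]
    | tail h0 h1 ih =>
      rename_i x y
      obtain ⟨g, hg, hends⟩ := h1
      rw [mem_sdiff] at hg
      intro f hf hfS hyf
      have h2 := ih g hg.1 hg.2 (by rw [hends]; simp)
      have hyg : y ∈ G.ends g := by rw [hends]; simp
      by_cases h3 : dg G S y = 0
      · exact h2.tail ⟨hfS, y, hyg, hyf, h3⟩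
      · rw [← huniq y h3 g f hg.1 hg.2 hf hfS hyg hyf]
        exact h2
  refine h V E G H S hSH hH hS fun v => ?_
  by_cases hv : ∃ e ∈ H, e ∉ S ∧ v ∈ G.ends e
  · obtain ⟨e, he, heS, hve⟩ := hv
    rcases h' e he heS with ⟨A, B, hA, hB, hA1, hB1, hAB⟩ | ⟨hZ, W, D, hD, hDS, hW, hatt⟩
    · left
      refine ⟨A, B, hA, hB, ?_, ?_, ?_, ?_⟩
      · intro f hf
        rcases hA1 f hf with h1 | h1
        · exact hSH h1
        · exact (hstay e he heS f h1).1
      · intro f hf
        rcases hB1 f hf with h1 | h1
        · exact hSH h1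
        · exact (hstay e he heS f h1).1
      · intro f hfS hf u hu
        refine hwalk e he heS f ?_ v hve u hu
        rcases hf with h1 | h1
        · exact (hA1 f h1).resolve_left hfS
        · exact (hB1 f h1).resolve_left hfS
      · intro f hf hfS hreach
        obtain ⟨u, _, _, hends⟩ := exists_ends G f
        have hu : u ∈ G.ends f := by rw [hends]; simp
        exact hAB f hfS (hchain e he heS v hve u (hreach u hu) f hf hfS hu)
    · right
      have hcomp : ∀ f, f ∈ comp G H S v ↔ f ∉ S ∧ SB G S e f := by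
        intro f
        unfold comp
        rw [mem_filter, mem_sdiff]
        constructor
        · rintro ⟨⟨hf, hfS⟩, hreach⟩
          obtain ⟨u, _, _, hends⟩ := exists_ends G f
          have hu : u ∈ G.ends f := by rw [hends]; simp
          exact ⟨hfS, hchain e he heS v hve u (hreach u hu) f hf hfS hu⟩
        · rintro ⟨hfS, hsb⟩
          exact ⟨hstay e he heS f hsb, fun u hu => hwalk e he heS f hsb v hve u hu⟩
      have hatt2 : ∀ u, dg G S u = 2 → dg G (comp G H S v) u ≠ 0 → u ∈ W ∧ dg G D u = 2 := by
        intro u hu hne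
        obtain ⟨f, hf⟩ : ((comp G H S v).filter fun f => u ∈ G.ends f).Nonempty := by
          rw [← Finset.card_pos]
          exact Nat.pos_of_ne_zero hne
        rw [mem_filter, hcomp] at hf
        exact hatt u ⟨hu, f, hf.1.1, hf.2, hf.1.2⟩
      refine ⟨?_, ?_, D, hD, hDS, fun u h1 h2 => (hatt2 u h1 h2).2⟩
      · intro f hf
        have hf' := (hcomp f).1 hf
        obtain ⟨Z, hfZ, hEv⟩ := hZ f hf'.1 hf'.2
        refine ⟨Z ∩ comp G H S v, inter_subset_right, mem_inter.2 ⟨hfZ, hf⟩, ?_⟩
        intro u hu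
        have hnS : ∀ g, u ∈ G.ends g → g ∉ S := by
          intro g hg h1
          have := dg_pos_of_mem (G := G) h1 hg
          omega
        by_cases h1 : ∃ g, u ∈ G.ends g ∧ g ∈ comp G H S v
        · obtain ⟨g, hg, hgc⟩ := h1
          have h2 : ((Z ∩ comp G H S v).filter fun f => u ∈ G.ends f) =
              Z.filter fun f => u ∈ G.ends f := by
            ext k
            rw [mem_filter, mem_filter, mem_inter]
            constructor
            · rintro ⟨h3, h4⟩
              exact ⟨h3.1, h4⟩
            · rintro ⟨h3, h4⟩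
              refine ⟨⟨h3, (hcomp k).2 ⟨hnS k h4, ?_⟩⟩, h4⟩
              exact ((hcomp g).1 hgc).2.tail ⟨hnS k h4, u, hg, h4, hu⟩
          have h5 := hEv u
          unfold dg at h5 ⊢
          rw [h2]
          exact h5
        · have h2 : ((Z ∩ comp G H S v).filter fun f => u ∈ G.ends f) = ∅ := by
            rw [filter_eq_empty_iff]
            intro k hk huk
            exact h1 ⟨k, huk, (mem_inter.1 hk).2⟩
          unfold dg
          rw [h2]
          simp
      · refine (card_le_card ?_).trans hW
        intro u hu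
        have hu' := (mem_filter.1 hu).2
        exact (hatt2 u hu'.1 hu'.2).1
  · -- isolated vertex of the complement
    left
    have hiso : ∀ u, Rch G (H \ S) v u → u = v := by
      intro u hu
      induction hu with
      | refl => rfl
      | tail h0 h1 ih =>
        rename_i x y
        exfalso
        apply hv
        obtain ⟨g, hg, hends⟩ := h1
        rw [mem_sdiff] at hg
        exact ⟨g, hg.1, hg.2, by rw [hends, ih]; simp⟩
    refine ⟨∅, ∅, ?_, ?_, empty_subset _, empty_subset _, ?_, ?_⟩
    · intro u; simp [dg]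
    · intro u; simp [dg]
    · rintro f _ (h1 | h1) <;> simp at h1
    · intro f hf hfS hreach
      exfalso
      obtain ⟨u, _, _, hends⟩ := exists_ends G f
      have hu : u ∈ G.ends f := by rw [hends]; simp
      apply hv
      exact ⟨f, hf, hfS, by rw [← hiso u (hreach u hu)]; exact hu⟩

end Pool.Agent.H444.FA
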