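import Pool.Agent.H444.FA.Stm

set_option autoImplicit false
set_option linter.unusedSectionVars false

/-!
D2: lifting again the flow of an 8-colour cover (helper819).
-/

open Finset

namespace Pool.Agent.H444.FA

open Pool.Agent.Helper347.Sab
open Pool.Agent.Helper998.Near (Rch)

namespace D2

abbrev add := Pool.Agent.H126R2.CDC.T3.add

theorem add_add_self : ∀ a y : T3, add a (add a y) = y := by decide
theorem add_add_self' : ∀ a y : T3, add (add a y) (add a y) = (false, false, false) := by decide
theorem add_left_cancel' : ∀ a y z : T3, add a y = add a z → y = z := by decide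
theorem add_eq_self : ∀ a y : T3, add a y = a → y = (false, false, false) := by decide
theorem add_zero' : ∀ a : T3, add a (false, false, false) = a := by decide
theorem add_add_right : ∀ a y : T3, add (add a y) y = a := by decide

/-- a coset is determined by any of its elements -/
theorem coset {a y c : T3} (h : c ∈ ({a, add a y} : Finset T3)) :
    ({a, add a y} : Finset T3) = {c, add c y} := by
  rw [mem_insert, mem_singleton] at h
  rcases h with rfl | rfl
  · rfl
  · rw [add_add_right, pair_comm]

theorem sum_unique {a y c z : T3} (h : ({a, add a y} : Finset T3) = {c, add c z}) : y = z := by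
  have hc : c ∈ ({a, add a y} : Finset T3) := by
    rw [h]
    exact mem_insert_self _ _
  rw [coset hc] at h
  have h1 : add c y ∈ ({c, add c z} : Finset T3) := by
    rw [← h]
    exact mem_insert_of_mem (mem_singleton_self _)
  rw [mem_insert, mem_singleton] at h1
  rcases h1 with h1 | h1
  · have hy := add_eq_self _ _ h1
    have h2 : add c z ∈ ({c, add c y} : Finset T3) := by
      rw [h]
      exact mem_insert_of_mem (mem_singleton_self _)
    rw [mem_insert, mem_singleton, h1, or_self] at h2
    rw [hy, add_eq_self _ _ h2]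
  · exact add_left_cancel' _ _ _ h1

/-- equal patterns have equal sums -/
theorem eq_sum {p q : Finset T3} {y z : T3} (hp : ∃ a, p = {a, add a y})
    (hq : ∃ a, q = {a, add a z}) (h : p = q) : y = z := by
  obtain ⟨a, ha⟩ := hp
  obtain ⟨b, hb⟩ := hq
  rw [ha, hb] at h
  exact sum_unique h

/-- patterns of the same sum which meet are equal -/
theorem meet_eq {p q : Finset T3} {y z : T3} (hp : ∃ a, p = {a, add a y})
    (hq : ∃ a, q = {a, add a z}) (hyz : y = z) (h : (p ∩ q).Nonempty) : p = q := by
  obtain ⟨a, ha⟩ := hp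
  obtain ⟨b, hb⟩ := hq
  obtain ⟨c, hc⟩ := h
  rw [mem_inter, ha, hb, ← hyz] at hc
  rw [ha, hb, ← hyz, coset hc.1, coset hc.2]

theorem card_two {p : Finset T3} {y : T3} (hp : ∃ a, p = {a, add a y})
    (hy : y ≠ (false, false, false)) : p.card = 2 := by
  obtain ⟨a, ha⟩ := hp
  rw [ha, card_pair]
  intro h
  exact hy (add_eq_self _ _ h.symm)

/-- one common colour: different sums -/
theorem one_ne {p q : Finset T3} {y z : T3} (hp : ∃ a, p = {a, add a y})
    (hq : ∃ a, q = {a, add a z}) (hy : y ≠ (false, false, false)) (h : (p ∩ q).card = 1) :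
    y ≠ z := by
  intro hyz
  have h1 : p = q := meet_eq hp hq hyz (card_pos.mp (by omega))
  rw [← h1, inter_self, card_two hp hy] at h
  omega

section

variable {V E : Type} [Fintype V] [DecidableEq V] [Fintype E] [DecidableEq E]

/-- the colours can be permuted arbitrarily -/
theorem move {G : MGraph V E} {F : Finset E} {m : E → ℕ} {x : Fin 4 → V}
    {P : Fin 4 → Finset (Fin 4)} (h : RT G F m x T3 P) (t : Fin 4 ↪ T3) :
    ∃ X : T3 → Finset E, PC G F m x X ∧ ∀ i, pat G x X i = (P i).map t := by
  obtain ⟨X, ⟨hX1, hX2, hX3⟩, ι, hι⟩ := h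
  obtain ⟨σ, hσ⟩ : ∃ σ : Equiv.Perm T3, ∀ i, σ (ι i) = t i := by
    have h1 := Equiv.Perm.isMultiplyPretransitive T3 4
    rw [MulAction.isMultiplyPretransitive_iff] at h1
    obtain ⟨g, hg⟩ := h1 ι t
    refine ⟨g, fun i => ?_⟩
    rw [← hg]
    rfl
  refine ⟨fun c => X (σ.symm c), ⟨fun c => hX1 _, ?_, fun c v hv => hX3 _ v hv⟩, ?_⟩
  · intro e he
    rw [← hX2 e he]
    have h2 : (univ.filter fun c => e ∈ X (σ.symm c)) =
        (univ.filter fun c => e ∈ X c).map σ.toEmbedding := by
      ext c
      rw [mem_map_equiv, mem_filter, mem_filter]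
      simp only [mem_univ, true_and]
    rw [h2, card_map]
  · intro i
    have h3 : pat G x (fun c => X (σ.symm c)) i = (pat G x X i).map σ.toEmbedding := by
      unfold pat
      ext c
      rw [mem_map_equiv, mem_filter, mem_filter]
      simp only [mem_univ, true_and]
    rw [h3, hι, map_map]
    congr 1
    ext1 j
    exact hσ j

/-- the types of the covers with given nonzero sums -/
theorem types (h' : SPatEven) (h'' : SClass) {G : MGraph V E} {F : Finset E} {m : E → ℕ}
    {x : Fin 4 → V} (hx : Function.Injective x) {X : T3 → Finset E} (hX : PC G F m x X)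
    {y : Fin 4 → T3} (hy : ∀ i, ∃ a, pat G x X i = {a, add a (y i)})
    (hy0 : ∀ i, y i ≠ (false, false, false)) :
    (RT G F m x T3 Qp ∧ (∀ i i', Qp i = Qp i' → y i = y i') ∧
      (∀ i i', (Qp i ∩ Qp i').card = 1 → y i ≠ y i') ∧
      ∀ i i', (pat G x X i ∩ pat G x X i').card = (Qp i ∩ Qp i').card) ∨
    ∃ j : Fin 3, (RT G F m x T3 (Ap j) ∧ (∀ i i', Ap j i = Ap j i' → y i = y i') ∧
      (∀ i i', (Ap j i ∩ Ap j i').card = 1 → y i ≠ y i') ∧
      ∀ i i', (pat G x X i ∩ pat G x X i').card = (Ap j i ∩ Ap j i').card) ∨
    (RT G F m x T3 (Bp j) ∧ (∀ i i', Bp j i = Bp j i' → y i = y i') ∧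
      (∀ i i', (Bp j i ∩ Bp j i').card = 1 → y i ≠ y i') ∧
      ∀ i i', (pat G x X i ∩ pat G x X i').card = (Bp j i ∩ Bp j i').card) ∨
    (RT G F m x T3 (Rp j) ∧ (∀ i i', Rp j i = Rp j i' → y i = y i') ∧
      (∀ i i', (Rp j i ∩ Rp j i').card = 1 → y i ≠ y i') ∧
      ∀ i i', (pat G x X i ∩ pat G x X i').card = (Rp j i ∩ Rp j i').card) := by
  have key : ∀ P : Fin 4 → Finset (Fin 4), (∃ ι : Fin 4 ↪ T3, ∀ i, pat G x X i = (P i).map ι) →
      RT G F m x T3 P ∧ (∀ i i', P i = P i' → y i = y i') ∧
      (∀ i i', (P i ∩ P i').card = 1 → y i ≠ y i') ∧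
      ∀ i i', (pat G x X i ∩ pat G x X i').card = (P i ∩ P i').card := by
    rintro P ⟨ι, hι⟩
    have hint : ∀ i i', (pat G x X i ∩ pat G x X i').card = (P i ∩ P i').card := by
      intro i i'
      rw [hι, hι, ← map_inter, card_map]
    refine ⟨⟨X, hX, ι, hι⟩, ?_, ?_, hint⟩
    · intro i i' hii
      exact eq_sum (hy i) (hy i') (by rw [hι, hι, hii])
    · intro i i' hii
      exact one_ne (hy i) (hy i') (hy0 i) (by rw [hint, hii])
  have h1 := h'' T3 (by decide) (fun i => pat G x X i) (fun i => card_two (hy i) (hy0 i))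
    (h' V E G F m 4 x hx T3 X hX)
  rcases h1 with h1 | ⟨j, h1 | h1 | h1⟩
  · exact Or.inl (key _ h1)
  · exact Or.inr ⟨j, Or.inl (key _ h1)⟩
  · exact Or.inr ⟨j, Or.inr (Or.inl (key _ h1))⟩
  · exact Or.inr ⟨j, Or.inr (Or.inr (key _ h1))⟩

end

/-- colours `0, e1, e2, e3` -/
def tt : Fin 4 ↪ T3 :=
  ⟨![(false, false, false), (true, false, false), (false, true, false), (false, false, true)],
    by decide⟩

/-- colours `0, e1, e2, e1 + e2` -/
def uu : Fin 4 ↪ T3 :=
  ⟨![(false, false, false), (true, false, false), (false, true, false), (true, true, false)],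
    by decide⟩

def y1 (k : Fin 3) : Fin 4 → T3 := fun i =>
  if i = 0 ∨ i = k.succ then (true, false, false) else (false, true, true)

def y2 : Fin 4 → T3 := fun _ => (true, false, false)

def y3 (k : Fin 3) : Fin 4 → T3 := fun i =>
  if i = 0 then (true, false, false) else if i = k.succ then (false, true, true) else
    if (i : ℕ) = (if k = 0 then 2 else 1) then (false, true, false) else (true, false, true)

theorem hy1 : ∀ (k : Fin 3) (i : Fin 4), ∃ a, (Bp k i).map tt = {a, add a (y1 k i)} := by decide
theorem hy2 : ∀ (k : Fin 3) (i : Fin 4), ∃ a, (Bp k i).map uu = {a, add a (y2 i)} := by decide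
theorem hy3 : ∀ (k : Fin 3) (i : Fin 4), ∃ a, (Rp k i).map tt = {a, add a (y3 k i)} := by decide
theorem hn1 : ∀ (k : Fin 3) (i : Fin 4), y1 k i ≠ (false, false, false) := by decide
theorem hn2 : ∀ (i : Fin 4), y2 i ≠ (false, false, false) := by decide
theorem hn3 : ∀ (k : Fin 3) (i : Fin 4), y3 k i ≠ (false, false, false) := by decide

end D2

open D2 in
/-- D2 -/
theorem frule (h : SLift) (h' : SPatEven) (h'' : SClass) : SFrule := by
  intro V E _ _ _ _ G F x hx hdeg hone
  refine ⟨?_, ?_, ?_⟩
  · intro k hB
    obtain ⟨X, hX, hp⟩ := move hB tt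
    have hL := (h V E G F x hx hdeg hone X hX (y1 k) (fun i => by rw [hp]; exact hy1 k i)
      (k + 1).succ k.succ (k + 2).succ (by clear * -; revert k; decide) (by clear * -; revert k; decide)
      (by clear * -; revert k; decide) (by clear * -; revert k; decide) (by clear * -; revert k; decide) (by clear * -; revert k; decide)).2
      (by clear * -; revert k; decide)
    obtain ⟨X', hX', hy', hc⟩ := hL
    have hT := types h' h'' hx hX' hy' (hn1 k)
    rcases hT with ⟨hr, he, ho, hi⟩ | ⟨j, ⟨hr, he, ho, hi⟩ | ⟨hr, he, ho, hi⟩ | ⟨hr, he, ho, hi⟩⟩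
    · exact absurd (he 0 (k + 1).succ rfl) (by clear * -; revert k; decide)
    · by_cases hj : j = k
      · subst hj
        exact Or.inl hr
      · exfalso
        have h1 := he 0 j.succ (by clear * -; revert j; decide)
        revert h1 hj
        clear * -
        revert j k
        decide
    · exfalso
      rw [hi] at hc
      revert hc
      clear * -
      revert j k
      decide
    · by_cases hj : j = k
      · subst hj
        exact Or.inr hr
      · exfalso
        have h1 := ho 0 k.succ (by
          revert hj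
          clear * -
          revert j k
          decide)
        exact h1 (by clear * -; revert k; decide)
  · intro k l hlk hB
    obtain ⟨X, hX, hp⟩ := move hB uu
    have hL := (h V E G F x hx hdeg hone X hX y2 (fun i => by rw [hp]; exact hy2 k i)
      l.succ (l + 1).succ (l + 2).succ (by clear * -; revert l; decide)
      (by clear * -; revert l; decide)
      (by clear * -; revert l; decide) (by clear * -; revert l; decide)
      (by clear * -; revert l; decide) (by clear * -; revert l; decide)).1 rfl
    obtain ⟨X', hX', hy', hc, _⟩ := hL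
    have hT := types h' h'' hx hX' hy' hn2
    have hc2 : (pat G x X' 0 ∩ pat G x X' l.succ).card = 2 := by
      rw [← hc, inter_self]
      exact card_two (hy' 0) (hn2 0)
    rcases hT with ⟨hr, he, ho, hi⟩ | ⟨j, ⟨hr, he, ho, hi⟩ | ⟨hr, he, ho, hi⟩ | ⟨hr, he, ho, hi⟩⟩
    · exact Or.inl hr
    · exfalso
      exact ho 0 (j + 1).succ (by clear * -; revert j; decide) rfl
    · right
      have hj : j = l := by
        rw [hi] at hc2
        revert hc2
        clear * -
        revert j l
        decide
      subst hj
      exact hr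
    · exfalso
      rw [hi] at hc2
      revert hc2
      clear * -
      revert j l
      decide
  · intro k hR
    obtain ⟨X, hX, hp⟩ := move hR tt
    have hL := (h V E G F x hx hdeg hone X hX (y3 k) (fun i => by rw [hp]; exact hy3 k i)
      k.succ (k + 1).succ (k + 2).succ (by clear * -; revert k; decide)
      (by clear * -; revert k; decide)
      (by clear * -; revert k; decide) (by clear * -; revert k; decide)
      (by clear * -; revert k; decide) (by clear * -; revert k; decide)).2
      (by clear * -; revert k; decide)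
    obtain ⟨X', hX', hy', hc⟩ := hL
    have hT := types h' h'' hx hX' hy' (hn3 k)
    rcases hT with ⟨hr, he, ho, hi⟩ | ⟨j, ⟨hr, he, ho, hi⟩ | ⟨hr, he, ho, hi⟩ | ⟨hr, he, ho, hi⟩⟩
    · exact absurd (he 0 k.succ rfl) (by clear * -; revert k; decide)
    · exfalso
      have h1 := he 0 j.succ (by clear * -; revert j; decide)
      revert h1
      clear * -
      revert j k
      decide
    · exfalso
      have h1 := he 0 j.succ (by clear * -; revert j; decide)
      revert h1
      clear * -
      revert j k
      decide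
    · refine ⟨j, ?_, hr⟩
      rw [hi] at hc
      revert hc
      clear * -
      revert j k
      decide

end Pool.Agent.H444.FA
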