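import Pool.Agent.H444.FA.Stm

set_option autoImplicit false
set_option linter.unusedSectionVars false

/-!
F: gluing a cover of `A` and an 8-colour cover of `F` with the same pattern.
-/

open Finset

namespace Pool.Agent.H444.FA

open Pool.Agent.Helper347.Sab
open Pool.Agent.Helper998.Near (Rch)

theorem glue_dg_union {V E : Type} [Fintype V] [DecidableEq V] [Fintype E] [DecidableEq E]
    (G : MGraph V E) (X Y : Finset E) (h : Disjoint X Y) (v : V) :
    dg G (X ∪ Y) v = dg G X v + dg G Y v := by
  unfold dg
  rw [filter_union, card_union_of_disjoint]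
  exact disjoint_filter_filter h

theorem glue : SGlue := by
  classical
  intro V E _ _ _ _ G A F S hAF hSA d x κ _ _ X hX Y hY ξ _ _ ι ι' P hPX hPY
  obtain ⟨hX1, hX2, hX3⟩ := hX
  obtain ⟨hY1, hY2, hY3⟩ := hY
  -- the map of colours
  let θ : T3 → κ ⊕ T3 := fun t => if h : ∃ a, ι' a = t then Sum.inl (ι h.choose) else Sum.inr t
  have hθ1 : ∀ a, θ (ι' a) = Sum.inl (ι a) := by
    intro a
    have h : ∃ b, ι' b = ι' a := ⟨a, rfl⟩
    have h2 : h.choose = a := ι'.injective h.choose_spec
    simp only [θ]
    rw [dif_pos h, h2]
  have hθ2 : ∀ t, (∀ a, ι' a ≠ t) → θ t = Sum.inr t := by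
    intro t ht
    simp only [θ]
    rw [dif_neg]
    rintro ⟨a, ha⟩
    exact ht a ha
  have hθinj : Function.Injective θ := by
    intro s t hst
    by_cases hs : ∃ a, ι' a = s
    · obtain ⟨a, rfl⟩ := hs
      by_cases ht : ∃ b, ι' b = t
      · obtain ⟨b, rfl⟩ := ht
        rw [hθ1, hθ1] at hst
        rw [ι.injective (Sum.inl_injective hst)]
      · rw [hθ1, hθ2 t (fun b hb => ht ⟨b, hb⟩)] at hst
        exact absurd hst (by simp)
    · by_cases ht : ∃ b, ι' b = t
      · obtain ⟨b, rfl⟩ := ht
        rw [hθ1, hθ2 s (fun b hb => hs ⟨b, hb⟩)] at hst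
        exact absurd hst (by simp)
      · rw [hθ2 s (fun b hb => hs ⟨b, hb⟩), hθ2 t (fun b hb => ht ⟨b, hb⟩)] at hst
        exact Sum.inr_injective hst
  let Z : κ ⊕ T3 → Finset E := fun d =>
    univ.filter fun e => (∃ c, d = Sum.inl c ∧ e ∈ X c) ∨ ∃ t, θ t = d ∧ e ∈ Y t
  have hZmem : ∀ d e, e ∈ Z d ↔ ((∃ c, d = Sum.inl c ∧ e ∈ X c) ∨ ∃ t, θ t = d ∧ e ∈ Y t) := by
    intro d e
    simp [Z]
  have hXF : ∀ c e, e ∈ X c → e ∉ F := fun c e he h => (Finset.disjoint_left.mp hAF) (hX1 c he) h
  have hYA : ∀ t e, e ∈ Y t → e ∉ A := fun t e he h => (Finset.disjoint_left.mp hAF) h (hY1 t he)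
  have key : (∀ d, Z d ⊆ A ∪ F) ∧
      (∀ e ∈ A ∪ F, (univ.filter fun d => e ∈ Z d).card = mS S e) ∧
      ∀ d v, Even (dg G (Z d) v) := by
    refine ⟨?_, ?_, ?_⟩
    · intro d e he
      rw [hZmem] at he
      rw [mem_union]
      rcases he with ⟨c, _, hc⟩ | ⟨t, _, ht⟩
      · exact Or.inl (hX1 c hc)
      · exact Or.inr (hY1 t ht)
    · intro e he
      rw [mem_union] at he
      by_cases heA : e ∈ A
      · rw [← hX2 e heA]
        symm
        apply card_bij (fun c _ => Sum.inl c)
        · intro c hc
          rw [mem_filter] at hc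
          rw [mem_filter]
          exact ⟨mem_univ _, (hZmem _ _).2 (Or.inl ⟨c, rfl, hc.2⟩)⟩
        · intro c _ c' _ h
          exact Sum.inl_injective h
        · intro b hb
          rw [mem_filter] at hb
          rcases (hZmem _ _).1 hb.2 with ⟨c, hc1, hc2⟩ | ⟨t, _, ht⟩
          · exact ⟨c, by rw [mem_filter]; exact ⟨mem_univ _, hc2⟩, hc1.symm⟩
          · exact absurd heA (hYA t e ht)
      · have heF : e ∈ F := he.resolve_left heA
        have hmS : mS S e = 2 := by
          unfold mS
          rw [if_neg (fun h => heA (hSA h))]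
        rw [hmS]
        refine Eq.trans ?_ (hY2 e heF)
        symm
        apply card_bij (fun t _ => θ t)
        · intro t ht
          rw [mem_filter] at ht
          rw [mem_filter]
          exact ⟨mem_univ _, (hZmem _ _).2 (Or.inr ⟨t, rfl, ht.2⟩)⟩
        · intro c _ c' _ h
          exact hθinj h
        · intro b hb
          rw [mem_filter] at hb
          rcases (hZmem _ _).1 hb.2 with ⟨c, hc1, hc2⟩ | ⟨t, ht1, ht⟩
          · exact absurd (hX1 c hc2) heA
          · exact ⟨t, by rw [mem_filter]; exact ⟨mem_univ _, ht⟩, ht1⟩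
    · intro d v
      rcases d with c | t
      · by_cases hc : ∃ a, ι a = c
        · obtain ⟨a, rfl⟩ := hc
          have hZ : Z (Sum.inl (ι a)) = X (ι a) ∪ Y (ι' a) := by
            ext e
            rw [hZmem, mem_union]
            constructor
            · rintro (⟨c, hc1, hc2⟩ | ⟨t, ht1, ht2⟩)
              · left
                rw [Sum.inl_injective hc1]
                exact hc2
              · right
                have : t = ι' a := hθinj (by rw [ht1, hθ1])
                rw [← this]
                exact ht2
            · rintro (h | h)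
              · exact Or.inl ⟨_, rfl, h⟩
              · exact Or.inr ⟨_, hθ1 a, h⟩
          rw [hZ, glue_dg_union G _ _ (Finset.disjoint_left.mpr
            (fun e he he' => hYA _ e he' (hX1 _ he)))]
          by_cases hv : ∀ i, v ≠ x i
          · exact (hX3 _ v hv).add (hY3 _ v hv)
          · push Not at hv
            obtain ⟨i, rfl⟩ := hv
            have h1 : Odd (dg G (X (ι a)) (x i)) ↔ a ∈ P i := by
              have : ι a ∈ pat G x X i ↔ a ∈ P i := by
                rw [hPX i, mem_map' ι]
              rw [← this, pat, mem_filter]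
              simp
            have h2 : Odd (dg G (Y (ι' a)) (x i)) ↔ a ∈ P i := by
              have : ι' a ∈ pat G x Y i ↔ a ∈ P i := by
                rw [hPY i, mem_map' ι']
              rw [← this, pat, mem_filter]
              simp
            rw [Nat.even_add, ← Nat.not_odd_iff_even, ← Nat.not_odd_iff_even, h1, h2]
        · have hZ : Z (Sum.inl c) = X c := by
            ext e
            rw [hZmem]
            constructor
            · rintro (⟨c, hc1, hc2⟩ | ⟨t, ht1, ht2⟩)
              · rw [Sum.inl_injective hc1]
                exact hc2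
              · exfalso
                by_cases ht : ∃ b, ι' b = t
                · obtain ⟨b, rfl⟩ := ht
                  rw [hθ1] at ht1
                  exact hc ⟨b, Sum.inl_injective ht1⟩
                · rw [hθ2 t (fun b hb => ht ⟨b, hb⟩)] at ht1
                  exact absurd ht1 (by simp)
            · intro h
              exact Or.inl ⟨_, rfl, h⟩
          rw [hZ]
          by_cases hv : ∀ i, v ≠ x i
          · exact hX3 _ v hv
          · push Not at hv
            obtain ⟨i, rfl⟩ := hv
            rw [← Nat.not_odd_iff_even]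
            intro ho
            have h1 : c ∈ pat G x X i := by
              rw [pat, mem_filter]
              exact ⟨mem_univ _, ho⟩
            rw [hPX i, mem_map] at h1
            obtain ⟨a, _, ha⟩ := h1
            exact hc ⟨a, ha⟩
      · by_cases ht : ∃ b, ι' b = t
        · have hZ : Z (Sum.inr t) = ∅ := by
            rw [eq_empty_iff_forall_notMem]
            intro e he
            rcases (hZmem _ _).1 he with ⟨c, hc1, hc2⟩ | ⟨s, hs1, hs2⟩
            · exact absurd hc1 (by simp)
            · by_cases hs : ∃ b, ι' b = s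
              · obtain ⟨b, rfl⟩ := hs
                rw [hθ1] at hs1
                exact absurd hs1 (by simp)
              · rw [hθ2 s (fun b hb => hs ⟨b, hb⟩)] at hs1
                rw [Sum.inr_injective hs1] at hs
                exact hs ht
          rw [hZ]
          simp [dg]
        · have hθt := hθ2 t (fun b hb => ht ⟨b, hb⟩)
          have hZ : Z (Sum.inr t) = Y t := by
            ext e
            rw [hZmem]
            constructor
            · rintro (⟨c, hc1, hc2⟩ | ⟨s, hs1, hs2⟩)
              · exact absurd hc1 (by simp)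
              · have : s = t := hθinj (by rw [hs1, hθt])
                rw [← this]
                exact hs2
            · intro h
              exact Or.inr ⟨t, hθt, h⟩
          rw [hZ]
          by_cases hv : ∀ i, v ≠ x i
          · exact hY3 _ v hv
          · push Not at hv
            obtain ⟨i, rfl⟩ := hv
            rw [← Nat.not_odd_iff_even]
            intro ho
            have h1 : t ∈ pat G x Y i := by
              rw [pat, mem_filter]
              exact ⟨mem_univ _, ho⟩
            rw [hPY i, mem_map] at h1
            obtain ⟨a, _, ha⟩ := h1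
            exact ht ⟨a, ha⟩
  obtain ⟨k1, k2, k3⟩ := key
  let eq := Fintype.equivFin (κ ⊕ T3)
  refine ⟨Fintype.card (κ ⊕ T3), fun j => Z (eq.symm j), fun c => k1 _, fun e he => ?_,
    fun c v => k3 _ v⟩
  rw [← k2 e he]
  apply card_bij (fun j _ => eq.symm j)
  · intro j hj
    rw [mem_filter] at hj ⊢
    exact ⟨mem_univ _, hj.2⟩
  · intro a _ b _ h
    exact eq.symm.injective h
  · intro b hb
    rw [mem_filter] at hb
    refine ⟨eq b, ?_, by simp⟩
    rw [mem_filter]
    refine ⟨mem_univ _, ?_⟩
    simpa using hb.2

end Pool.Agent.H444.FA
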