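import Pool.Agent.H444.FA.Stm

set_option autoImplicit false
set_option linter.unusedSectionVars false

/-!
Task I1: covers with two pairs of legs of equal patterns (by helper802).
-/

open Finset

namespace Pool.Agent.H444.FA

open Pool.Agent.Helper347.Sab
open Pool.Agent.Helper998.Near (Rch)

namespace I1

variable {V E : Type} [Fintype V] [DecidableEq V] [Fintype E] [DecidableEq E]

/-- a vertex which lies on no new edge keeps its degree -/
theorem dg_off (G : MGraph V E) {a b : ℕ} (g : Fin b → Sym2 (V ⊕ Fin a))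
    (hg : ∀ j, ¬ (g j).IsDiag) (Z : Finset (E ⊕ Fin b)) (v : V)
    (h : ∀ j, (Sum.inl v : V ⊕ Fin a) ∉ g j) :
    dg G (oldP Z) v = dg (ext G g hg) Z (Sum.inl v) := by
  rw [dg_old, filter_eq_empty_iff.2, card_empty, add_zero]
  rintro j _ ⟨_, h2⟩
  exact h j h2

/-- a vertex which lies on exactly one new edge -/
theorem leg (G : MGraph V E) {a b : ℕ} (g : Fin b → Sym2 (V ⊕ Fin a))
    (hg : ∀ j, ¬ (g j).IsDiag) (Z : Finset (E ⊕ Fin b)) (v : V) (j0 : Fin b)
    (h : ∀ j, (Sum.inl v : V ⊕ Fin a) ∈ g j ↔ j = j0)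
    (he : Even (dg (ext G g hg) Z (Sum.inl v))) :
    Odd (dg G (oldP Z) v) ↔ Sum.inr j0 ∈ Z := by
  rw [dg_old] at he
  by_cases hj : (Sum.inr j0 : E ⊕ Fin b) ∈ Z
  · have h1 : (univ.filter fun j : Fin b => Sum.inr j ∈ Z ∧ (Sum.inl v : V ⊕ Fin a) ∈ g j) =
        {j0} := by
      ext j
      simp only [mem_filter, mem_univ, true_and, mem_singleton, h]
      constructor
      · exact fun h => h.2
      · rintro rfl
        exact ⟨hj, rfl⟩
    rw [h1, card_singleton] at he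
    refine ⟨fun _ => hj, fun _ => ?_⟩
    rcases Nat.even_or_odd (dg G (oldP Z) v) with h2 | h2
    · exact absurd he (by simpa [Nat.even_add_one] using h2)
    · exact h2
  · have h1 : (univ.filter fun j : Fin b => Sum.inr j ∈ Z ∧ (Sum.inl v : V ⊕ Fin a) ∈ g j) =
        ∅ := by
      rw [filter_eq_empty_iff]
      rintro j _ ⟨h3, h4⟩
      rw [h] at h4
      rw [h4] at h3
      exact hj h3
    rw [h1, card_empty, add_zero] at he
    refine ⟨fun h2 => ?_, fun h2 => absurd h2 hj⟩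
    exact absurd he (Nat.not_even_iff_odd.2 h2)

/-- the old parts of the classes form a cover -/
theorem pc_old (G : MGraph V E) {a b d : ℕ} (g : Fin b → Sym2 (V ⊕ Fin a))
    (hg : ∀ j, ¬ (g j).IsDiag) (A S : Finset E) (x : Fin d → V) {n : ℕ}
    (Z : Fin n → Finset (E ⊕ Fin b)) (h1 : ∀ c, Z c ⊆ inG A)
    (h2 : ∀ e ∈ (inG A : Finset (E ⊕ Fin b)),
      (univ.filter fun c => e ∈ Z c).card = mS (inE S) e)
    (h3 : ∀ c v, Even (dg (ext G g hg) (Z c) v))
    (hx : ∀ v, (∀ i, v ≠ x i) → ∀ j, (Sum.inl v : V ⊕ Fin a) ∉ g j) :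
    PC G A (mS S) x fun c => oldP (Z c) := by
  refine ⟨?_, ?_, ?_⟩
  · intro c e he
    rw [mem_oldP] at he
    exact (inl_mem_inG A e).1 (h1 c he)
  · intro e he
    have h4 := h2 (Sum.inl e) ((inl_mem_inG A e).2 he)
    have h5 : mS (inE S) (Sum.inl e : E ⊕ Fin b) = mS S e := by
      unfold mS
      simp only [mem_inE]
    rw [← h5, ← h4]
    congr 1
    ext c
    simp only [mem_filter, mem_univ, true_and, mem_oldP]
  · intro c v hv
    rw [dg_off G g hg (Z c) v (hx v hv)]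
    exact h3 c _

/-- pattern at a leg -/
theorem pat_leg (G : MGraph V E) {a b d : ℕ} (g : Fin b → Sym2 (V ⊕ Fin a))
    (hg : ∀ j, ¬ (g j).IsDiag) (x : Fin d → V) {n : ℕ}
    (Z : Fin n → Finset (E ⊕ Fin b))
    (h3 : ∀ c v, Even (dg (ext G g hg) (Z c) v)) (i : Fin d) (j0 : Fin b)
    (h : ∀ j, (Sum.inl (x i) : V ⊕ Fin a) ∈ g j ↔ j = j0) :
    pat G x (fun c => oldP (Z c)) i = univ.filter fun c => (Sum.inr j0 : E ⊕ Fin b) ∈ Z c := by
  ext c
  simp only [pat, mem_filter, mem_univ, true_and]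
  exact leg G g hg (Z c) (x i) j0 h (h3 c _)

theorem card_new {b : ℕ} (A S : Finset E) {n : ℕ} (Z : Fin n → Finset (E ⊕ Fin b))
    (h2 : ∀ e ∈ (inG A : Finset (E ⊕ Fin b)),
      (univ.filter fun c => e ∈ Z c).card = mS (inE S) e) (j : Fin b) :
    (univ.filter fun c => (Sum.inr j : E ⊕ Fin b) ∈ Z c).card = 2 := by
  rw [h2 _ (inr_mem_inG A j)]
  unfold mS
  rw [if_neg (inr_notMem_inE S j)]

theorem mem0 (x : Fin 4 → V) (k l l' : Fin 4) (v : V) :
    (Sum.inl v : V ⊕ Fin 0) ∈ gPar x k l l' 0 ↔ v = x 0 ∨ v = x k := by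
  simp [gPar]

theorem mem1 (x : Fin 4 → V) (k l l' : Fin 4) (v : V) :
    (Sum.inl v : V ⊕ Fin 0) ∈ gPar x k l l' 1 ↔ v = x l ∨ v = x l' := by
  simp [gPar]

theorem cov4 : ∀ k l l' : Fin 4, k ≠ 0 → l ≠ 0 → l' ≠ 0 → k ≠ l → k ≠ l' → l ≠ l' →
    ∀ i : Fin 4, i = 0 ∨ i = k ∨ i = l ∨ i = l' := by
  intro k l l' hk hl hl' hkl hkl' hll' i
  have := k.2
  have := l.2
  have := l'.2
  have := i.2
  simp only [ne_eq, Fin.ext_iff, Fin.val_zero] at *
  omega

end I1

open I1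

theorem par : SPar := by
  intro V E _ _ _ _ G A S _ x hx k l l' hk hl hl' hkl hkl' hll' hg hgood
  obtain ⟨n, Z, h1, h2, h3⟩ := hgood
  have hcov := cov4 k l l' hk hl hl' hkl hkl' hll'
  have e0 : ∀ i, i = 0 ∨ i = k →
      ∀ j : Fin 2, (Sum.inl (x i) : V ⊕ Fin 0) ∈ gPar x k l l' j ↔ j = 0 := by
    rintro i hi j
    match j with
    | 0 =>
      rw [mem0, hx.eq_iff, hx.eq_iff]
      simpa using hi
    | 1 =>
      rw [mem1, hx.eq_iff, hx.eq_iff]
      rcases hi with rfl | rfl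
      · simp [Ne.symm hl, Ne.symm hl']
      · simp [hkl, hkl']
  have e1 : ∀ i, i = l ∨ i = l' →
      ∀ j : Fin 2, (Sum.inl (x i) : V ⊕ Fin 0) ∈ gPar x k l l' j ↔ j = 1 := by
    rintro i hi j
    match j with
    | 0 =>
      rw [mem0, hx.eq_iff, hx.eq_iff]
      rcases hi with rfl | rfl
      · simp [hl, Ne.symm hkl]
      · simp [hl', Ne.symm hkl']
    | 1 =>
      rw [mem1, hx.eq_iff, hx.eq_iff]
      simpa using hi
  refine ⟨n, fun c => oldP (Z c), ?_, ?_, ?_⟩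
  · apply pc_old G (gPar x k l l') hg A S x Z h1 h2 h3
    intro v hv j hj
    match j with
    | 0 =>
      rw [mem0] at hj
      rcases hj with h | h
      · exact hv _ h
      · exact hv _ h
    | 1 =>
      rw [mem1] at hj
      rcases hj with h | h
      · exact hv _ h
      · exact hv _ h
  · intro i
    rcases hcov i with hi | hi | hi | hi
    · rw [pat_leg G _ hg x Z h3 i 0 (e0 i (Or.inl hi))]
      exact card_new A S Z h2 0
    · rw [pat_leg G _ hg x Z h3 i 0 (e0 i (Or.inr hi))]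
      exact card_new A S Z h2 0
    · rw [pat_leg G _ hg x Z h3 i 1 (e1 i (Or.inl hi))]
      exact card_new A S Z h2 1
    · rw [pat_leg G _ hg x Z h3 i 1 (e1 i (Or.inr hi))]
      exact card_new A S Z h2 1
  · rw [pat_leg G _ hg x Z h3 0 0 (e0 0 (Or.inl rfl)),
      pat_leg G _ hg x Z h3 k 0 (e0 k (Or.inr rfl))]

end Pool.Agent.H444.FA
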