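import Pool.Agent.H444.FA.Stm

set_option autoImplicit false
set_option linter.unusedSectionVars false

/-!
I3, I4: a good cover of the graph with a claw (an edge) gives a cover of the old part with
patterns of size two (helper152)
-/

open Finset

namespace Pool.Agent.H444.FA

open Pool.Agent.Helper347.Sab
open Pool.Agent.Helper998.Near (Rch)

/-- general version: every attachment lies on exactly one gadget edge -/
theorem good_pat {V E : Type} [Fintype V] [DecidableEq V] [Fintype E] [DecidableEq E]
    (G : MGraph V E) (A S : Finset E) {d a b : ℕ} (x : Fin d → V)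
    (g : Fin b → Sym2 (V ⊕ Fin a)) (hg : ∀ j, ¬ (g j).IsDiag)
    (hv : ∀ j v, (Sum.inl v : V ⊕ Fin a) ∈ g j → ∃ i, v = x i) (σ : Fin d → Fin b)
    (hσ : ∀ i j, (Sum.inl (x i) : V ⊕ Fin a) ∈ g j ↔ j = σ i)
    (h : Good (ext G g hg) (inG A) (inE S)) :
    ∃ (n : ℕ) (X : Fin n → Finset E), PC G A (mS S) x X ∧
      ∀ i, (pat G x X i).card = 2 := by
  obtain ⟨n, Z, hZ, hcount, hev⟩ := h
  refine ⟨n, fun c => oldP (Z c), ⟨?_, ?_, ?_⟩, ?_⟩
  · intro c e he
    rw [mem_oldP] at he
    exact (inl_mem_inG A e).1 (hZ c he)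
  · intro e he
    have h1 := hcount (Sum.inl e) ((inl_mem_inG A e).2 he)
    have h2 : mS (inE S : Finset (E ⊕ Fin b)) (Sum.inl e) = mS S e := by
      unfold mS
      by_cases hS : e ∈ S
      · rw [if_pos hS, if_pos ((mem_inE S e).2 hS)]
      · rw [if_neg hS, if_neg (fun h3 => hS ((mem_inE S e).1 h3))]
    rw [h2] at h1
    rw [← h1]
    congr 1
    ext c
    simp only [mem_filter, mem_univ, true_and, mem_oldP]
  · intro c v hvx
    have h1 := hev c (Sum.inl v)
    rw [dg_old] at h1
    have h2 : (univ.filter fun j : Fin b => Sum.inr j ∈ Z c ∧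
        (Sum.inl v : V ⊕ Fin a) ∈ g j) = ∅ := by
      rw [filter_eq_empty_iff]
      rintro j _ ⟨_, h3⟩
      obtain ⟨i, hi⟩ := hv j v h3
      exact hvx i hi
    rw [h2, card_empty, add_zero] at h1
    exact h1
  · intro i
    have h1 := hcount (Sum.inr (σ i)) (inr_mem_inG A (σ i))
    have h2 : mS (inE S : Finset (E ⊕ Fin b)) (Sum.inr (σ i)) = 2 := by
      unfold mS
      rw [if_neg (inr_notMem_inE S (σ i))]
    rw [h2] at h1
    rw [← h1]
    congr 1
    ext c
    simp only [pat, mem_filter, mem_univ, true_and]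
    have h3 := hev c (Sum.inl (x i))
    rw [dg_old] at h3
    by_cases hc : Sum.inr (σ i) ∈ Z c
    · have h4 : (univ.filter fun j : Fin b => Sum.inr j ∈ Z c ∧
          (Sum.inl (x i) : V ⊕ Fin a) ∈ g j) = {σ i} := by
        ext j
        simp only [mem_filter, mem_univ, true_and, mem_singleton, hσ]
        constructor
        · exact fun h => h.2
        · rintro rfl
          exact ⟨hc, rfl⟩
      rw [h4, card_singleton] at h3
      refine ⟨fun _ => hc, fun _ => ?_⟩
      rw [← Nat.not_even_iff_odd]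
      intro h5
      have h6 := Nat.even_add_one.1 h3
      exact h6 h5
    · have h4 : (univ.filter fun j : Fin b => Sum.inr j ∈ Z c ∧
          (Sum.inl (x i) : V ⊕ Fin a) ∈ g j) = ∅ := by
        rw [filter_eq_empty_iff]
        rintro j _ ⟨h5, h6⟩
        rw [hσ] at h6
        rw [h6] at h5
        exact hc h5
      rw [h4, card_empty, add_zero] at h3
      refine ⟨fun h5 => ?_, fun h5 => absurd h5 hc⟩
      exact absurd h3 (Nat.not_even_iff_odd.2 h5)

theorem claw : SClaw := by
  intro V E _ _ _ _ G A S hSA x hx hg h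
  refine good_pat G A S x (gClaw x) hg ?_ (fun i => i) ?_ h
  · intro j v hj
    fin_cases j <;> simp [gClaw] at hj
    · exact ⟨0, hj⟩
    · exact ⟨1, hj⟩
    · exact ⟨2, hj⟩
  · intro i j
    fin_cases j <;> simp [gClaw, hx.eq_iff]
    · exact eq_comm
    · exact eq_comm
    · exact eq_comm

theorem edge : SEdge := by
  intro V E _ _ _ _ G A S hSA x hx hg h
  refine good_pat G A S x (gEdge x) hg ?_ (fun _ => 0) ?_ h
  · intro j v hj
    fin_cases j
    simp [gEdge] at hj
    rcases hj with hj | hj
    · exact ⟨0, hj⟩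
    · exact ⟨1, hj⟩
  · intro i j
    fin_cases j
    fin_cases i <;> simp [gEdge]

end Pool.Agent.H444.FA
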