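import Pool.Agent.H444.FA.Stm

set_option autoImplicit false
set_option linter.unusedSectionVars false

/-! TASK I2 of the project FA (helper444); proof by helper439. -/

open Finset

namespace Pool.Agent.H444.FA

open Pool.Agent.Helper347.Sab
open Pool.Agent.Helper998.Near (Rch)

namespace I2

def J (k l : Fin 4) (i : Fin 4) : Fin 5 :=
  if i = 0 then 0 else if i = k then 1 else if i = l then 3 else 4

theorem four : ∀ k l l' : Fin 4, k ≠ 0 → l ≠ 0 → l' ≠ 0 → k ≠ l → k ≠ l' → l ≠ l' →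
    ∀ i : Fin 4, i = 0 ∨ i = k ∨ i = l ∨ i = l' := by
  intro k l l' h1 h2 h3 h4 h5 h6 i
  have g1 := i.2
  have g2 := k.2
  have g3 := l.2
  have g4 := l'.2
  simp only [ne_eq, Fin.ext_iff, Fin.val_zero] at *
  omega

theorem mem_iff {V : Type} (x : Fin 4 → V) (hx : Function.Injective x) (k l l' : Fin 4)
    (h1 : k ≠ 0) (h2 : l ≠ 0) (h3 : l' ≠ 0) (h4 : k ≠ l) (h5 : k ≠ l') (h6 : l ≠ l')
    (i : Fin 4) (j : Fin 5) :
    (Sum.inl (x i) : V ⊕ Fin 2) ∈ gTree x k l l' j ↔ j = J k l i := by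
  have h7 := four k l l' h1 h2 h3 h4 h5 h6 i
  rcases h7 with rfl | rfl | rfl | rfl <;> fin_cases j <;>
    simp [gTree, hx.eq_iff, J, h1, h2, h3, h4, h5, h6, h1.symm, h2.symm, h3.symm, h4.symm,
      h5.symm, h6.symm]

theorem new_iff {V : Type} (x : Fin 4 → V) (k l l' : Fin 4) (j : Fin 5) :
    (Sum.inr 0 : V ⊕ Fin 2) ∈ gTree x k l l' j ↔ j = 0 ∨ j = 1 ∨ j = 2 := by
  fin_cases j <;> simp [gTree]

theorem off {V : Type} (x : Fin 4 → V) (k l l' : Fin 4) (v : V) (hv : ∀ i, v ≠ x i)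
    (j : Fin 5) : (Sum.inl v : V ⊕ Fin 2) ∉ gTree x k l l' j := by
  fin_cases j <;> simp [gTree, hv]

end I2

theorem tree : STree := by
  intro V E _ _ _ _ G A S hSA x hx k l l' h1 h2 h3 h4 h5 h6 hg hgood
  obtain ⟨n, Z, hZ1, hZ2, hZ3⟩ := hgood
  have hnew : ∀ j : Fin 5, (univ.filter fun c => (Sum.inr j : E ⊕ Fin 5) ∈ Z c).card = 2 := by
    intro j
    rw [hZ2 _ (inr_mem_inG A j), mS, if_neg (inr_notMem_inE S j)]
  have hpat : ∀ i, pat G x (fun c => oldP (Z c)) i =
      univ.filter fun c => (Sum.inr (I2.J k l i) : E ⊕ Fin 5) ∈ Z c := by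
    intro i
    unfold pat
    apply filter_congr
    intro c _
    have h7 := hZ3 c (Sum.inl (x i))
    rw [dg_old] at h7
    have h8 : (univ.filter fun j : Fin 5 => (Sum.inr j : E ⊕ Fin 5) ∈ Z c ∧
        (Sum.inl (x i) : V ⊕ Fin 2) ∈ gTree x k l l' j).card =
        if (Sum.inr (I2.J k l i) : E ⊕ Fin 5) ∈ Z c then 1 else 0 := by
      simp only [I2.mem_iff x hx k l l' h1 h2 h3 h4 h5 h6]
      split_ifs with h9
      · rw [card_eq_one]
        refine ⟨I2.J k l i, ?_⟩
        ext j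
        simp only [mem_filter, mem_univ, true_and, mem_singleton]
        constructor
        · exact fun h => h.2
        · rintro rfl
          exact ⟨h9, rfl⟩
      · rw [card_eq_zero, filter_eq_empty_iff]
        rintro j _ ⟨h10, rfl⟩
        exact h9 h10
    rw [h8] at h7
    split_ifs at h7 with h9
    · simp only [h9, iff_true]
      rw [Nat.even_add_one, Nat.not_even_iff_odd] at h7
      exact h7
    · simp only [h9, iff_false, Nat.not_odd_iff_even]
      simpa using h7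
  refine ⟨n, fun c => oldP (Z c), ⟨?_, ?_, ?_⟩, ?_, ?_⟩
  · intro c e he
    rw [mem_oldP] at he
    exact (inl_mem_inG A e).1 (hZ1 c he)
  · intro e he
    have h7 := hZ2 (Sum.inl e) ((inl_mem_inG A e).2 he)
    simp only [mem_oldP]
    rw [h7]
    unfold mS
    simp only [mem_inE]
  · intro c v hv
    have h7 := hZ3 c (Sum.inl v)
    rw [dg_old] at h7
    have h8 : (univ.filter fun j : Fin 5 => (Sum.inr j : E ⊕ Fin 5) ∈ Z c ∧
        (Sum.inl v : V ⊕ Fin 2) ∈ gTree x k l l' j).card = 0 := by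
      rw [card_eq_zero, filter_eq_empty_iff]
      rintro j _ ⟨_, h10⟩
      exact I2.off x k l l' v hv j h10
    rw [h8, add_zero] at h7
    exact h7
  · intro i
    rw [hpat]
    exact hnew _
  · rw [hpat, hpat]
    have e0 : I2.J k l 0 = 0 := by simp [I2.J]
    have e1 : I2.J k l k = 1 := by simp [I2.J, h1]
    rw [e0, e1]
    have a0 := hnew 0
    have a1 := hnew 1
    have a2 := hnew 2
    set s0 := univ.filter fun c => (Sum.inr 0 : E ⊕ Fin 5) ∈ Z c with hs0
    set s1 := univ.filter fun c => (Sum.inr 1 : E ⊕ Fin 5) ∈ Z c with hs1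
    set s2 := univ.filter fun c => (Sum.inr 2 : E ⊕ Fin 5) ∈ Z c with hs2
    have h7 : s2 = (s0 \ s1) ∪ (s1 \ s0) := by
      ext c
      have h8 := hZ3 c (Sum.inr 0)
      rw [dg_new] at h8
      simp only [I2.new_iff] at h8
      have h9 : (univ.filter fun j : Fin 5 => (Sum.inr j : E ⊕ Fin 5) ∈ Z c ∧
          (j = 0 ∨ j = 1 ∨ j = 2)).card = (if (Sum.inr 0 : E ⊕ Fin 5) ∈ Z c then 1 else 0) +
          (if (Sum.inr 1 : E ⊕ Fin 5) ∈ Z c then 1 else 0) +
          (if (Sum.inr 2 : E ⊕ Fin 5) ∈ Z c then 1 else 0) := by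
        rw [card_filter, Fin.sum_univ_five]
        simp
      rw [h9] at h8
      simp only [hs0, hs1, hs2, mem_filter, mem_univ, true_and, mem_union, mem_sdiff]
      by_cases p0 : (Sum.inr 0 : E ⊕ Fin 5) ∈ Z c <;> by_cases p1 : (Sum.inr 1 : E ⊕ Fin 5) ∈ Z c <;>
        by_cases p2 : (Sum.inr 2 : E ⊕ Fin 5) ∈ Z c <;> simp [p0, p1, p2] at h8 ⊢
      exact absurd h8 (by decide)
    have h8 : s2.card = (s0 \ s1).card + (s1 \ s0).card := by
      rw [h7, card_union_of_disjoint]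
      rw [disjoint_left]
      intro c hc hc'
      exact (mem_sdiff.1 hc').2 (mem_sdiff.1 hc).1
    have h9 := card_sdiff_add_card_inter s0 s1
    have h10 := card_sdiff_add_card_inter s1 s0
    rw [inter_comm] at h10
    omega

end Pool.Agent.H444.FA
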