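import Pool.Agent.H444.FA.Stm

set_option autoImplicit false
set_option linter.unusedSectionVars false

/-!
Task A2: one Kempe exchange.
-/

open Finset

namespace Pool.Agent.H444.FA

open Pool.Agent.Helper347.Sab
open Pool.Agent.Helper998.Near (Rch)

namespace KE

variable {V E : Type} [Fintype V] [DecidableEq V] [Fintype E] [DecidableEq E]

theorem odd_symmDiff (G : MGraph V E) (X Y : Finset E) (v : V) :
    Odd (dg G (symmDiff X Y) v) ↔ ¬ (Odd (dg G X v) ↔ Odd (dg G Y v)) := by
  have h := dg_symmDiff G X Y v
  rw [Nat.odd_iff, Nat.odd_iff, Nat.odd_iff]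
  omega

/-- the exchanged family -/
def exch {κ : Type} [DecidableEq κ] (α β : κ) (X : κ → Finset E) (P : Finset E) (c : κ) : Finset E :=
  if c = α ∨ c = β then symmDiff (X c) P else X c

theorem mem_pat {G : MGraph V E} {d : ℕ} {x : Fin d → V} {κ : Type} [Fintype κ]
    {X : κ → Finset E} {i : Fin d} {c : κ} : c ∈ pat G x X i ↔ Odd (dg G (X c) (x i)) := by
  simp [pat]

theorem mem_sw {κ : Type} [DecidableEq κ] {α β c : κ} {p : Finset κ} :
    c ∈ sw α β p ↔ Equiv.swap α β c ∈ p := by
  unfold sw
  rw [mem_map]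
  constructor
  · rintro ⟨a, ha, rfl⟩
    simpa using ha
  · intro h
    exact ⟨Equiv.swap α β c, h, by simp⟩

/-- the exchange along an edge set inside the symmetric difference -/
theorem exch_spec {G : MGraph V E} {A : Finset E} {m : E → ℕ} {x : Fin 4 → V}
    (hx : Function.Injective x) {κ : Type} [Fintype κ] [DecidableEq κ] {X : κ → Finset E}
    (hX : PC G A m x X) {α β : κ} (hαβ : α ≠ β) {P : Finset E}
    (hP : P ⊆ symmDiff (X α) (X β)) {j : Fin 3}
    (hodd : ∀ v, Odd (dg G P v) ↔ (v = x 0 ∨ v = x j.succ))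
    (hc : ∀ i, (α ∈ pat G x X i ∧ β ∉ pat G x X i) ∨ (α ∉ pat G x X i ∧ β ∈ pat G x X i)) :
    PC G A m x (exch α β X P) ∧
      (∀ i, pat G x (exch α β X P) i =
        if i = 0 ∨ i = j.succ then sw α β (pat G x X i) else pat G x X i) := by
  have hPA : P ⊆ A := by
    intro e he
    rcases mem_symmDiff.1 (hP he) with h | h
    · exact hX.1 α h.1
    · exact hX.1 β h.1
  refine ⟨⟨?_, ?_, ?_⟩, ?_⟩
  · intro c
    unfold exch
    split_ifs
    · intro e he
      rcases mem_symmDiff.1 he with h | h
      · exact hX.1 c h.1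
      · exact hPA h.1
    · exact hX.1 c
  · intro e he
    rw [← hX.2.1 e he]
    by_cases heP : e ∈ P
    · refine Finset.card_bij (fun c _ => Equiv.swap α β c) ?_ ?_ ?_
      · intro c hc'
        rw [mem_filter] at hc' ⊢
        refine ⟨mem_univ _, ?_⟩
        have h1 := hc'.2
        have h2 := mem_symmDiff.1 (hP heP)
        unfold exch at h1
        by_cases h3 : c = α
        · subst h3
          rw [if_pos (Or.inl rfl), mem_symmDiff] at h1
          rw [Equiv.swap_apply_left]
          tauto
        · by_cases h4 : c = β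
          · subst h4
            rw [if_pos (Or.inr rfl), mem_symmDiff] at h1
            rw [Equiv.swap_apply_right]
            tauto
          · rw [if_neg (by tauto)] at h1
            rw [Equiv.swap_apply_of_ne_of_ne h3 h4]
            exact h1
      · intro a _ b _ h
        exact (Equiv.swap α β).injective h
      · intro c hc'
        rw [mem_filter] at hc'
        refine ⟨Equiv.swap α β c, ?_, by simp⟩
        rw [mem_filter]
        refine ⟨mem_univ _, ?_⟩
        have h1 := hc'.2
        have h2 := mem_symmDiff.1 (hP heP)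
        unfold exch
        by_cases h3 : c = α
        · subst h3
          rw [Equiv.swap_apply_left, if_pos (Or.inr rfl), mem_symmDiff]
          tauto
        · by_cases h4 : c = β
          · subst h4
            rw [Equiv.swap_apply_right, if_pos (Or.inl rfl), mem_symmDiff]
            tauto
          · rw [Equiv.swap_apply_of_ne_of_ne h3 h4, if_neg (by tauto)]
            exact h1
    · congr 1
      apply filter_congr
      intro c _
      unfold exch
      split_ifs
      · rw [mem_symmDiff]
        tauto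
      · exact Iff.rfl
  · intro c v hv
    unfold exch
    split_ifs
    · rw [← Nat.not_odd_iff_even, odd_symmDiff, not_not, hodd]
      have h1 := hX.2.2 c v hv
      rw [← Nat.not_odd_iff_even] at h1
      have h2 := hv 0
      have h3 := hv j.succ
      tauto
    · exact hX.2.2 c v hv
  · intro i
    have key : ∀ c, c ∈ pat G x (exch α β X P) i ↔
        if c = α ∨ c = β then ¬ (c ∈ pat G x X i ↔ (i = 0 ∨ i = j.succ)) else c ∈ pat G x X i := by
      intro c
      rw [mem_pat]
      unfold exch
      split_ifs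
      · rw [odd_symmDiff, hodd, mem_pat, hx.eq_iff, hx.eq_iff]
      · rw [mem_pat]
    ext c
    rw [key]
    have h1 := hc i
    by_cases hi : i = 0 ∨ i = j.succ
    · rw [if_pos hi, mem_sw]
      by_cases h3 : c = α
      · subst h3
        rw [if_pos (Or.inl rfl), Equiv.swap_apply_left]
        tauto
      · by_cases h4 : c = β
        · subst h4
          rw [if_pos (Or.inr rfl), Equiv.swap_apply_right]
          tauto
        · rw [if_neg (by tauto), Equiv.swap_apply_of_ne_of_ne h3 h4]
    · rw [if_neg hi]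
      split_ifs
      · tauto
      · exact Iff.rfl

/-- the path used by the exchange -/
theorem exists_path (h : SPath) {G : MGraph V E} {A : Finset E} {m : E → ℕ} {x : Fin 4 → V}
    {κ : Type} [Fintype κ] [DecidableEq κ] {X : κ → Finset E} (hX : PC G A m x X) {α β : κ}
    (hc : ∀ i, (α ∈ pat G x X i ∧ β ∉ pat G x X i) ∨ (α ∉ pat G x X i ∧ β ∈ pat G x X i)) :
    ∃ j : Fin 3, ∃ P, P ⊆ symmDiff (X α) (X β) ∧
      ∀ v, Odd (dg G P v) ↔ (v = x 0 ∨ v = x j.succ) := by
  have h0 : Odd (dg G (symmDiff (X α) (X β)) (x 0)) := by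
    rw [odd_symmDiff]
    have h1 := hc 0
    rw [mem_pat, mem_pat] at h1
    tauto
  obtain ⟨b, hb, hbo, P, hP, hodd⟩ := h V E G _ _ h0
  have h2 : ∃ i, b = x i := by
    by_contra hcon
    push Not at hcon
    rw [odd_symmDiff] at hbo
    apply hbo
    have h3 := hX.2.2 α b hcon
    have h4 := hX.2.2 β b hcon
    rw [← Nat.not_odd_iff_even] at h3 h4
    tauto
  obtain ⟨i, rfl⟩ := h2
  obtain ⟨j, rfl⟩ : ∃ j : Fin 3, i = j.succ := by
    refine Fin.exists_succ_eq.2 ?_ |>.imp (fun _ h => h.symm)
    rintro rfl
    exact hb rfl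
  exact ⟨j, P, hP, hodd⟩

end KE

theorem kempe1 (h : SPath) : SKempe1 := by
  intro V E _ _ _ _ G A m x hx κ _ _ X hX α β hαβ hc
  obtain ⟨j, P, hP, hodd⟩ := KE.exists_path h hX hc
  exact ⟨j, KE.exch α β X P, KE.exch_spec hx hX hαβ hP hodd hc⟩

end Pool.Agent.H444.FA
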