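import Pool.Agent.H444.FA.Stm

set_option autoImplicit false
set_option linter.unusedSectionVars false

/-!
Two Kempe exchanges (task A3).
-/

open Finset

namespace Pool.Agent.H444.FA

open Pool.Agent.Helper347.Sab
open Pool.Agent.Helper998.Near (Rch)

namespace K2

variable {V E : Type} [Fintype V] [DecidableEq V] [Fintype E] [DecidableEq E]

theorem odd_symm (G : MGraph V E) (X Y : Finset E) (v : V) :
    Odd (dg G (symmDiff X Y) v) ↔ (Odd (dg G X v) ↔ ¬ Odd (dg G Y v)) := by
  have h := dg_symmDiff G X Y v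
  have h2 : Odd (dg G (symmDiff X Y) v) ↔ Odd (dg G X v + dg G Y v) := by
    rw [← h]
    rw [Nat.odd_add]
    simp
  rw [h2, Nat.odd_add, Nat.not_odd_iff_even]

theorem mem_sw {κ : Type} [DecidableEq κ] (α β : κ) (p : Finset κ) (c : κ) :
    c ∈ sw α β p ↔ Equiv.swap α β c ∈ p := by
  unfold sw
  rw [Finset.mem_map_equiv, Equiv.symm_swap]

theorem mem_pat (G : MGraph V E) {d : ℕ} (x : Fin d → V) {κ : Type} [Fintype κ]
    (X : κ → Finset E) (i : Fin d) (c : κ) : c ∈ pat G x X i ↔ Odd (dg G (X c) (x i)) := by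
  simp [pat]

/-- the exchange -/
def ex {κ : Type} [DecidableEq κ] (X : κ → Finset E) (P : Finset E) (α β : κ) (c : κ) : Finset E :=
  if c = α ∨ c = β then symmDiff (X c) P else X c

theorem ex_other {κ : Type} [DecidableEq κ] (X : κ → Finset E) (P : Finset E) (α β c : κ)
    (h1 : c ≠ α) (h2 : c ≠ β) : ex X P α β c = X c := by
  unfold ex
  rw [if_neg]
  rintro (h | h)
  · exact h1 h
  · exact h2 h

theorem exch (G : MGraph V E) (A : Finset E) (m : E → ℕ) (x : Fin 4 → V)
    (hx : Function.Injective x) {κ : Type} [Fintype κ] [DecidableEq κ] (X : κ → Finset E)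
    (hX : PC G A m x X) (α β : κ) (hab : α ≠ β)
    (hp : ∀ i, (α ∈ pat G x X i ∧ β ∉ pat G x X i) ∨ (α ∉ pat G x X i ∧ β ∈ pat G x X i))
    (j : Fin 3) (P : Finset E) (hP : P ⊆ symmDiff (X α) (X β))
    (hPo : ∀ v, Odd (dg G P v) ↔ (v = x 0 ∨ v = x j.succ)) :
    PC G A m x (ex X P α β) ∧ ∀ i, pat G x (ex X P α β) i =
      if i = 0 ∨ i = j.succ then sw α β (pat G x X i) else pat G x X i := by
  obtain ⟨hX1, hX2, hX3⟩ := hX
  have hPA : P ⊆ A := by
    intro e he
    have := hP he
    rw [mem_symmDiff] at this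
    rcases this with h | h
    · exact hX1 α h.1
    · exact hX1 β h.1
  have hxor : ∀ e ∈ P, (e ∈ X α ↔ e ∉ X β) := by
    intro e he
    have := hP he
    rw [mem_symmDiff] at this
    tauto
  have hexmem : ∀ c, (c = α ∨ c = β) → ex X P α β c = symmDiff (X c) P := by
    intro c hc
    unfold ex
    rw [if_pos hc]
  refine ⟨⟨?_, ?_, ?_⟩, ?_⟩
  · intro c
    by_cases hc : c = α ∨ c = β
    · rw [hexmem c hc]
      intro e he
      rw [mem_symmDiff] at he
      rcases he with h | h
      · exact hX1 c h.1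
      · exact hPA h.1
    · unfold ex
      rw [if_neg hc]
      exact hX1 c
  · intro e he
    by_cases heP : e ∈ P
    · have h1 : (univ.filter fun c => e ∈ ex X P α β c) =
          sw α β (univ.filter fun c => e ∈ X c) := by
        ext c
        rw [mem_sw]
        simp only [mem_filter, mem_univ, true_and]
        by_cases h2 : c = α
        · subst h2
          rw [Equiv.swap_apply_left, hexmem c (Or.inl rfl), mem_symmDiff]
          have := hxor e heP
          tauto
        · by_cases h3 : c = β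
          · subst h3
            rw [Equiv.swap_apply_right, hexmem c (Or.inr rfl), mem_symmDiff]
            have := hxor e heP
            tauto
          · rw [Equiv.swap_apply_of_ne_of_ne h2 h3, ex_other X P α β c h2 h3]
      rw [h1]
      unfold sw
      rw [card_map]
      exact hX2 e he
    · rw [← hX2 e he]
      congr 1
      ext c
      simp only [mem_filter, mem_univ, true_and]
      by_cases hc : c = α ∨ c = β
      · rw [hexmem c hc, mem_symmDiff]
        tauto
      · unfold ex
        rw [if_neg hc]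
  · intro c v hv
    by_cases hc : c = α ∨ c = β
    · rw [hexmem c hc, ← Nat.not_odd_iff_even, odd_symm]
      have h1 := hX3 c v hv
      rw [← Nat.not_odd_iff_even] at h1
      have h2 : ¬ Odd (dg G P v) := by
        rw [hPo]
        rintro (h | h)
        · exact hv 0 h
        · exact hv _ h
      tauto
    · unfold ex
      rw [if_neg hc]
      exact hX3 c v hv
  · intro i
    by_cases hi : i = 0 ∨ i = j.succ
    · rw [if_pos hi]
      have h1 : Odd (dg G P (x i)) := by
        rw [hPo]
        rcases hi with h | h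
        · left; rw [h]
        · right; rw [h]
      have hpi := hp i
      rw [mem_pat, mem_pat] at hpi
      ext c
      rw [mem_sw, mem_pat, mem_pat]
      by_cases h2 : c = α
      · subst h2
        rw [Equiv.swap_apply_left, hexmem c (Or.inl rfl), odd_symm]
        tauto
      · by_cases h3 : c = β
        · subst h3
          rw [Equiv.swap_apply_right, hexmem c (Or.inr rfl), odd_symm]
          tauto
        · rw [Equiv.swap_apply_of_ne_of_ne h2 h3, ex_other X P α β c h2 h3]
    · rw [if_neg hi]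
      have h1 : ¬ Odd (dg G P (x i)) := by
        rw [hPo]
        rintro (h | h)
        · exact hi (Or.inl (hx h))
        · exact hi (Or.inr (hx h))
      ext c
      rw [mem_pat, mem_pat]
      by_cases hc : c = α ∨ c = β
      · rw [hexmem c hc, odd_symm]
        tauto
      · unfold ex
        rw [if_neg hc]

theorem getP (h : SPath) (G : MGraph V E) (A : Finset E) (m : E → ℕ) (x : Fin 4 → V)
    {κ : Type} [Fintype κ] [DecidableEq κ] (X : κ → Finset E)
    (hX : PC G A m x X) (α β : κ)
    (hp : ∀ i, (α ∈ pat G x X i ∧ β ∉ pat G x X i) ∨ (α ∉ pat G x X i ∧ β ∈ pat G x X i)) :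
    ∃ (j : Fin 3) (P : Finset E), P ⊆ symmDiff (X α) (X β) ∧
      ∀ v, Odd (dg G P v) ↔ (v = x 0 ∨ v = x j.succ) := by
  obtain ⟨hX1, hX2, hX3⟩ := hX
  have h0 : Odd (dg G (symmDiff (X α) (X β)) (x 0)) := by
    rw [odd_symm]
    have := hp 0
    rw [mem_pat, mem_pat] at this
    tauto
  obtain ⟨b, hb, hbo, P, hP, hPo⟩ := h V E G (symmDiff (X α) (X β)) (x 0) h0
  have hbi : ∃ i, b = x i := by
    by_contra hcon
    push Not at hcon
    have e1 := hX3 α b hcon
    have e2 := hX3 β b hcon
    rw [← Nat.not_odd_iff_even] at e1 e2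
    rw [odd_symm] at hbo
    tauto
  obtain ⟨i, rfl⟩ := hbi
  have hi : i ≠ 0 := by
    rintro rfl
    exact hb rfl
  obtain ⟨j, rfl⟩ := Fin.exists_succ_eq.2 hi
  exact ⟨j, P, hP, hPo⟩

end K2

open K2

theorem kempe2 (h : SPath) : SKempe2 := by
  intro V E _ _ _ _ G A m x hx κ _ _ X hX α β γ δ hab hcd hac had hbc hbd hp hp'
  obtain ⟨j, P1, hP1, hP1o⟩ := getP h G A m x X hX α β hp
  obtain ⟨l, P2, hP2, hP2o⟩ := getP h G A m x X hX γ δ hp'
  obtain ⟨a1, a2⟩ := exch G A m x hx X hX α β hab hp j P1 hP1 hP1o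
  obtain ⟨b1, b2⟩ := exch G A m x hx X hX γ δ hcd hp' l P2 hP2 hP2o
  have e1 : ex X P1 α β γ = X γ := ex_other X P1 α β γ hac.symm hbc.symm
  have e2 : ex X P1 α β δ = X δ := ex_other X P1 α β δ had.symm hbd.symm
  have hp'' : ∀ i, (γ ∈ pat G x (ex X P1 α β) i ∧ δ ∉ pat G x (ex X P1 α β) i) ∨
      (γ ∉ pat G x (ex X P1 α β) i ∧ δ ∈ pat G x (ex X P1 α β) i) := by
    intro i
    have := hp' i
    rw [mem_pat, mem_pat] at this
    rw [mem_pat, mem_pat, e1, e2]
    exact this
  obtain ⟨c1, c2⟩ := exch G A m x hx (ex X P1 α β) a1 γ δ hcd hp'' l P2 (by rw [e1, e2]; exact hP2)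
    hP2o
  exact ⟨j, l, _, _, _, a1, b1, c1, a2, b2, c2⟩

end Pool.Agent.H444.FA
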