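import Pool.Agent.H444.FA.Stm

set_option autoImplicit false
set_option linter.unusedSectionVars false

/-!
Lifting the flow of an eight-colour cover with the legs joined in a different way.
-/

open Finset

namespace Pool.Agent.H444.FA

open Pool.Agent.Helper347.Sab
open Pool.Agent.Helper998.Near (Rch)
open Pool.Agent.Helper879.ECD (f2_add_self)
open Pool.Agent.H126R2.CDC (IsFl isFl_iff lift lab toB inS card_inS tri_inS dot toB_dot lab_congr
  lab_add f2_eq_of_add f2_eq_of_add3 xor3)

theorem D1_inS_add : ∀ c x t : T3, inS c x t = true →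
    inS (Pool.Agent.H126R2.CDC.T3.add c x) x t = true := by
  decide +kernel

/-- `low_deg` with more information -/
theorem D1_low_deg {W E : Type} [Fintype W] [DecidableEq W] [Fintype E] [DecidableEq E]
    (v : E × Bool → W) (hdeg : ∀ w, (univ.filter (fun h => v h = w)).card ≤ 3)
    (A : Fin 3 → E → F2) (hA : ∀ i, IsFl v (A i))
    (hnz : ∀ e, A 0 e ≠ 0 ∨ A 1 e ≠ 0 ∨ A 2 e ≠ 0) :
    ∃ S : E → Finset T3, (∀ e, (S e).card = 2) ∧
      (∀ e, ∀ c ∈ S e, Pool.Agent.H126R2.CDC.T3.add c (lab A e) ∈ S e) ∧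
      ∀ c, IsFl v (fun e => if c ∈ S e then 1 else 0) := by
  obtain ⟨B, hB, hAB⟩ := lift (fun e => v (e, false)) (fun e => v (e, true)) A
    (fun i => (isFl_iff v (A i)).1 (hA i)) hnz
  have hB' : ∀ i, IsFl v (B i) := fun i => (isFl_iff v (B i)).2 (hB i)
  have hdot : ∀ e, dot (lab A e) (lab B e) = true := fun e => toB_dot _ _ _ _ _ _ (hAB e)
  refine ⟨fun e => univ.filter (fun c : T3 => inS c (lab A e) (lab B e) = true), ?_, ?_, ?_⟩
  · intro e
    exact card_inS _ _ (hdot e)
  · intro e c hc
    rw [mem_filter] at hc ⊢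
    exact ⟨mem_univ _, D1_inS_add _ _ _ hc.2⟩
  · intro c w
    have hgoal : ∀ g : E → F2, ∑ h : E × Bool, (if v h = w then g h.1 else 0) =
        ∑ h ∈ univ.filter (fun h => v h = w), g h.1 := by
      intro g; rw [Finset.sum_filter]
    have hA2 : ∀ i, ∑ h ∈ univ.filter (fun h => v h = w), A i h.1 = 0 := by
      intro i; rw [← hgoal]; exact hA i w
    have hB2 : ∀ i, ∑ h ∈ univ.filter (fun h => v h = w), B i h.1 = 0 := by
      intro i; rw [← hgoal]; exact hB' i w
    simp only [Finset.mem_filter, Finset.mem_univ, true_and]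
    rw [hgoal (fun e => if inS c (lab A e) (lab B e) = true then 1 else 0)]
    have hd := hdeg w
    generalize univ.filter (fun h => v h = w) = H at *
    have hcases : H.card = 0 ∨ H.card = 1 ∨ H.card = 2 ∨ H.card = 3 := by omega
    rcases hcases with h0 | h0 | h0 | h0
    · rw [Finset.card_eq_zero.1 h0, Finset.sum_empty]
    · obtain ⟨x, rfl⟩ := Finset.card_eq_one.1 h0
      exfalso
      simp only [Finset.sum_singleton] at hA2
      rcases hnz x.1 with h | h | h
      · exact h (hA2 0)
      · exact h (hA2 1)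
      · exact h (hA2 2)
    · obtain ⟨x, y, hxy, rfl⟩ := Finset.card_eq_two.1 h0
      rw [Finset.sum_pair hxy]
      have h1 : lab A x.1 = lab A y.1 := lab_congr A _ _ (fun i => by
        have := hA2 i
        rw [Finset.sum_pair hxy] at this
        exact f2_eq_of_add this)
      have h2 : lab B x.1 = lab B y.1 := lab_congr B _ _ (fun i => by
        have := hB2 i
        rw [Finset.sum_pair hxy] at this
        exact f2_eq_of_add this)
      rw [h1, h2]
      exact f2_add_self _
    · obtain ⟨x, y, z, hxy, hxz, hyz, rfl⟩ := Finset.card_eq_three.1 h0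
      have hs : ∀ g : E × Bool → F2, ∑ h ∈ ({x, y, z} : Finset (E × Bool)), g h =
          g x + (g y + g z) := by
        intro g
        rw [Finset.sum_insert (by simp [hxy, hxz]), Finset.sum_pair hyz]
      rw [hs]
      have h1 : lab A z.1 = Pool.Agent.H126R2.CDC.T3.add (lab A x.1) (lab A y.1) :=
        lab_add A _ _ _ (fun i => by
          have := hA2 i
          rw [hs] at this
          exact f2_eq_of_add3 this)
      have h2 : lab B z.1 = Pool.Agent.H126R2.CDC.T3.add (lab B x.1) (lab B y.1) :=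
        lab_add B _ _ _ (fun i => by
          have := hB2 i
          rw [hs] at this
          exact f2_eq_of_add3 this)
      apply xor3
      rw [h1, h2]
      apply tri_inS
      rw [hdot x.1, hdot y.1, ← h1, ← h2, hdot z.1]
      rfl

section

variable {V E : Type} [Fintype V] [DecidableEq V] [Fintype E] [DecidableEq E]

theorem D1_halves (G : MGraph V E) :
    ∃ v : E × Bool → V, ∀ e, G.ends e = s(v (e, false), v (e, true)) := by
  have h : ∀ e, ∃ p : V × V, G.ends e = s(p.1, p.2) := by
    intro e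
    induction h : G.ends e using Sym2.ind with
    | _ x y => exact ⟨(x, y), rfl⟩
  choose p hp using h
  refine ⟨fun h => if h.2 then (p h.1).2 else (p h.1).1, fun e => ?_⟩
  simpa using hp e

theorem D1_sum {M : Type} [AddCommMonoid M] (G : MGraph V E) (F : Finset E) (v : E × Bool → V)
    (hv : ∀ e, G.ends e = s(v (e, false), v (e, true))) (f : E → M) (w : V) :
    ∑ h : {e // e ∈ F} × Bool, (if v (h.1.1, h.2) = w then f h.1.1 else 0) =
      ∑ e ∈ F.filter (fun e => w ∈ G.ends e), f e := by
  rw [Fintype.sum_prod_type, Finset.sum_filter,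
    ← Finset.sum_coe_sort F (fun e => if w ∈ G.ends e then f e else 0)]
  apply Finset.sum_congr rfl
  intro e _
  rw [Fintype.sum_bool]
  have h1 : w ∈ G.ends e ↔ w = v (e, false) ∨ w = v (e, true) := by
    rw [hv e.1, Sym2.mem_iff]
  have h2 : v (e, false) ≠ v (e, true) := by
    intro h
    apply G.loopless e.1
    rw [hv e.1, h]
    exact rfl
  by_cases c1 : v (e, true) = w
  · have c2 : ¬ v (e, false) = w := fun c => h2 (c.trans c1.symm)
    rw [if_pos c1, if_neg c2, if_pos (h1.2 (Or.inr c1.symm)), add_zero]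
  · by_cases c2 : v (e, false) = w
    · rw [if_neg c1, if_pos c2, if_pos (h1.2 (Or.inl c2.symm)), zero_add]
    · have c3 : ¬ w ∈ G.ends e := by
        rw [h1]
        rintro (c | c)
        · exact c2 c.symm
        · exact c1 c.symm
      rw [if_neg c1, if_neg c2, if_neg c3, add_zero]

theorem D1_even_of {ι : Type} [DecidableEq ι] (s : Finset ι) (p : ι → Prop) [DecidablePred p]
    (h : ∑ e ∈ s, (if p e then (1 : F2) else 0) = 0) : Even (s.filter p).card := by
  have h1 : ((s.filter p).card : F2) = ∑ e ∈ s, (if p e then (1 : F2) else 0) := by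
    rw [Finset.sum_boole]
  rw [h] at h1
  exact (ZMod.natCast_eq_zero_iff_even).1 h1

theorem D1_of_even {ι : Type} [DecidableEq ι] (s : Finset ι) (p : ι → Prop) [DecidablePred p]
    (h : Even (s.filter p).card) : ∑ e ∈ s, (if p e then (1 : F2) else 0) = 0 := by
  rw [Finset.sum_boole]
  exact (ZMod.natCast_eq_zero_iff_even).2 h

/-- the lift for a set of edges of a graph with all degrees at most three -/
theorem D1_LD (G : MGraph V E) (F : Finset E) (hdeg : ∀ v, dg G F v ≤ 3) (A : Fin 3 → E → F2)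
    (hA : ∀ i w, ∑ e ∈ F.filter (fun e => w ∈ G.ends e), A i e = 0)
    (hnz : ∀ e ∈ F, A 0 e ≠ 0 ∨ A 1 e ≠ 0 ∨ A 2 e ≠ 0) :
    ∃ S : E → Finset T3, (∀ e ∈ F, (S e).card = 2) ∧
      (∀ e ∈ F, ∀ c ∈ S e, Pool.Agent.H126R2.CDC.T3.add c (lab A e) ∈ S e) ∧
      ∀ c w, Even ((F.filter (fun e => w ∈ G.ends e)).filter (fun e => c ∈ S e)).card := by
  obtain ⟨v, hv⟩ := D1_halves G
  obtain ⟨S, hS1, hS2, hS3⟩ := D1_low_deg (W := V) (E := {e // e ∈ F})
    (fun h => v (h.1.1, h.2)) (by
      intro w
      have h1 := D1_sum G F v hv (fun _ => 1) w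
      rw [Finset.sum_const, smul_eq_mul, mul_one, Finset.sum_boole] at h1
      have h2 := hdeg w
      unfold dg at h2
      simp only [Nat.cast_id] at h1
      omega) (fun i e => A i e.1) (by
      intro i w
      exact (D1_sum G F v hv (A i) w).trans (hA i w)) (fun e => hnz e.1 e.2)
  refine ⟨fun e => if h : e ∈ F then S ⟨e, h⟩ else ∅, ?_, ?_, ?_⟩
  · intro e he
    simp only [dif_pos he]
    exact hS1 _
  · intro e he c hc
    simp only [dif_pos he] at hc ⊢
    exact hS2 ⟨e, he⟩ c hc
  · intro c w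
    apply D1_even_of
    rw [← D1_sum G F v hv (fun e => if c ∈ (if h : e ∈ F then S ⟨e, h⟩ else ∅) then (1 : F2) else 0)
      w]
    refine (Finset.sum_congr rfl ?_).trans (hS3 c w)
    intro h _
    simp only [dif_pos h.1.2]

/-- sums over the edges at an old vertex -/
theorem D1_sum_old {M : Type} [AddCommMonoid M] (G : MGraph V E) {a b : ℕ}
    (g : Fin b → Sym2 (V ⊕ Fin a)) (hg : ∀ j, ¬ (g j).IsDiag) (F : Finset E) (v : V)
    (f : E ⊕ Fin b → M) :
    ∑ e ∈ (inG F : Finset (E ⊕ Fin b)).filter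
      (fun e => (Sum.inl v : V ⊕ Fin a) ∈ (ext G g hg).ends e), f e =
      ∑ e ∈ F.filter (fun e => v ∈ G.ends e), f (Sum.inl e) +
      ∑ j ∈ univ.filter (fun j : Fin b => (Sum.inl v : V ⊕ Fin a) ∈ g j), f (Sum.inr j) := by
  have h1 : ((inG F : Finset (E ⊕ Fin b)).filter
      fun e => (Sum.inl v : V ⊕ Fin a) ∈ (ext G g hg).ends e) =
      (F.filter fun e => v ∈ G.ends e).map ⟨Sum.inl, Sum.inl_injective⟩ ∪
      (univ.filter fun j : Fin b => (Sum.inl v : V ⊕ Fin a) ∈ g j).map
        ⟨Sum.inr, Sum.inr_injective⟩ := by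
    ext e
    rcases e with e | j
    · simp [inl_mem_inG, ext_inl_inl]
    · simp [inr_mem_inG, ext_inr]
  rw [h1, sum_union, sum_map, sum_map]
  · rfl
  rw [disjoint_left]
  intro e h2 h3
  simp only [mem_map, Function.Embedding.coeFn_mk] at h2 h3
  obtain ⟨e1, _, rfl⟩ := h2
  obtain ⟨j, _, h4⟩ := h3
  exact absurd h4 (by simp)

/-- sums over the edges at a new vertex -/
theorem D1_sum_new {M : Type} [AddCommMonoid M] (G : MGraph V E) {a b : ℕ}
    (g : Fin b → Sym2 (V ⊕ Fin a)) (hg : ∀ j, ¬ (g j).IsDiag) (F : Finset E) (w : Fin a)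
    (f : E ⊕ Fin b → M) :
    ∑ e ∈ (inG F : Finset (E ⊕ Fin b)).filter
      (fun e => (Sum.inr w : V ⊕ Fin a) ∈ (ext G g hg).ends e), f e =
      ∑ j ∈ univ.filter (fun j : Fin b => (Sum.inr w : V ⊕ Fin a) ∈ g j), f (Sum.inr j) := by
  have h1 : ((inG F : Finset (E ⊕ Fin b)).filter
      fun e => (Sum.inr w : V ⊕ Fin a) ∈ (ext G g hg).ends e) =
      (univ.filter fun j : Fin b => (Sum.inr w : V ⊕ Fin a) ∈ g j).map
        ⟨Sum.inr, Sum.inr_injective⟩ := by
    ext e
    rcases e with e | j
    · simp [ext_inr_inl]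
    · simp [inr_mem_inG, ext_inr]
  rw [h1, sum_map]
  rfl

end

/-! ### coordinates -/

def D1_b2 (b : Bool) : F2 := if b = true then 1 else 0

def D1_bit (i : Fin 3) (c : T3) : F2 := ![D1_b2 c.1, D1_b2 c.2.1, D1_b2 c.2.2] i

theorem D1_bit_add : ∀ (i : Fin 3) (a b : T3),
    D1_bit i (Pool.Agent.H126R2.CDC.T3.add a b) = D1_bit i a + D1_bit i b := by
  decide +kernel

theorem D1_toB : ∀ c : T3, (toB (D1_bit 0 c), toB (D1_bit 1 c), toB (D1_bit 2 c)) = c := by
  decide +kernel

theorem D1_bit_ne : ∀ c : T3, c ≠ (false, false, false) →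
    D1_bit 0 c ≠ 0 ∨ D1_bit 1 c ≠ 0 ∨ D1_bit 2 c ≠ 0 := by
  decide +kernel

theorem D1_add_ne : ∀ a b : T3, a ≠ b →
    Pool.Agent.H126R2.CDC.T3.add a b ≠ (false, false, false) := by
  decide +kernel

theorem D1_add_zero : ∀ a : T3, Pool.Agent.H126R2.CDC.T3.add a (false, false, false) = a := by
  decide +kernel

theorem D1_ne_add : ∀ a b : T3, b ≠ (false, false, false) →
    a ≠ Pool.Agent.H126R2.CDC.T3.add a b := by
  decide +kernel

theorem D1_add_add : ∀ a b : T3, Pool.Agent.H126R2.CDC.T3.add a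
    (Pool.Agent.H126R2.CDC.T3.add a b) = b := by
  decide +kernel

theorem D1_bit_inj (a b : T3) (h : ∀ i, D1_bit i a = D1_bit i b) : a = b := by
  have h1 := D1_toB a
  rw [h 0, h 1, h 2, D1_toB b] at h1
  exact h1.symm


section

variable {V E : Type} [Fintype V] [DecidableEq V] [Fintype E] [DecidableEq E]

theorem D1_dg (G : MGraph V E) {D F : Finset E} (h : D ⊆ F) (v : V) :
    dg G D v = ((F.filter fun e => v ∈ G.ends e).filter fun e => e ∈ D).card := by
  unfold dg
  congr 1
  ext e
  simp only [mem_filter]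
  constructor
  · rintro ⟨h1, h2⟩
    exact ⟨⟨h h1, h2⟩, h1⟩
  · rintro ⟨⟨_, h2⟩, h3⟩
    exact ⟨h3, h2⟩

/-- the flow of a cover -/
def D1_A (X : T3 → Finset E) (i : Fin 3) (e : E) : F2 :=
  ∑ c : T3, if e ∈ X c then D1_bit i c else 0

theorem D1_A_eq (X : T3 → Finset E) (i : Fin 3) (e : E) :
    D1_A X i e = ∑ c ∈ univ.filter (fun c => e ∈ X c), D1_bit i c := by
  unfold D1_A
  rw [Finset.sum_filter]

theorem D1_A_zero (G : MGraph V E) (F : Finset E) (X : T3 → Finset E) (hX : ∀ c, X c ⊆ F)
    (v : V) (hv : ∀ c, Even (dg G (X c) v)) (i : Fin 3) :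
    ∑ e ∈ F.filter (fun e => v ∈ G.ends e), D1_A X i e = 0 := by
  unfold D1_A
  rw [Finset.sum_comm]
  apply Finset.sum_eq_zero
  intro c _
  have h1 := D1_of_even (F.filter fun e => v ∈ G.ends e) (fun e => e ∈ X c) (by
    rw [← D1_dg G (hX c) v]
    exact hv c)
  have h2 : ∑ e ∈ F.filter (fun e => v ∈ G.ends e), (if e ∈ X c then D1_bit i c else 0) =
      D1_bit i c * ∑ e ∈ F.filter (fun e => v ∈ G.ends e), (if e ∈ X c then (1 : F2) else 0) := by
    rw [Finset.mul_sum]
    apply Finset.sum_congr rfl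
    intro e _
    rw [mul_ite, mul_one, mul_zero]
  rw [h2, h1, mul_zero]

theorem D1_A_ne (F : Finset E) (X : T3 → Finset E)
    (hX : ∀ e ∈ F, (univ.filter fun c => e ∈ X c).card = 2) (e : E) (he : e ∈ F) :
    D1_A X 0 e ≠ 0 ∨ D1_A X 1 e ≠ 0 ∨ D1_A X 2 e ≠ 0 := by
  obtain ⟨c1, c2, hne, hc⟩ := Finset.card_eq_two.1 (hX e he)
  have h1 : ∀ i, D1_A X i e = D1_bit i (Pool.Agent.H126R2.CDC.T3.add c1 c2) := by
    intro i
    rw [D1_A_eq, hc, Finset.sum_pair hne, D1_bit_add]
  rw [h1 0, h1 1, h1 2]
  exact D1_bit_ne _ (D1_add_ne _ _ hne)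

theorem D1_total (G : MGraph V E) (F : Finset E) (f : E → F2) :
    ∑ w : V, ∑ e ∈ F.filter (fun e => w ∈ G.ends e), f e = 0 := by
  obtain ⟨v, hv⟩ := D1_halves G
  have h1 : ∀ w ∈ (univ : Finset V), ∑ e ∈ F.filter (fun e => w ∈ G.ends e), f e =
      ∑ h : {e // e ∈ F} × Bool, (if v (h.1.1, h.2) = w then f h.1.1 else 0) :=
    fun w _ => (D1_sum G F v hv f w).symm
  rw [Finset.sum_congr rfl h1, Finset.sum_comm]
  have h2 : ∀ h ∈ (univ : Finset ({e // e ∈ F} × Bool)),
      ∑ w : V, (if v (h.1.1, h.2) = w then f h.1.1 else 0) = f h.1.1 := by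
    intro h _
    rw [Finset.sum_ite_eq, if_pos (mem_univ _)]
  rw [Finset.sum_congr rfl h2, Fintype.sum_prod_type]
  apply Finset.sum_eq_zero
  intro e _
  rw [Fintype.sum_bool]
  exact f2_add_self _

/-- the edge of a leg and the pattern -/
theorem D1_leg (G : MGraph V E) (F : Finset E) (x : Fin 4 → V) (hleg : ∀ i, dg G F (x i) = 1)
    (i : Fin 4) : ∃ e0 : E, e0 ∈ F ∧ F.filter (fun e => x i ∈ G.ends e) = {e0} ∧
      ∀ X : T3 → Finset E, (∀ c, X c ⊆ F) → ∀ c, c ∈ pat G x X i ↔ e0 ∈ X c := by
  have h1 := hleg i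
  unfold dg at h1
  obtain ⟨e0, he0⟩ := Finset.card_eq_one.1 h1
  refine ⟨e0, ?_, he0, ?_⟩
  · have : e0 ∈ F.filter (fun e => x i ∈ G.ends e) := by
      rw [he0]
      exact mem_singleton_self _
    exact (mem_filter.1 this).1
  · intro X hX c
    unfold pat
    rw [mem_filter, D1_dg G (hX c) (x i), he0]
    by_cases h : e0 ∈ X c
    · rw [filter_singleton, if_pos h, card_singleton]
      exact ⟨fun _ => h, fun _ => ⟨mem_univ _, odd_one⟩⟩
    · rw [filter_singleton, if_neg h, card_empty]
      constructor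
      · rintro ⟨_, h2⟩
        exact absurd h2 (by decide)
      · intro h2
        exact absurd h2 h

theorem D1_pair {p : Finset T3} (hp : p.card = 2) {a y : T3}
    (h : p = {a, Pool.Agent.H126R2.CDC.T3.add a y}) : y ≠ (false, false, false) := by
  intro hy
  rw [hy, D1_add_zero, Finset.pair_eq_singleton] at h
  rw [h, card_singleton] at hp
  omega

/-- the flow at a leg -/
theorem D1_A_leg (G : MGraph V E) (F : Finset E) (x : Fin 4 → V) (hleg : ∀ i, dg G F (x i) = 1)
    (X : T3 → Finset E) (hX : ∀ c, X c ⊆ F)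
    (hX2 : ∀ e ∈ F, (univ.filter fun c => e ∈ X c).card = 2)
    (i : Fin 4) (y : T3) (hy : ∃ a, pat G x X i = {a, Pool.Agent.H126R2.CDC.T3.add a y}) :
    y ≠ (false, false, false) ∧
      ∀ r, ∑ e ∈ F.filter (fun e => x i ∈ G.ends e), D1_A X r e = D1_bit r y := by
  obtain ⟨e0, he0, hfil, hpat⟩ := D1_leg G F x hleg i
  obtain ⟨a, ha⟩ := hy
  have h1 : pat G x X i = univ.filter (fun c => e0 ∈ X c) := by
    ext c
    rw [hpat X hX c, mem_filter]
    exact ⟨fun h => ⟨mem_univ _, h⟩, fun h => h.2⟩
  have h2 : (pat G x X i).card = 2 := by rw [h1]; exact hX2 e0 he0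
  have hy0 := D1_pair h2 ha
  refine ⟨hy0, ?_⟩
  intro r
  rw [hfil, Finset.sum_singleton, D1_A_eq, ← h1, ha, Finset.sum_pair (D1_ne_add a y hy0),
    D1_bit_add, ← add_assoc, f2_add_self, zero_add]

theorem D1_GL (G : MGraph V E) (F : Finset E) (x : Fin 4 → V) (hx : Function.Injective x)
    (hdeg : ∀ v, dg G F v ≤ 3) (hleg : ∀ i, dg G F (x i) = 1) (X : T3 → Finset E)
    (hPC : PC G F (fun _ => 2) x X) (y : Fin 4 → T3)
    (hy : ∀ i, ∃ a, pat G x X i = {a, Pool.Agent.H126R2.CDC.T3.add a (y i)})
    {a b : ℕ} (g : Fin b → Sym2 (V ⊕ Fin a)) (hg : ∀ j, ¬ (g j).IsDiag) (J : Fin 4 → Fin b)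
    (hJ : ∀ v j, (Sum.inl v : V ⊕ Fin a) ∈ g j ↔ ∃ i, v = x i ∧ J i = j)
    (z : Fin b → T3) (hz : ∀ i, z (J i) = y i) (hz0 : ∀ j, z j ≠ (false, false, false))
    (hn1 : ∀ w : Fin a, (univ.filter fun j : Fin b => (Sum.inr w : V ⊕ Fin a) ∈ g j).card ≤ 3)
    (hn2 : ∀ (w : Fin a) (r : Fin 3),
      ∑ j ∈ univ.filter (fun j : Fin b => (Sum.inr w : V ⊕ Fin a) ∈ g j), D1_bit r (z j) = 0) :
    ∃ (S : Fin b → Finset T3) (X' : T3 → Finset E), PC G F (fun _ => 2) x X' ∧
      (∀ i, pat G x X' i = S (J i)) ∧ (∀ j, (S j).card = 2) ∧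
      (∀ j, ∀ c ∈ S j, Pool.Agent.H126R2.CDC.T3.add c (z j) ∈ S j) ∧
      ∀ (w : Fin a) (c : T3),
        ∑ j ∈ univ.filter (fun j : Fin b => (Sum.inr w : V ⊕ Fin a) ∈ g j),
          (if c ∈ S j then (1 : F2) else 0) = 0 := by
  obtain ⟨hX1, hX2, hX3⟩ := hPC
  have hfil0 : ∀ v, (∀ i, v ≠ x i) →
      (univ.filter fun j : Fin b => (Sum.inl v : V ⊕ Fin a) ∈ g j) = ∅ := by
    intro v hv
    rw [filter_eq_empty_iff]
    intro j _ h
    obtain ⟨i, hi, _⟩ := (hJ v j).1 h
    exact hv i hi
  have hfil1 : ∀ i, (univ.filter fun j : Fin b => (Sum.inl (x i) : V ⊕ Fin a) ∈ g j) = {J i} := by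
    intro i
    ext j
    rw [mem_filter, mem_singleton, hJ]
    constructor
    · rintro ⟨_, i', hi, hj⟩
      rw [hx hi]
      exact hj.symm
    · intro h
      exact ⟨mem_univ _, i, rfl, h.symm⟩
  let A1 : Fin 3 → E ⊕ Fin b → F2 := fun r => Sum.elim (D1_A X r) (fun j => D1_bit r (z j))
  obtain ⟨S, hS1, hS2, hS3⟩ := D1_LD (ext G g hg) (inG F) (by
      rintro (v | w)
      · rw [dg_old, oldP_inG]
        have h1 : (univ.filter fun j : Fin b => Sum.inr j ∈ (inG F : Finset (E ⊕ Fin b)) ∧
            (Sum.inl v : V ⊕ Fin a) ∈ g j).card ≤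
            (univ.filter fun j : Fin b => (Sum.inl v : V ⊕ Fin a) ∈ g j).card := by
          apply card_le_card
          intro j hj
          rw [mem_filter] at hj ⊢
          exact ⟨hj.1, hj.2.2⟩
        by_cases hv : ∃ i, v = x i
        · obtain ⟨i, rfl⟩ := hv
          rw [hfil1 i, card_singleton] at h1
          have h2 := hleg i
          omega
        · push Not at hv
          rw [hfil0 v hv, card_empty] at h1
          have h2 := hdeg v
          omega
      · rw [dg_new]
        refine le_trans (card_le_card ?_) (hn1 w)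
        intro j hj
        rw [mem_filter] at hj ⊢
        exact ⟨hj.1, hj.2.2⟩) A1 (by
      rintro r (v | w)
      · rw [D1_sum_old]
        by_cases hv : ∃ i, v = x i
        · obtain ⟨i, rfl⟩ := hv
          rw [hfil1 i, sum_singleton]
          have h1 := (D1_A_leg G F x hleg X hX1 hX2 i (y i) (hy i)).2 r
          have h2 : ∑ e ∈ F.filter (fun e => x i ∈ G.ends e), A1 r (Sum.inl e) = D1_bit r (y i) := h1
          have h3 : A1 r (Sum.inr (J i)) = D1_bit r (y i) := by
            have : A1 r (Sum.inr (J i)) = D1_bit r (z (J i)) := rfl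
            rw [this, hz i]
          rw [h2, h3]
          exact f2_add_self _
        · push Not at hv
          rw [hfil0 v hv, sum_empty, add_zero]
          exact D1_A_zero G F X hX1 v (fun c => hX3 c v hv) r
      · rw [D1_sum_new]
        exact hn2 w r) (by
      rintro (e | j) he
      · rw [inl_mem_inG] at he
        exact D1_A_ne F X hX2 e he
      · exact D1_bit_ne (z j) (hz0 j))
  -- the equation at an old vertex
  have hold : ∀ c v, ∑ e ∈ F.filter (fun e => v ∈ G.ends e),
      (if c ∈ S (Sum.inl e) then (1 : F2) else 0) +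
      ∑ j ∈ univ.filter (fun j : Fin b => (Sum.inl v : V ⊕ Fin a) ∈ g j),
        (if c ∈ S (Sum.inr j) then (1 : F2) else 0) = 0 := by
    intro c v
    have h1 := D1_of_even _ _ (hS3 c (Sum.inl v))
    rw [D1_sum_old G g hg F v (fun e => if c ∈ S e then (1 : F2) else 0)] at h1
    exact h1
  have hXs : ∀ c, (F.filter fun e => c ∈ S (Sum.inl e)) ⊆ F := fun c => filter_subset _ _
  refine ⟨fun j => S (Sum.inr j), fun c => F.filter fun e => c ∈ S (Sum.inl e), ⟨hXs, ?_, ?_⟩,
    ?_, ?_, ?_, ?_⟩
  · intro e he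
    have h1 : (univ.filter fun c => e ∈ F.filter fun e => c ∈ S (Sum.inl e)) = S (Sum.inl e) := by
      ext c
      rw [mem_filter, mem_filter]
      exact ⟨fun h => h.2.2, fun h => ⟨mem_univ _, he, h⟩⟩
    rw [h1]
    exact hS1 _ ((inl_mem_inG F e).2 he)
  · intro c v hv
    rw [D1_dg G (hXs c) v]
    apply D1_even_of
    have h1 := hold c v
    rw [hfil0 v hv, sum_empty, add_zero] at h1
    refine Eq.trans (Finset.sum_congr rfl ?_) h1
    intro e he
    have he' : e ∈ F := (mem_filter.1 he).1
    by_cases h : c ∈ S (Sum.inl e)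
    · rw [if_pos h, if_pos (mem_filter.2 ⟨he', h⟩)]
    · have h5 : ¬ e ∈ F.filter (fun e => c ∈ S (Sum.inl e)) := fun h' => h (mem_filter.1 h').2
      rw [if_neg h, if_neg h5]
  · intro i
    obtain ⟨e0, he0, hfil, hpat⟩ := D1_leg G F x hleg i
    ext c
    rw [hpat _ hXs c, mem_filter]
    have h1 := hold c (x i)
    rw [hfil, hfil1 i, sum_singleton, sum_singleton] at h1
    by_cases c1 : c ∈ S (Sum.inl e0)
    · by_cases c2 : c ∈ S (Sum.inr (J i))
      · exact ⟨fun _ => c2, fun _ => ⟨he0, c1⟩⟩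
      · rw [if_pos c1, if_neg c2] at h1
        exact absurd h1 (by decide)
    · by_cases c2 : c ∈ S (Sum.inr (J i))
      · rw [if_neg c1, if_pos c2] at h1
        exact absurd h1 (by decide)
      · exact ⟨fun h => absurd h.2 c1, fun h => absurd h c2⟩
  · intro j
    exact hS1 _ (inr_mem_inG F j)
  · intro j c hc
    have h1 := hS2 _ (inr_mem_inG F j) c hc
    have h2 : lab A1 (Sum.inr j) = z j := D1_toB (z j)
    rw [h2] at h1
    exact h1
  · intro w c
    have h1 := D1_of_even _ _ (hS3 c (Sum.inr w))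
    rw [D1_sum_new G g hg F w (fun e => if c ∈ S e then (1 : F2) else 0)] at h1
    exact h1

end

theorem D1_four : ∀ k l l' : Fin 4, k ≠ 0 → l ≠ 0 → l' ≠ 0 → k ≠ l → k ≠ l' → l ≠ l' →
    ∀ i, i = 0 ∨ i = k ∨ i = l ∨ i = l' := by
  intro k l l' h1 h2 h3 h4 h5 h6 i
  omega

theorem D1_set {p : Finset T3} (hp : p.card = 2) {z : T3} (hz : z ≠ (false, false, false))
    (h : ∀ c ∈ p, Pool.Agent.H126R2.CDC.T3.add c z ∈ p) :
    ∃ a, p = {a, Pool.Agent.H126R2.CDC.T3.add a z} := by
  obtain ⟨a, b, hab, rfl⟩ := Finset.card_eq_two.1 hp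
  refine ⟨a, ?_⟩
  have h1 := h a (mem_insert_self _ _)
  rw [mem_insert, mem_singleton] at h1
  rcases h1 with h1 | h1
  · exact absurd h1.symm (D1_ne_add a z hz)
  · rw [h1]

section

variable {V E : Type} [Fintype V] [DecidableEq V] [Fintype E] [DecidableEq E]

theorem D1_ysum (G : MGraph V E) (F : Finset E) (x : Fin 4 → V) (hx : Function.Injective x)
    (hleg : ∀ i, dg G F (x i) = 1) (X : T3 → Finset E)
    (hPC : PC G F (fun _ => 2) x X) (y : Fin 4 → T3)
    (hy : ∀ i, ∃ a, pat G x X i = {a, Pool.Agent.H126R2.CDC.T3.add a (y i)})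
    (k l l' : Fin 4) (h1 : k ≠ 0) (h2 : l ≠ 0) (h3 : l' ≠ 0) (h4 : k ≠ l) (h5 : k ≠ l')
    (h6 : l ≠ l') (r : Fin 3) :
    D1_bit r (y 0) + (D1_bit r (y k) + (D1_bit r (y l) + D1_bit r (y l'))) = 0 := by
  obtain ⟨hX1, hX2, hX3⟩ := hPC
  have ht := D1_total G F (D1_A X r)
  have h7 : ∑ w ∈ univ.image x, ∑ e ∈ F.filter (fun e => w ∈ G.ends e), D1_A X r e =
      ∑ w : V, ∑ e ∈ F.filter (fun e => w ∈ G.ends e), D1_A X r e := by
    apply Finset.sum_subset (subset_univ _)
    intro w _ hw
    apply D1_A_zero G F X hX1 w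
    intro c
    apply hX3
    intro i hi
    exact hw (mem_image.2 ⟨i, mem_univ _, hi.symm⟩)
  rw [ht, Finset.sum_image (fun i _ j _ h => hx h)] at h7
  have h8 : ∀ i ∈ (univ : Finset (Fin 4)), ∑ e ∈ F.filter (fun e => x i ∈ G.ends e), D1_A X r e =
      D1_bit r (y i) := fun i _ => (D1_A_leg G F x hleg X hX1 hX2 i (y i) (hy i)).2 r
  rw [Finset.sum_congr rfl h8] at h7
  have h9 : (univ : Finset (Fin 4)) = {0, k, l, l'} := by
    ext i
    simp only [mem_univ, mem_insert, mem_singleton, true_iff]
    exact D1_four k l l' h1 h2 h3 h4 h5 h6 i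
  rw [h9, Finset.sum_insert (by
    simp only [mem_insert, mem_singleton]
    rintro (h | h | h)
    · exact h1 h.symm
    · exact h2 h.symm
    · exact h3 h.symm), Finset.sum_insert (by
    simp only [mem_insert, mem_singleton]
    rintro (h | h)
    · exact h4 h
    · exact h5 h), Finset.sum_pair h6] at h7
  exact h7

end

theorem D1_f2a : ∀ a b c : F2, a + (a + (b + c)) = 0 → b = c := by decide

theorem D1_f2b : ∀ a b c d : F2, a + (b + (c + d)) = 0 → (a + b) + (c + d) = 0 := by decide

theorem D1_f2c : ∀ a b : F2, a + (b + (a + b)) = 0 := by decide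

/-- D1 -/
theorem lift : SLift := by
  intro V E _ _ _ _ G F x hx hdeg hleg X hPC y hy k l l' h1 h2 h3 h4 h5 h6
  have hysum := D1_ysum G F x hx hleg X hPC y hy k l l' h1 h2 h3 h4 h5 h6
  have hy0 : ∀ i, y i ≠ (false, false, false) := fun i =>
    (D1_A_leg G F x hleg X hPC.1 hPC.2.1 i (y i) (hy i)).1
  have hfour := D1_four k l l' h1 h2 h3 h4 h5 h6
  have x0k : x 0 ≠ x k := fun h => h1 (hx h).symm
  have xll : x l ≠ x l' := fun h => h6 (hx h)
  constructor
  · intro hyk
    have hyl : y l = y l' := by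
      apply D1_bit_inj
      intro r
      have h := hysum r
      rw [← hyk] at h
      exact D1_f2a _ _ _ h
    have hg : ∀ j, ¬ (gPar x k l l' j).IsDiag := by
      intro j
      fin_cases j
      · simpa [gPar] using x0k
      · simpa [gPar] using xll
    obtain ⟨S, X', hX', hp, hS1, hS2, _⟩ := D1_GL G F x hx hdeg hleg X hPC y hy (gPar x k l l') hg
      (fun i => if i = 0 ∨ i = k then 0 else 1) (by
        intro v j
        fin_cases j
        · simp only [gPar, Fin.zero_eta, Matrix.cons_val_zero, Sym2.mem_iff, Sum.inl.injEq]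
          constructor
          · rintro (h | h)
            · exact ⟨0, h, by rw [if_pos (Or.inl rfl)]⟩
            · exact ⟨k, h, by rw [if_pos (Or.inr rfl)]⟩
          · rintro ⟨i, hi, hi2⟩
            by_cases c : i = 0 ∨ i = k
            · rcases c with c | c
              · rw [c] at hi; exact Or.inl hi
              · rw [c] at hi; exact Or.inr hi
            · rw [if_neg c] at hi2
              exact absurd hi2 (by decide)
        · simp only [gPar, Fin.mk_one, Matrix.cons_val_one, Matrix.cons_val_fin_one,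
            Sym2.mem_iff, Sum.inl.injEq]
          constructor
          · rintro (h | h)
            · exact ⟨l, h, by
                rw [if_neg]
                rintro (c | c)
                · exact h2 c
                · exact h4 c.symm⟩
            · exact ⟨l', h, by
                rw [if_neg]
                rintro (c | c)
                · exact h3 c
                · exact h5 c.symm⟩
          · rintro ⟨i, hi, hi2⟩
            rcases hfour i with c | c | c | c
            · rw [if_pos (Or.inl c)] at hi2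
              exact absurd hi2 (by decide)
            · rw [if_pos (Or.inr c)] at hi2
              exact absurd hi2 (by decide)
            · rw [c] at hi; exact Or.inl hi
            · rw [c] at hi; exact Or.inr hi) ![y 0, y l] (by
        intro i
        rcases hfour i with c | c | c | c
        · rw [if_pos (Or.inl c), c]; rfl
        · rw [if_pos (Or.inr c), c]; exact hyk
        · rw [if_neg (by
            rintro (d | d)
            · exact h2 (c.symm.trans d)
            · exact h4 (d.symm.trans c)), c]; rfl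
        · rw [if_neg (by
            rintro (d | d)
            · exact h3 (c.symm.trans d)
            · exact h5 (d.symm.trans c)), c]; exact hyl) (by
        intro j
        fin_cases j
        · exact hy0 0
        · exact hy0 l) (fun w => w.elim0) (fun w => w.elim0)
    refine ⟨X', hX', ?_, ?_, ?_⟩
    · intro i
      rw [hp i]
      have hzi : (![y 0, y l] : Fin 2 → T3) (if i = 0 ∨ i = k then 0 else 1) = y i := by
        rcases hfour i with c | c | c | c
        · rw [if_pos (Or.inl c), c]; rfl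
        · rw [if_pos (Or.inr c), c]; exact hyk
        · rw [if_neg (by
            rintro (d | d)
            · exact h2 (c.symm.trans d)
            · exact h4 (d.symm.trans c)), c]; rfl
        · rw [if_neg (by
            rintro (d | d)
            · exact h3 (c.symm.trans d)
            · exact h5 (d.symm.trans c)), c]; exact hyl
      apply D1_set (hS1 _) (hy0 i)
      intro c hc
      have := hS2 _ c hc
      rw [hzi] at this
      exact this
    · rw [hp 0, hp k, if_pos (Or.inl rfl), if_pos (Or.inr rfl)]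
    · rw [hp l, hp l', if_neg, if_neg]
      · rintro (c | c)
        · exact h3 c
        · exact h5 c.symm
      · rintro (c | c)
        · exact h2 c
        · exact h4 c.symm
  · intro hyk
    have hg : ∀ j, ¬ (gTree x k l l' j).IsDiag := by
      intro j
      fin_cases j <;> simp [gTree]
    let J : Fin 4 → Fin 5 := fun i => if i = 0 then 0 else if i = k then 1 else if i = l then 3
      else 4
    have J0 : J 0 = 0 := if_pos rfl
    have Jk : J k = 1 := by
      show (if k = 0 then (0 : Fin 5) else if k = k then 1 else if k = l then 3 else 4) = 1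
      rw [if_neg h1, if_pos rfl]
    have Jl : J l = 3 := by
      show (if l = 0 then (0 : Fin 5) else if l = k then 1 else if l = l then 3 else 4) = 3
      rw [if_neg h2, if_neg (fun h => h4 h.symm), if_pos rfl]
    have Jl' : J l' = 4 := by
      show (if l' = 0 then (0 : Fin 5) else if l' = k then 1 else if l' = l then 3 else 4) = 4
      rw [if_neg h3, if_neg (fun h => h5 h.symm), if_neg (fun h => h6 h.symm)]
    let z : Fin 5 → T3 := ![y 0, y k, Pool.Agent.H126R2.CDC.T3.add (y 0) (y k), y l, y l']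
    have hzJ : ∀ i, z (J i) = y i := by
      intro i
      rcases hfour i with c | c | c | c
      · rw [c, J0]; rfl
      · rw [c, Jk]; rfl
      · rw [c, Jl]; rfl
      · rw [c, Jl']; rfl
    have hf0 : (univ.filter fun j : Fin 5 => (Sum.inr 0 : V ⊕ Fin 2) ∈ gTree x k l l' j) =
        {0, 1, 2} := by
      ext j
      fin_cases j <;> simp [gTree]
    have hf1 : (univ.filter fun j : Fin 5 => (Sum.inr 1 : V ⊕ Fin 2) ∈ gTree x k l l' j) =
        {2, 3, 4} := by
      ext j
      fin_cases j <;> simp [gTree]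
    obtain ⟨S, X', hX', hp, hS1, hS2, hS3⟩ := D1_GL G F x hx hdeg hleg X hPC y hy
      (gTree x k l l') hg J (by
        intro v j
        have hall : (∃ i, v = x i ∧ J i = j) ↔ (v = x 0 ∧ (0 : Fin 5) = j) ∨
            (v = x k ∧ (1 : Fin 5) = j) ∨ (v = x l ∧ (3 : Fin 5) = j) ∨
            (v = x l' ∧ (4 : Fin 5) = j) := by
          constructor
          · rintro ⟨i, hi, hj⟩
            rcases hfour i with c | c | c | c
            · rw [c] at hi hj; rw [J0] at hj; exact Or.inl ⟨hi, hj⟩
            · rw [c] at hi hj; rw [Jk] at hj; exact Or.inr (Or.inl ⟨hi, hj⟩)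
            · rw [c] at hi hj; rw [Jl] at hj; exact Or.inr (Or.inr (Or.inl ⟨hi, hj⟩))
            · rw [c] at hi hj; rw [Jl'] at hj; exact Or.inr (Or.inr (Or.inr ⟨hi, hj⟩))
          · rintro (⟨hi, hj⟩ | ⟨hi, hj⟩ | ⟨hi, hj⟩ | ⟨hi, hj⟩)
            · exact ⟨0, hi, J0.trans hj⟩
            · exact ⟨k, hi, Jk.trans hj⟩
            · exact ⟨l, hi, Jl.trans hj⟩
            · exact ⟨l', hi, Jl'.trans hj⟩
        rw [hall]
        fin_cases j <;> simp [gTree]) z hzJ (by
        intro j
        fin_cases j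
        · exact hy0 0
        · exact hy0 k
        · exact D1_add_ne _ _ hyk
        · exact hy0 l
        · exact hy0 l') (by
        intro w
        fin_cases w
        · show (univ.filter fun j : Fin 5 => (Sum.inr 0 : V ⊕ Fin 2) ∈ gTree x k l l' j).card ≤ 3
          rw [hf0]
          exact Finset.card_le_three
        · show (univ.filter fun j : Fin 5 => (Sum.inr 1 : V ⊕ Fin 2) ∈ gTree x k l l' j).card ≤ 3
          rw [hf1]
          exact Finset.card_le_three) (by
        intro w r
        fin_cases w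
        · show ∑ j ∈ univ.filter (fun j : Fin 5 => (Sum.inr 0 : V ⊕ Fin 2) ∈ gTree x k l l' j),
            D1_bit r (z j) = 0
          rw [hf0, Finset.sum_insert (by decide), Finset.sum_pair (by decide)]
          have e0 : z 0 = y 0 := rfl
          have e1 : z 1 = y k := rfl
          have e2 : z 2 = Pool.Agent.H126R2.CDC.T3.add (y 0) (y k) := rfl
          rw [e0, e1, e2, D1_bit_add]
          exact D1_f2c _ _
        · show ∑ j ∈ univ.filter (fun j : Fin 5 => (Sum.inr 1 : V ⊕ Fin 2) ∈ gTree x k l l' j),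
            D1_bit r (z j) = 0
          rw [hf1, Finset.sum_insert (by decide), Finset.sum_pair (by decide)]
          have e2 : z 2 = Pool.Agent.H126R2.CDC.T3.add (y 0) (y k) := rfl
          have e3 : z 3 = y l := rfl
          have e4 : z 4 = y l' := rfl
          rw [e2, e3, e4, D1_bit_add]
          exact D1_f2b _ _ _ _ (hysum r))
    refine ⟨X', hX', ?_, ?_⟩
    · intro i
      rw [hp i]
      apply D1_set (hS1 _) (hy0 i)
      intro c hc
      have := hS2 _ c hc
      rw [hzJ i] at this
      exact this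
    · rw [hp 0, hp k, J0, Jk]
      -- the symmetric difference is the pair of the middle edge
      have hmid : ∀ c, ((if c ∈ S 0 then (1 : F2) else 0) + ((if c ∈ S 1 then (1 : F2) else 0) +
          (if c ∈ S 2 then (1 : F2) else 0))) = 0 := by
        intro c
        have h := hS3 0 c
        rw [hf0, Finset.sum_insert (by decide), Finset.sum_pair (by decide)] at h
        exact h
      have hsd : symmDiff (S 0) (S 1) = S 2 := by
        ext c
        have h := hmid c
        rw [mem_symmDiff]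
        by_cases c0 : c ∈ S 0 <;> by_cases c1 : c ∈ S 1 <;> by_cases c2 : c ∈ S 2
        · rw [if_pos c0, if_pos c1, if_pos c2] at h
          exact absurd h (by decide)
        · tauto
        · tauto
        · rw [if_pos c0, if_neg c1, if_neg c2] at h
          exact absurd h (by decide)
        · tauto
        · rw [if_neg c0, if_pos c1, if_neg c2] at h
          exact absurd h (by decide)
        · rw [if_neg c0, if_neg c1, if_pos c2] at h
          exact absurd h (by decide)
        · tauto
      have hc2 : (S 2).card = 2 := hS1 2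
      rw [← hsd] at hc2
      have h7 : (S 0 \ S 1).card + (S 1 \ S 0).card = 2 := by
        rw [← hc2]
        unfold symmDiff
        rw [Finset.sup_eq_union, Finset.card_union_of_disjoint disjoint_sdiff_sdiff]
      have h8 := Finset.card_sdiff_add_card_inter (S 0) (S 1)
      have h9 := Finset.card_sdiff_add_card_inter (S 1) (S 0)
      rw [Finset.inter_comm (S 1) (S 0)] at h9
      have h10 := hS1 0
      have h11 := hS1 1
      omega

end Pool.Agent.H444.FA
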