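import Pool.Agent.H444.FA.Stm

set_option autoImplicit false
set_option linter.unusedSectionVars false

/-!
Local four-flows after the insertion of a claw or of an edge.
-/

open Finset

namespace Pool.Agent.H444.FA

open Pool.Agent.Helper347.Sab
open Pool.Agent.Helper998.Near (Rch)

namespace LocClawAux

variable {V E : Type} [Fintype V] [DecidableEq V] [Fintype E] [DecidableEq E]

/-- a gadget whose vertices are all joined by gadget edges -/
theorem gadget (G : MGraph V E) (A S : Finset E) (hSA : S ⊆ A) (d a b : ℕ) (x : Fin d → V)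
    (hdeg : ∀ i, dg G (A \ S) (x i) = 0) (g : Fin b → Sym2 (V ⊕ Fin a)) (hg : ∀ j, ¬ (g j).IsDiag)
    (hx : ∀ j u, (Sum.inl u : V ⊕ Fin a) ∈ g j → ∃ i, u = x i) (D : Finset E) (hD : D ⊆ S)
    (P Q : Finset (E ⊕ Fin b)) (hP : Ev (ext G g hg) P) (hQ : Ev (ext G g hg) Q)
    (hPD : ∀ e, Sum.inl e ∈ P → e ∈ D) (hQD : ∀ e, Sum.inl e ∈ Q → e ∈ D)
    (hcov : ∀ j, Sum.inr j ∈ P ∨ Sum.inr j ∈ Q) (v : V ⊕ Fin a)
    (hv : (∃ i, v = Sum.inl (x i)) ∨ ∃ w, v = Sum.inr w)
    (hreach : ∀ j, ∀ u ∈ g j, Rch (ext G g hg) (inG A \ inE S) v u) :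
    Loc (ext G g hg) (inG A) (inE S) v := by
  -- the component is closed
  have hnoold : ∀ e, e ∈ A → e ∉ S → ∀ u : V ⊕ Fin a, ((∃ i, u = Sum.inl (x i)) ∨ ∃ w, u = Sum.inr w) →
      u ∉ (ext G g hg).ends (Sum.inl e) := by
    intro e heA heS u hu hmem
    rcases hu with ⟨i, rfl⟩ | ⟨w, rfl⟩
    · have h1 := (ext_inl_inl G g hg e (x i)).1 hmem
      have h2 := dg_pos_of_mem (G := G) (mem_sdiff.2 ⟨heA, heS⟩) h1
      have h3 := hdeg i
      omega
    · exact ext_inr_inl G g hg e w hmem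
  have hclosed : ∀ u, Rch (ext G g hg) (inG A \ inE S) v u →
      ((∃ i, u = Sum.inl (x i)) ∨ ∃ w, u = Sum.inr w) := by
    intro u hu
    induction hu with
    | refl => exact hv
    | @tail p q _ h1 ih =>
      obtain ⟨f, hf, hends⟩ := h1
      rw [mem_sdiff] at hf
      rcases f with e | j
      · exfalso
        have h2 := (inl_mem_inG A e).1 hf.1
        have h3 : e ∉ S := fun h => hf.2 ((mem_inE S e).2 h)
        apply hnoold e h2 h3 p ih
        rw [hends]
        exact Sym2.mem_mk_left p q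
      · rw [ext_inr] at hends
        rcases q with q | w
        · left
          obtain ⟨i, hi⟩ := hx j q (by rw [hends]; exact Sym2.mem_mk_right p _)
          exact ⟨i, by rw [hi]⟩
        · exact Or.inr ⟨w, rfl⟩
  refine ⟨P, Q, hP, hQ, ?_, ?_, ?_, ?_⟩
  · rintro (e | j) he
    · exact (inl_mem_inG A e).2 (hSA (hD (hPD e he)))
    · exact inr_mem_inG A j
  · rintro (e | j) he
    · exact (inl_mem_inG A e).2 (hSA (hD (hQD e he)))
    · exact inr_mem_inG A j
  · rintro (e | j) hf hPQ u hu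
    · exfalso
      apply hf
      rw [mem_inE]
      rcases hPQ with h | h
      · exact hD (hPD e h)
      · exact hD (hQD e h)
    · exact hreach j u hu
  · rintro (e | j) hfA hfS hends
    · exfalso
      have h2 := (inl_mem_inG A e).1 hfA
      have h3 : e ∉ S := fun h => hfS ((mem_inE S e).2 h)
      obtain ⟨u, hu⟩ : ∃ u, u ∈ (ext G g hg).ends (Sum.inl e) := by
        induction (ext G g hg).ends (Sum.inl e) using Sym2.ind with
        | _ p q => exact ⟨p, Sym2.mem_mk_left p q⟩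
      exact hnoold e h2 h3 u (hclosed u (hends u hu)) hu
    · exact hcov j

end LocClawAux

open LocClawAux

theorem locClaw (h0 : SOldLoc) (h1 : SNewEven) : SLocClaw := by
  intro V E _ _ _ _ G A S hSA hLoc x hAtt hg v
  obtain ⟨hinj, hdeg, D, hDc, hDS, hD2⟩ := hAtt
  have hx : ∀ (j : Fin 3) (u : V), (Sum.inl u : V ⊕ Fin 1) ∈ gClaw x j → ∃ i, u = x i := by
    intro j u hu
    fin_cases j
    · simp [gClaw] at hu; exact ⟨0, hu⟩
    · simp [gClaw] at hu; exact ⟨1, hu⟩
    · simp [gClaw] at hu; exact ⟨2, hu⟩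
  by_cases hv : (∃ i, v = Sum.inl (x i)) ∨ ∃ w, v = Sum.inr w
  · -- the gadget component
    have hD2' : ∀ (j : Fin 3) (u : V), (Sum.inl u : V ⊕ Fin 1) ∈ gClaw x j → dg G D u = 2 := by
      intro j u hu
      obtain ⟨i, rfl⟩ := hx j u hu
      exact hD2 i
    have hin : ∀ (w : Fin 1) (j : Fin 3), (Sum.inr w : V ⊕ Fin 1) ∈ gClaw x j := by
      intro w j
      have hw : w = 0 := Subsingleton.elim _ _
      subst hw
      fin_cases j <;> simp [gClaw]
    obtain ⟨P, hP, hPD, hPM⟩ := h1 V E G D hDc 1 3 (gClaw x) hg hD2' {0, 1} (by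
      intro w
      rw [filter_true_of_mem (fun j _ => hin w j)]
      decide)
    obtain ⟨Q, hQ, hQD, hQM⟩ := h1 V E G D hDc 1 3 (gClaw x) hg hD2' {1, 2} (by
      intro w
      rw [filter_true_of_mem (fun j _ => hin w j)]
      decide)
    have hmem : ∀ j : Fin 3, (Sum.inr j : E ⊕ Fin 3) ∈ (inG A \ inE S : Finset (E ⊕ Fin 3)) := fun j =>
      mem_sdiff.2 ⟨inr_mem_inG A j, inr_notMem_inE S j⟩
    have hends : ∀ j : Fin 3, (ext G (gClaw x) hg).ends (Sum.inr j) = s(Sum.inl (x j), Sum.inr 0) := by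
      intro j
      rw [ext_inr]
      fin_cases j <;> rfl
    have hto : Rch (ext G (gClaw x) hg) (inG A \ inE S) v (Sum.inr 0) := by
      rcases hv with ⟨i, rfl⟩ | ⟨w, rfl⟩
      · exact Relation.ReflTransGen.single ⟨Sum.inr i, hmem i, hends i⟩
      · have hw : w = 0 := Subsingleton.elim _ _
        rw [hw]
    have hall : ∀ i : Fin 3, Rch (ext G (gClaw x) hg) (inG A \ inE S) v (Sum.inl (x i)) := fun i =>
      hto.tail ⟨Sum.inr i, hmem i, by rw [hends i, Sym2.eq_swap]⟩
    refine gadget G A S hSA 3 1 3 x hdeg (gClaw x) hg hx D hDS P Q hP hQ hPD hQD ?_ v hv ?_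
    · intro j
      rw [hPM, hQM]
      revert j
      decide
    · intro j u hu
      have h2 : gClaw x j = s(Sum.inl (x j), Sum.inr 0) := by
        rw [← hends j]; rfl
      rw [h2, Sym2.mem_iff] at hu
      rcases hu with rfl | rfl
      · exact hall j
      · exact hto
  · push Not at hv
    rcases v with u | w
    · exact h0 V E G A S hSA 3 1 3 x hdeg (gClaw x) hg hx u (fun i h => hv.1 i (by rw [h])) (hLoc u)
    · exact absurd rfl (hv.2 w)

theorem locEdge (h0 : SOldLoc) (h1 : SNewEven) : SLocEdge := by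
  intro V E _ _ _ _ G A S hSA hLoc x hAtt hg v
  obtain ⟨hinj, hdeg, D, hDc, hDS, hD2⟩ := hAtt
  have hx : ∀ (j : Fin 1) (u : V), (Sum.inl u : V ⊕ Fin 0) ∈ gEdge x j → ∃ i, u = x i := by
    intro j u hu
    have hj : j = 0 := Subsingleton.elim _ _
    subst hj
    simp [gEdge] at hu
    rcases hu with h | h
    · exact ⟨0, h⟩
    · exact ⟨1, h⟩
  by_cases hv : (∃ i, v = Sum.inl (x i)) ∨ ∃ w, v = Sum.inr w
  · have hD2' : ∀ (j : Fin 1) (u : V), (Sum.inl u : V ⊕ Fin 0) ∈ gEdge x j → dg G D u = 2 := by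
      intro j u hu
      obtain ⟨i, rfl⟩ := hx j u hu
      exact hD2 i
    obtain ⟨P, hP, hPD, hPM⟩ := h1 V E G D hDc 0 1 (gEdge x) hg hD2' {0} (fun w => w.elim0)
    have hmem : (Sum.inr 0 : E ⊕ Fin 1) ∈ (inG A \ inE S : Finset (E ⊕ Fin 1)) :=
      mem_sdiff.2 ⟨inr_mem_inG A 0, inr_notMem_inE S 0⟩
    have hends : (ext G (gEdge x) hg).ends (Sum.inr 0) = s(Sum.inl (x 0), Sum.inl (x 1)) := by
      rw [ext_inr]
      rfl
    have h01 : Rch (ext G (gEdge x) hg) (inG A \ inE S) (Sum.inl (x 0)) (Sum.inl (x 1)) :=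
      Relation.ReflTransGen.single ⟨Sum.inr 0, hmem, hends⟩
    have h10 : Rch (ext G (gEdge x) hg) (inG A \ inE S) (Sum.inl (x 1)) (Sum.inl (x 0)) :=
      Relation.ReflTransGen.single ⟨Sum.inr 0, hmem, by rw [hends, Sym2.eq_swap]⟩
    have hboth : Rch (ext G (gEdge x) hg) (inG A \ inE S) v (Sum.inl (x 0)) ∧
        Rch (ext G (gEdge x) hg) (inG A \ inE S) v (Sum.inl (x 1)) := by
      rcases hv with ⟨i, rfl⟩ | ⟨w, rfl⟩
      · fin_cases i
        · exact ⟨Relation.ReflTransGen.refl, h01⟩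
        · exact ⟨h10, Relation.ReflTransGen.refl⟩
      · exact w.elim0
    refine gadget G A S hSA 2 0 1 x hdeg (gEdge x) hg hx D hDS P P hP hP hPD hPD ?_ v hv ?_
    · intro j
      rw [hPM]
      revert j
      decide
    · intro j u hu
      have hj : j = 0 := Subsingleton.elim _ _
      subst hj
      have h2 : gEdge x 0 = s(Sum.inl (x 0), Sum.inl (x 1)) := rfl
      rw [h2, Sym2.mem_iff] at hu
      rcases hu with rfl | rfl
      · exact hboth.1
      · exact hboth.2
  · push Not at hv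
    rcases v with u | w
    · exact h0 V E G A S hSA 2 0 1 x hdeg (gEdge x) hg hx u (fun i h => hv.1 i (by rw [h])) (hLoc u)
    · exact w.elim0

end Pool.Agent.H444.FA
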