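import Pool.Agent.H444.FA.Stm

set_option autoImplicit false
set_option linter.unusedSectionVars false

/-!
J4: components after the insertion of two parallel edges.
-/

open Finset

namespace Pool.Agent.H444.FA

open Pool.Agent.Helper347.Sab
open Pool.Agent.Helper998.Near (Rch)

namespace J4

section

variable {V E : Type} [Fintype V] [DecidableEq V] [Fintype E] [DecidableEq E]

theorem notMem_of_dg {G : MGraph V E} {F : Finset E} {v : V} (h : dg G F v = 0) {e : E}
    (he : e ∈ F) : v ∉ G.ends e := by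
  intro hv
  unfold dg at h
  rw [card_eq_zero] at h
  have : e ∈ F.filter fun e => v ∈ G.ends e := mem_filter.2 ⟨he, hv⟩
  rw [h] at this
  exact absurd this (notMem_empty e)

theorem mem_sd {b : ℕ} {A S : Finset E} (e : E ⊕ Fin b) :
    e ∈ (inG A : Finset (E ⊕ Fin b)) \ inE S ↔ (∃ e0, e = Sum.inl e0 ∧ e0 ∈ A \ S) ∨
      ∃ j, e = Sum.inr j := by
  rcases e with e | j
  · rw [mem_sdiff, inl_mem_inG, mem_inE, ← mem_sdiff]
    constructor
    · exact fun h => Or.inl ⟨e, rfl, h⟩
    · rintro (⟨e0, h1, h2⟩ | ⟨j, h1⟩)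
      · rw [Sum.inl_injective h1]; exact h2
      · exact absurd h1 (by simp)
  · rw [mem_sdiff]
    constructor
    · exact fun _ => Or.inr ⟨j, rfl⟩
    · exact fun _ => ⟨inr_mem_inG A j, inr_notMem_inE S j⟩

/-- one pair -/
theorem pairLoc (h1 : SNewEven) {G : MGraph V E} {A S : Finset E} (hSA : S ⊆ A)
    {x : Fin 4 → V} (hdg : ∀ i, dg G (A \ S) (x i) = 0)
    {D : Finset E} (hD : IsCircuit G D) (hDS : D ⊆ S) (hDx : ∀ i, dg G D (x i) = 2)
    {b : ℕ} (g : Fin b → Sym2 (V ⊕ Fin 0)) (hg : ∀ j, ¬ (g j).IsDiag)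
    (hgx : ∀ j u, (Sum.inl u : V ⊕ Fin 0) ∈ g j → ∃ i, u = x i) (j : Fin b) (p q : Fin 4)
    (hj : g j = s(Sum.inl (x p), Sum.inl (x q)))
    (hother : ∀ j', j' ≠ j → (Sum.inl (x p) : V ⊕ Fin 0) ∉ g j' ∧
      (Sum.inl (x q) : V ⊕ Fin 0) ∉ g j')
    (v : V ⊕ Fin 0) (hv : v = Sum.inl (x p) ∨ v = Sum.inl (x q)) :
    Loc (ext G g hg) (inG A) (inE S) v := by
  obtain ⟨P, hP1, hP2, hP3⟩ := h1 V E G D hD 0 b g hg
    (fun j' u hu => by obtain ⟨i, rfl⟩ := hgx j' u hu; exact hDx i) {j} (fun w => w.elim0)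
  -- reachable vertices
  have hreach : ∀ u, Rch (ext G g hg) (inG A \ inE S) v u →
      u = Sum.inl (x p) ∨ u = Sum.inl (x q) := by
    intro u hu
    induction hu with
    | refl => exact hv
    | @tail y z _ h3 ih =>
      obtain ⟨e, he, h4⟩ := h3
      rcases (mem_sd e).1 he with ⟨e0, rfl, he0⟩ | ⟨j', rfl⟩
      · exfalso
        have hy : y ∈ (ext G g hg).ends (Sum.inl e0) := by rw [h4]; exact Sym2.mem_mk_left _ _
        rcases ih with rfl | rfl
        · rw [ext_inl_inl] at hy
          exact notMem_of_dg (hdg p) he0 hy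
        · rw [ext_inl_inl] at hy
          exact notMem_of_dg (hdg q) he0 hy
      · rw [ext_inr] at h4
        by_cases hjj : j' = j
        · have hz : z ∈ g j := by rw [← hjj, h4]; exact Sym2.mem_mk_right _ _
          rw [hj, Sym2.mem_iff] at hz
          exact hz
        · exfalso
          have hy : y ∈ g j' := by rw [h4]; exact Sym2.mem_mk_left _ _
          rcases ih with rfl | rfl
          · exact (hother j' hjj).1 hy
          · exact (hother j' hjj).2 hy
  have hedge : (Sum.inr j : E ⊕ Fin b) ∈ (inG A : Finset (E ⊕ Fin b)) \ inE S :=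
    (mem_sd _).2 (Or.inr ⟨j, rfl⟩)
  have hback : ∀ u, (u = Sum.inl (x p) ∨ u = Sum.inl (x q)) →
      Rch (ext G g hg) (inG A \ inE S) v u := by
    intro u hu
    have h5 : Rch (ext G g hg) (inG A \ inE S) (Sum.inl (x p)) (Sum.inl (x q)) :=
      Relation.ReflTransGen.single ⟨_, hedge, hj⟩
    have h6 : Rch (ext G g hg) (inG A \ inE S) (Sum.inl (x q)) (Sum.inl (x p)) :=
      Relation.ReflTransGen.single ⟨_, hedge, by rw [ext_inr, hj, Sym2.eq_swap]⟩
    rcases hv with rfl | rfl <;> rcases hu with rfl | rfl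
    · exact Relation.ReflTransGen.refl
    · exact h5
    · exact h6
    · exact Relation.ReflTransGen.refl
  refine ⟨P, ∅, hP1, ?_, ?_, empty_subset _, ?_, ?_⟩
  · intro w
    unfold dg
    simp
  · intro e he
    rcases e with e | j'
    · rw [inl_mem_inG]; exact hSA (hDS (hP2 e he))
    · exact inr_mem_inG A j'
  · intro f hf hfP u hu
    have hfP : f ∈ P := by
      rcases hfP with h | h
      · exact h
      · exact absurd h (notMem_empty f)
    rcases f with e | j'
    · exact absurd ((mem_inE S e).2 (hDS (hP2 e hfP))) hf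
    · have h7 : j' = j := mem_singleton.1 ((hP3 j').1 hfP)
      rw [ext_inr, h7, hj, Sym2.mem_iff] at hu
      exact hback u hu
  · intro f hfA hfS hf
    left
    rcases f with e | j'
    · exfalso
      have he : e ∈ A \ S := by
        rw [mem_sdiff]
        exact ⟨(inl_mem_inG A e).1 hfA, fun h => hfS ((mem_inE S e).2 h)⟩
      obtain ⟨u, hu⟩ : ∃ u, u ∈ G.ends e := ⟨_, Sym2.out_fst_mem (G.ends e)⟩
      rcases hreach _ (hf (Sum.inl u) ((ext_inl_inl G g hg e u).2 hu)) with h | h
      · rw [Sum.inl_injective h] at hu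
        exact notMem_of_dg (hdg p) he hu
      · rw [Sum.inl_injective h] at hu
        exact notMem_of_dg (hdg q) he hu
    · by_cases hjj : j' = j
      · rw [hP3, hjj]; exact mem_singleton_self j
      · exfalso
        obtain ⟨u, hu⟩ : ∃ u, u ∈ g j' := ⟨_, Sym2.out_fst_mem (g j')⟩
        rcases hreach _ (hf u (by rw [ext_inr]; exact hu)) with rfl | rfl
        · exact (hother j' hjj).1 hu
        · exact (hother j' hjj).2 hu

end

end J4

open J4

theorem locPar (h0 : SOldLoc) (h1 : SNewEven) : SLocPar := by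
  intro V E _ _ _ _ G A S hSA hloc x hatt k l l' hk hl hl' hkl hkl' hll' hg v
  obtain ⟨hinj, hdg, D, hD, hDS, hDx⟩ := hatt
  have hgx : ∀ (j : Fin 2) (u : V), (Sum.inl u : V ⊕ Fin 0) ∈ gPar x k l l' j → ∃ i, u = x i := by
    intro j u hu
    fin_cases j
    · have hu' : (Sum.inl u : V ⊕ Fin 0) ∈ s(Sum.inl (x 0), Sum.inl (x k)) := hu
      rw [Sym2.mem_iff] at hu'
      rcases hu' with h | h
      · exact ⟨0, Sum.inl_injective h⟩
      · exact ⟨k, Sum.inl_injective h⟩
    · have hu' : (Sum.inl u : V ⊕ Fin 0) ∈ s(Sum.inl (x l), Sum.inl (x l')) := hu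
      rw [Sym2.mem_iff] at hu'
      rcases hu' with h | h
      · exact ⟨l, Sum.inl_injective h⟩
      · exact ⟨l', Sum.inl_injective h⟩
  rcases v with u | w
  swap
  · exact w.elim0
  by_cases hu : ∀ i, u ≠ x i
  · exact h0 V E G A S hSA 4 0 2 x hdg (gPar x k l l') hg hgx u hu (hloc u)
  push Not at hu
  obtain ⟨i, rfl⟩ := hu
  have hi : i = 0 ∨ i = k ∨ i = l ∨ i = l' := by
    rw [Ne, Fin.ext_iff] at hk hl hl' hkl hkl' hll'
    rw [Fin.ext_iff, Fin.ext_iff, Fin.ext_iff, Fin.ext_iff]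
    simp only [Fin.val_zero] at hk hl hl' ⊢
    omega
  have key0 : ∀ v' : V ⊕ Fin 0, (v' = Sum.inl (x 0) ∨ v' = Sum.inl (x k)) →
      Loc (ext G (gPar x k l l') hg) (inG A) (inE S) v' := by
    intro v' hv'
    refine pairLoc h1 hSA hdg hD hDS hDx (gPar x k l l') hg hgx 0 0 k rfl ?_ v' hv'
    intro j' hj'
    have : j' = 1 := by
      revert hj'; clear * -; revert j'; decide
    subst this
    have e : gPar x k l l' 1 = s(Sum.inl (x l), Sum.inl (x l')) := rfl
    rw [e, Sym2.mem_iff, Sym2.mem_iff]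
    constructor
    · rintro (h | h)
      · exact hl (hinj (Sum.inl_injective h)).symm
      · exact hl' (hinj (Sum.inl_injective h)).symm
    · rintro (h | h)
      · exact hkl (hinj (Sum.inl_injective h))
      · exact hkl' (hinj (Sum.inl_injective h))
  have key1 : ∀ v' : V ⊕ Fin 0, (v' = Sum.inl (x l) ∨ v' = Sum.inl (x l')) →
      Loc (ext G (gPar x k l l') hg) (inG A) (inE S) v' := by
    intro v' hv'
    refine pairLoc h1 hSA hdg hD hDS hDx (gPar x k l l') hg hgx 1 l l' rfl ?_ v' hv'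
    intro j' hj'
    have : j' = 0 := by
      revert hj'; clear * -; revert j'; decide
    subst this
    have e : gPar x k l l' 0 = s(Sum.inl (x 0), Sum.inl (x k)) := rfl
    rw [e, Sym2.mem_iff, Sym2.mem_iff]
    constructor
    · rintro (h | h)
      · exact hl (hinj (Sum.inl_injective h))
      · exact hkl (hinj (Sum.inl_injective h)).symm
    · rintro (h | h)
      · exact hl' (hinj (Sum.inl_injective h))
      · exact hkl' (hinj (Sum.inl_injective h)).symm
  rcases hi with rfl | rfl | rfl | rfl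
  · exact key0 _ (Or.inl rfl)
  · exact key0 _ (Or.inr rfl)
  · exact key1 _ (Or.inl rfl)
  · exact key1 _ (Or.inr rfl)

end Pool.Agent.H444.FA
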