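import Pool.Agent.H444.FA.Stm

set_option autoImplicit false
set_option linter.unusedSectionVars false

/-!
J3: insertion of the tree gadget keeps the local condition.
-/

open Finset

namespace Pool.Agent.H444.FA

open Pool.Agent.Helper347.Sab
open Pool.Agent.Helper998.Near (Rch)

namespace J3

variable {V E : Type} [Fintype V] [DecidableEq V] [Fintype E] [DecidableEq E]

theorem four_cases {k l l' : Fin 4} (hk : k ≠ 0) (hl : l ≠ 0) (hl' : l' ≠ 0) (hkl : k ≠ l)
    (hkl' : k ≠ l') (hll' : l ≠ l') (i : Fin 4) : i = 0 ∨ i = k ∨ i = l ∨ i = l' := by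
  have h0 : ((0 : Fin 4) : ℕ) = 0 := rfl
  have a := k.isLt
  have b := l.isLt
  have c := l'.isLt
  have d := i.isLt
  rw [Ne, Fin.ext_iff] at hk hl hl' hkl hkl' hll'
  rw [Fin.ext_iff, Fin.ext_iff, Fin.ext_iff, Fin.ext_iff]
  rw [h0] at hk hl hl' ⊢
  omega

end J3

theorem locTree (h0 : SOldLoc) (h1 : SNewEven) : SLocTree := by
  intro V E _ _ _ _ G A S hSA hLoc x hAtt k l l' hk hl hl' hkl hkl' hll' hg v
  obtain ⟨hxi, hx0, D, hD, hDS, hDx⟩ := hAtt
  set g := gTree x k l l' with hgdef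
  have g0 : g 0 = s(Sum.inl (x 0), Sum.inr 0) := rfl
  have g1 : g 1 = s(Sum.inl (x k), Sum.inr 0) := rfl
  have g2 : g 2 = s(Sum.inr 0, Sum.inr 1) := rfl
  have g3 : g 3 = s(Sum.inl (x l), Sum.inr 1) := rfl
  have g4 : g 4 = s(Sum.inl (x l'), Sum.inr 1) := rfl
  have hgx : ∀ j u, (Sum.inl u : V ⊕ Fin 2) ∈ g j → ∃ i, u = x i := by
    intro j u hu
    fin_cases j
    · change _ ∈ g 0 at hu; rw [g0] at hu; simp at hu; exact ⟨_, hu⟩
    · change _ ∈ g 1 at hu; rw [g1] at hu; simp at hu; exact ⟨_, hu⟩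
    · change _ ∈ g 2 at hu; rw [g2] at hu; simp at hu
    · change _ ∈ g 3 at hu; rw [g3] at hu; simp at hu; exact ⟨_, hu⟩
    · change _ ∈ g 4 at hu; rw [g4] at hu; simp at hu; exact ⟨_, hu⟩
  -- the easy case
  by_cases hv : ∃ u, v = Sum.inl u ∧ ∀ i, u ≠ x i
  · obtain ⟨u, rfl, hu⟩ := hv
    exact h0 V E G A S hSA 4 2 5 x hx0 g hg hgx u hu (hLoc u)
  -- the set `W`
  set W : V ⊕ Fin 2 → Prop := fun v => (∃ i, v = Sum.inl (x i)) ∨ ∃ w, v = Sum.inr w with hW
  have hvW : W v := by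
    rcases v with u | w
    · left
      by_contra hc
      apply hv
      exact ⟨u, rfl, fun i hi => hc ⟨i, by rw [hi]⟩⟩
    · right; exact ⟨w, rfl⟩
  set G' := ext G g hg with hG'
  have hnew : ∀ j : Fin 5, (Sum.inr j : E ⊕ Fin 5) ∈ (inG A \ inE S : Finset (E ⊕ Fin 5)) := by
    intro j
    rw [mem_sdiff]
    exact ⟨inr_mem_inG A j, inr_notMem_inE S j⟩
  have hends : ∀ j, G'.ends (Sum.inr j) = g j := fun j => rfl
  -- all vertices of `W` are joined
  have hR0 : ∀ u, W u → Rch G' (inG A \ inE S) u (Sum.inr 0) := by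
    intro u hu
    have e0 : Rch G' (inG A \ inE S) (Sum.inl (x 0)) (Sum.inr 0) :=
      Relation.ReflTransGen.single ⟨_, hnew 0, by rw [hends, g0]⟩
    have e1 : Rch G' (inG A \ inE S) (Sum.inl (x k)) (Sum.inr 0) :=
      Relation.ReflTransGen.single ⟨_, hnew 1, by rw [hends, g1]⟩
    have e2 : Rch G' (inG A \ inE S) (Sum.inr 1) (Sum.inr 0) :=
      Relation.ReflTransGen.single ⟨_, hnew 2, by rw [hends, g2, Sym2.eq_swap]⟩
    have e3 : Rch G' (inG A \ inE S) (Sum.inl (x l)) (Sum.inr 0) :=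
      Relation.ReflTransGen.head ⟨_, hnew 3, by rw [hends, g3]⟩ e2
    have e4 : Rch G' (inG A \ inE S) (Sum.inl (x l')) (Sum.inr 0) :=
      Relation.ReflTransGen.head ⟨_, hnew 4, by rw [hends, g4]⟩ e2
    rcases hu with ⟨i, rfl⟩ | ⟨w, rfl⟩
    · rcases J3.four_cases hk hl hl' hkl hkl' hll' i with rfl | rfl | rfl | rfl
      · exact e0
      · exact e1
      · exact e3
      · exact e4
    · fin_cases w
      · exact Relation.ReflTransGen.refl
      · exact e2
  have hRv : ∀ u, W u → Rch G' (inG A \ inE S) v u := fun u hu =>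
    (hR0 v hvW).trans (Pool.Agent.Helper998.Near.rch_symm G' _ _ _ (hR0 u hu))
  -- old edges outside `S` do not touch `W`
  have hold : ∀ e ∈ A, e ∉ S → ∀ u, W u → u ∉ G'.ends (Sum.inl e) := by
    intro e heA heS u hu hmem
    rcases hu with ⟨i, rfl⟩ | ⟨w, rfl⟩
    · rw [hG', ext_inl_inl] at hmem
      have h := hx0 i
      unfold dg at h
      rw [card_eq_zero, filter_eq_empty_iff] at h
      exact h (mem_sdiff.mpr ⟨heA, heS⟩) hmem
    · exact ext_inr_inl G g hg e w hmem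
  have hgW : ∀ j u, u ∈ g j → W u := by
    intro j u hu
    rcases u with u | w
    · obtain ⟨i, rfl⟩ := hgx j u hu
      exact Or.inl ⟨i, rfl⟩
    · exact Or.inr ⟨w, rfl⟩
  -- `W` is closed
  have hclosed : ∀ u, Rch G' (inG A \ inE S) v u → W u := by
    intro u hu
    induction hu with
    | refl => exact hvW
    | tail _ hstep ih =>
      obtain ⟨f, hf, hfe⟩ := hstep
      rcases f with e | j
      · rw [mem_sdiff, inl_mem_inG, mem_inE] at hf
        exfalso
        apply hold e hf.1 hf.2 _ ih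
        rw [hfe]
        exact Sym2.mem_mk_left _ _
      · apply hgW j
        rw [hends] at hfe
        rw [hfe]
        exact Sym2.mem_mk_right _ _
  have hdeg : ∀ j u, (Sum.inl u : V ⊕ Fin 2) ∈ g j → dg G D u = 2 := by
    intro j u hu
    obtain ⟨i, rfl⟩ := hgx j u hu
    exact hDx i
  have hm : ∀ (j : Fin 5) (w : Fin 2), (Sum.inr w : V ⊕ Fin 2) ∈ g j ↔
      (j = 0 ∧ w = 0) ∨ (j = 1 ∧ w = 0) ∨ j = 2 ∨ (j = 3 ∧ w = 1) ∨ (j = 4 ∧ w = 1) := by
    intro j w
    fin_cases j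
    · change _ ∈ g 0 ↔ _; rw [g0]; simp
    · change _ ∈ g 1 ↔ _; rw [g1]; simp
    · change _ ∈ g 2 ↔ _; rw [g2]; simp; fin_cases w <;> simp
    · change _ ∈ g 3 ↔ _; rw [g3]; simp
    · change _ ∈ g 4 ↔ _; rw [g4]; simp
  obtain ⟨P, hP1, hP2, hP3⟩ := h1 V E G D hD 2 5 g hg hdeg {0, 2, 3} (by
    intro w
    simp only [hm]
    fin_cases w <;> decide)
  obtain ⟨Q, hQ1, hQ2, hQ3⟩ := h1 V E G D hD 2 5 g hg hdeg {1, 2, 4} (by
    intro w
    simp only [hm]
    fin_cases w <;> decide)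
  refine ⟨P, Q, hP1, hQ1, ?_, ?_, ?_, ?_⟩
  · intro f hf
    rcases f with e | j
    · rw [inl_mem_inG]
      exact hSA (hDS (hP2 e hf))
    · exact inr_mem_inG A j
  · intro f hf
    rcases f with e | j
    · rw [inl_mem_inG]
      exact hSA (hDS (hQ2 e hf))
    · exact inr_mem_inG A j
  · intro f hfS hf u hu
    rcases f with e | j
    · exfalso
      apply hfS
      rw [mem_inE]
      rcases hf with hf | hf
      · exact hDS (hP2 e hf)
      · exact hDS (hQ2 e hf)
    · exact hRv u (hgW j u hu)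
  · intro f hfA hfS hreach
    rcases f with e | j
    · exfalso
      rw [inl_mem_inG] at hfA
      rw [mem_inE] at hfS
      obtain ⟨a, b, hab⟩ : ∃ a b, G'.ends (Sum.inl e) = s(a, b) :=
        Sym2.ind (f := fun z => ∃ a b, z = s(a, b)) (fun a b => ⟨a, b, rfl⟩) _
      have ha : a ∈ G'.ends (Sum.inl e) := by rw [hab]; exact Sym2.mem_mk_left _ _
      exact hold e hfA hfS a (hclosed a (hreach a ha)) ha
    · rw [hP3, hQ3]
      fin_cases j <;> simp

end Pool.Agent.H444.FA
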