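import Pool.Agent.H444.FA.Stm

set_option autoImplicit false
set_option linter.unusedSectionVars false

/-!
N: extraction of the pieces (helper819).
-/

open Finset

namespace Pool.Agent.H444.FA

open Pool.Agent.Helper347.Sab
open Pool.Agent.Helper998.Near (Rch)

namespace N819

variable {V E : Type} [Fintype V] [DecidableEq V] [Fintype E] [DecidableEq E]

theorem rch_symm (G : MGraph V E) (F : Finset E) {a b : V} (h : Rch G F a b) : Rch G F b a := by
  induction h with
  | refl => exact Relation.ReflTransGen.refl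
  | tail _ h1 ih =>
    obtain ⟨e, he, h2⟩ := h1
    exact Relation.ReflTransGen.head ⟨e, he, by rw [h2, Sym2.eq_swap]⟩ ih

theorem rch_mono (G : MGraph V E) {F F' : Finset E} (hF : F ⊆ F') {a b : V}
    (h : Rch G F a b) : Rch G F' a b := by
  induction h with
  | refl => exact Relation.ReflTransGen.refl
  | tail _ h1 ih =>
    obtain ⟨e, he, h2⟩ := h1
    exact ih.tail ⟨e, hF he, h2⟩

theorem mem_comp (G : MGraph V E) (A S : Finset E) (v : V) (e : E) :
    e ∈ comp G A S v ↔ e ∈ A \ S ∧ ∀ u ∈ G.ends e, Rch G (A \ S) v u := by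
  classical
  unfold comp
  rw [mem_filter]

theorem both_ends (G : MGraph V E) (B : Finset E) (v : V) (e : E) (he : e ∈ B) (u : V)
    (hu : u ∈ G.ends e) (h : Rch G B v u) : ∀ w ∈ G.ends e, Rch G B v w := by
  intro w hw
  by_cases hwu : w = u
  · rw [hwu]
    exact h
  · have h1 : G.ends e = s(u, w) := (Sym2.mem_and_mem_iff (Ne.symm hwu)).1 ⟨hu, hw⟩
    exact h.tail ⟨e, he, h1⟩

theorem mem_comp' (G : MGraph V E) (A S : Finset E) (v : V) (e : E) (he : e ∈ A \ S) (u : V)
    (hu : u ∈ G.ends e) (h : Rch G (A \ S) v u) : e ∈ comp G A S v :=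
  (mem_comp G A S v e).2 ⟨he, both_ends G _ v e he u hu h⟩

theorem exists_end (G : MGraph V E) (e : E) : ∃ u, u ∈ G.ends e := by
  induction G.ends e using Sym2.ind with
  | _ a b => exact ⟨a, Sym2.mem_mk_left a b⟩

theorem comp_sub (G : MGraph V E) (A S : Finset E) (v : V) : comp G A S v ⊆ A \ S := by
  intro e he
  exact ((mem_comp G A S v e).1 he).1

theorem dg_mono (G : MGraph V E) {B C : Finset E} (h : B ⊆ C) (v : V) : dg G B v ≤ dg G C v :=
  card_le_card (filter_subset_filter _ h)

theorem dg_add (G : MGraph V E) {B C D : Finset E} (hBC : Disjoint B C) (h : B ∪ C ⊆ D) (v : V) :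
    dg G B v + dg G C v ≤ dg G D v := by
  unfold dg
  rw [← card_union_of_disjoint (disjoint_filter_filter hBC), ← filter_union]
  exact card_le_card (filter_subset_filter _ h)

/-- vertices out of the component of `v0` see the same graph after the removal of the component -/
theorem rch_iff (G : MGraph V E) (A S : Finset E) (v0 v : V) (hv : ¬ Rch G (A \ S) v0 v) (u : V) :
    Rch G ((A \ comp G A S v0) \ S) v u ↔ Rch G (A \ S) v u := by
  constructor
  · intro h
    exact rch_mono G (sdiff_subset_sdiff sdiff_subset (Subset.refl _)) h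
  · intro h
    induction h with
    | refl => exact Relation.ReflTransGen.refl
    | tail hab h1 ih =>
      rename_i b c
      obtain ⟨e, he, h2⟩ := h1
      refine ih.tail ⟨e, ?_, h2⟩
      rw [mem_sdiff] at he ⊢
      refine ⟨mem_sdiff.2 ⟨he.1, fun h3 => ?_⟩, he.2⟩
      have h4 := ((mem_comp G A S v0 e).1 h3).2 b (by rw [h2]; exact Sym2.mem_mk_left _ _)
      exact hv (h4.trans (rch_symm G _ hab))

theorem not_comp (G : MGraph V E) (A S : Finset E) (v0 v : V) (hv : ¬ Rch G (A \ S) v0 v) (f : E)
    (h : ∀ u ∈ G.ends f, Rch G (A \ S) v u) : f ∉ comp G A S v0 := by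
  intro hf
  obtain ⟨u, hu⟩ := exists_end G f
  exact hv ((((mem_comp G A S v0 f).1 hf).2 u hu).trans (rch_symm G _ (h u hu)))

theorem loc_out (G : MGraph V E) (A S : Finset E) (v0 v : V) (hv : ¬ Rch G (A \ S) v0 v)
    (h : Loc G A S v) : Loc G (A \ comp G A S v0) S v := by
  obtain ⟨P, Q, h1, h2, h3, h4, h5, h6⟩ := h
  have key : ∀ f, (f ∈ P ∨ f ∈ Q) → f ∉ comp G A S v0 := by
    intro f hf hc
    have hS : f ∉ S := (mem_sdiff.1 (comp_sub G A S v0 hc)).2
    exact not_comp G A S v0 v hv f (h5 f hS hf) hc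
  refine ⟨P, Q, h1, h2, fun f hf => mem_sdiff.2 ⟨h3 hf, key f (Or.inl hf)⟩,
    fun f hf => mem_sdiff.2 ⟨h4 hf, key f (Or.inr hf)⟩, ?_, ?_⟩
  · intro f hf hPQ u hu
    rw [rch_iff G A S v0 v hv]
    exact h5 f hf hPQ u hu
  · intro f hf hS hu
    refine h6 f (mem_sdiff.1 hf).1 hS fun u huf => ?_
    rw [← rch_iff G A S v0 v hv]
    exact hu u huf

theorem comp_out (G : MGraph V E) (A S : Finset E) (v0 v : V) (hv : ¬ Rch G (A \ S) v0 v) :
    comp G (A \ comp G A S v0) S v = comp G A S v := by
  ext e
  rw [mem_comp, mem_comp]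
  constructor
  · rintro ⟨h1, h2⟩
    refine ⟨?_, fun u hu => (rch_iff G A S v0 v hv u).1 (h2 u hu)⟩
    rw [mem_sdiff] at h1 ⊢
    exact ⟨(mem_sdiff.1 h1.1).1, h1.2⟩
  · rintro ⟨h1, h2⟩
    refine ⟨?_, fun u hu => (rch_iff G A S v0 v hv u).2 (h2 u hu)⟩
    rw [mem_sdiff] at h1 ⊢
    exact ⟨mem_sdiff.2 ⟨h1.1, not_comp G A S v0 v hv e h2⟩, h1.2⟩

theorem exc_out (G : MGraph V E) (A S : Finset E) (v0 v : V) (hv : ¬ Rch G (A \ S) v0 v)
    (h : Exc G A S v) : Exc G (A \ comp G A S v0) S v := by
  unfold Exc
  rw [comp_out G A S v0 v hv]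
  exact h

theorem loc_in (G : MGraph V E) (A S : Finset E) (v0 v : V) (hv : Rch G (A \ S) v0 v) :
    Loc G (A \ comp G A S v0) S v := by
  have hev : Ev G (∅ : Finset E) := by
    intro w
    unfold dg
    simp
  refine ⟨∅, ∅, hev, hev, empty_subset _, empty_subset _, ?_, ?_⟩
  · rintro f _ (h | h) <;> exact absurd h (notMem_empty _)
  · intro f hf hS hu
    exfalso
    obtain ⟨u, huf⟩ := exists_end G f
    have h1 : Rch G (A \ S) v u :=
      rch_mono G (sdiff_subset_sdiff sdiff_subset (Subset.refl _)) (hu u huf)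
    exact (mem_sdiff.1 hf).2 (mem_comp' G A S v0 f (mem_sdiff.2 ⟨(mem_sdiff.1 hf).1, hS⟩) u huf
      (hv.trans h1))

theorem nonempty_of_not_loc (G : MGraph V E) (A S : Finset E) (v0 : V) (h : ¬ Loc G A S v0) :
    (comp G A S v0).Nonempty := by
  rw [nonempty_iff_ne_empty]
  intro h0
  apply h
  have := loc_in G A S v0 v0 Relation.ReflTransGen.refl
  rwa [h0, sdiff_empty] at this

theorem foldr_union (F B : Finset E) (L : List (Pole V E)) :
    L.foldr (fun p B => p.F ∪ B) (F ∪ B) = F ∪ L.foldr (fun p B => p.F ∪ B) B := by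
  induction L with
  | nil => rfl
  | cons p L ih =>
    rw [List.foldr_cons, List.foldr_cons, ih, union_left_comm]

theorem step (h1 : SPoles) (h2 : SCov) (G : MGraph V E) (S : Finset E)
    (hdS : ∀ v, dg G S v = 0 ∨ dg G S v = 2) :
    ∀ (n : ℕ) (A : Finset E) (L : List (Pole V E)), A.card = n → S ⊆ A → (∀ v, dg G A v ≤ 3) →
    (∀ p ∈ L, p.Ok G A S) →
    L.Pairwise (fun p q => Disjoint p.F q.F ∧ ∀ i j, p.x i ≠ q.x j) →
    (∀ v, Loc G A S v ∨ Exc G A S v) →
    Good G (L.foldr (fun p B => p.F ∪ B) A) S := by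
  intro n
  induction n using Nat.strong_induction_on with
  | _ n ih =>
    intro A L hn hSA hdA hL hpw hLE
    by_cases hall : ∀ v, Loc G A S v
    · exact h1 L.length V E G A S L rfl hSA hdA hdS hall hL hpw
    · rw [not_forall] at hall
      obtain ⟨v0, hv0⟩ := hall
      obtain ⟨e1, e2, D, hD1, hD2, hD3⟩ := (hLE v0).resolve_left hv0
      have hne := nonempty_of_not_loc G A S v0 hv0
      have hFA : comp G A S v0 ⊆ A := (comp_sub G A S v0).trans sdiff_subset
      have hFS : Disjoint (comp G A S v0) S := by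
        rw [disjoint_left]
        intro e he
        exact (mem_sdiff.1 (comp_sub G A S v0 he)).2
      have hloc : ∀ v, Loc G (A \ comp G A S v0) S v ∨ Exc G (A \ comp G A S v0) S v := by
        intro v
        by_cases hv : Rch G (A \ S) v0 v
        · exact Or.inl (loc_in G A S v0 v hv)
        · rcases hLE v with h | h
          · exact Or.inl (loc_out G A S v0 v hv h)
          · exact Or.inr (exc_out G A S v0 v hv h)
      generalize hF : comp G A S v0 = F at *
      have hcard : (A \ F).card < n := by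
        rw [← hn]
        apply card_lt_card
        refine ⟨sdiff_subset, fun h => ?_⟩
        obtain ⟨e, he⟩ := hne
        exact (mem_sdiff.1 (h (hFA he))).2 he
      have hSA' : S ⊆ A \ F := fun e he =>
        mem_sdiff.2 ⟨hSA he, fun h => disjoint_left.1 hFS h he⟩
      have hsum : ∀ v, dg G F v + dg G S v + dg G ((A \ F) \ S) v ≤ 3 := by
        intro v
        refine le_trans (le_trans (Nat.add_le_add_right (dg_add G hFS (Subset.refl _) v) _) ?_)
          (hdA v)
        refine dg_add G ?_ ?_ v
        · rw [disjoint_left]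
          intro e he h
          rw [mem_sdiff, mem_sdiff] at h
          rcases mem_union.1 he with he | he
          · exact h.1.2 he
          · exact h.2 he
        · refine union_subset (union_subset hFA hSA) (sdiff_subset.trans sdiff_subset)
      -- enumeration of the attachments
      set W : Finset V := univ.filter fun u => dg G S u = 2 ∧ dg G F u ≠ 0 with hW
      obtain ⟨x, hx⟩ : ∃ x : Fin W.card → V, Function.Injective x ∧ ∀ v, v ∈ W ↔ ∃ i, v = x i := by
        refine ⟨fun i => (W.equivFin.symm i : V), fun i j hij => ?_, fun v => ⟨fun hv => ?_, ?_⟩⟩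
        · exact W.equivFin.symm.injective (Subtype.ext hij)
        · exact ⟨W.equivFin ⟨v, hv⟩, by simp⟩
        · rintro ⟨i, rfl⟩
          exact (W.equivFin.symm i).2
      obtain ⟨hxinj, hxW⟩ := hx
      have hxS : ∀ i, dg G S (x i) = 2 ∧ dg G F (x i) ≠ 0 := by
        intro i
        have := (hxW (x i)).2 ⟨i, rfl⟩
        rw [hW, mem_filter] at this
        exact this.2
      have hone : ∀ i, dg G F (x i) = 1 := by
        intro i
        have a1 := hsum (x i)
        have a2 := hxS i
        omega
      have hzero : ∀ i, dg G ((A \ F) \ S) (x i) = 0 := by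
        intro i
        have a1 := hsum (x i)
        have a2 := hxS i
        omega
      have hFdeg : ∀ v, dg G F v ≤ 3 := fun v => (dg_mono G hFA v).trans (hdA v)
      have hok : (Pole.mk F W.card x).Ok G (A \ F) S := by
        refine ⟨e2, hFdeg, hone, ⟨hxinj, hzero, D, hD1, hD2, fun i => ?_⟩, sdiff_disjoint, ?_⟩
        · exact hD3 (x i) (hxS i).1 (hxS i).2
        · refine h2 V E G F W.card x hFdeg ?_
          intro e he
          obtain ⟨Z, hZ1, hZ2, hZ3⟩ := e1 e he
          refine ⟨Z, hZ1, hZ2, fun v hv => ?_⟩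
          rcases hdS v with h | h
          · exact hZ3 v h
          · have hvW : v ∉ W := fun hvW => by
              obtain ⟨i, hi⟩ := (hxW v).1 hvW
              exact hv i hi
            have h0 : dg G F v = 0 := by
              by_contra h0
              exact hvW (by rw [hW, mem_filter]; exact ⟨mem_univ _, h, h0⟩)
            have h3 : dg G Z v = 0 := Nat.le_zero.1 (h0 ▸ dg_mono G hZ1 v)
            rw [h3]
            exact ⟨0, rfl⟩
      have hmain := ih (A \ F).card hcard (A \ F) (Pole.mk F W.card x :: L) rfl hSA'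
        (fun v => (dg_mono G sdiff_subset v).trans (hdA v)) ?_ ?_ hloc
      · rw [List.foldr_cons, ← foldr_union, union_sdiff_of_subset hFA] at hmain
        exact hmain
      · intro p hp
        rcases List.mem_cons.1 hp with rfl | hp
        · exact hok
        · obtain ⟨b1, b2, b3, ⟨b4, b5, D', b6, b7, b8⟩, b9, b10⟩ := hL p hp
          refine ⟨b1, b2, b3, ⟨b4, fun i => ?_, D', b6, b7, b8⟩,
            disjoint_of_subset_left sdiff_subset b9, b10⟩
          exact Nat.le_zero.1 ((b5 i) ▸ dg_mono G (sdiff_subset_sdiff sdiff_subset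
            (Subset.refl _)) _)
      · refine List.pairwise_cons.2 ⟨fun p hp => ?_, hpw⟩
        have hp' := hL p hp
        refine ⟨disjoint_of_subset_left hFA hp'.disj, fun i j hij => ?_⟩
        have b5 := hp'.att.2.1 j
        have c1 : dg G F (x i) ≤ dg G (A \ S) (x i) := by
          apply dg_mono
          rw [← hF]
          exact comp_sub G A S v0
        have c2 : x i = p.x j := hij
        rw [c2, b5] at c1
        have c3 := hone i
        rw [c2] at c3
        omega

end N819

theorem main (h1 : SPoles) (h2 : SCov) : SMain := by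
  intro V E _ _ _ _ G H S hSH hdH hdS hLE
  exact N819.step h1 h2 G S hdS H.card H [] rfl hSH hdH (fun p hp => absurd hp (by simp))
    List.Pairwise.nil hLE

end Pool.Agent.H444.FA
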