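import Pool.Agent.H444.FA.Stm

set_option autoImplicit false
set_option linter.unusedSectionVars false

/-!
J1: a set of gadget edges that is even at the new vertices is completed along the circuit `D`
(helper152)
-/

open Finset

namespace Pool.Agent.H444.FA

open Pool.Agent.Helper347.Sab
open Pool.Agent.Helper998.Near (Rch)

theorem newEven (h : SCirc) : SNewEven := by
  intro V E _ _ _ _ G D hD a b g hg hat M hM
  have hC := h V E G a b g hg D hD
  have hdis : Disjoint (inE D : Finset (E ⊕ Fin b))
      (M.map ⟨Sum.inr, Sum.inr_injective⟩) := by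
    rw [disjoint_left]
    intro e h1 h2
    simp only [mem_map, Function.Embedding.coeFn_mk] at h2
    obtain ⟨j, _, rfl⟩ := h2
    exact inr_notMem_inE D j h1
  have hmem : ∀ j : Fin b, (Sum.inr j : E ⊕ Fin b) ∈
      (M.map ⟨Sum.inr, Sum.inr_injective⟩ : Finset (E ⊕ Fin b)) ↔ j ∈ M := by
    intro j
    simp
  have hmem' : ∀ e : E, (Sum.inl e : E ⊕ Fin b) ∉
      (M.map ⟨Sum.inr, Sum.inr_injective⟩ : Finset (E ⊕ Fin b)) := by
    intro e
    simp
  obtain ⟨J, hJ, hE⟩ := Pool.Agent.Results.MP_e720fa_co.ColourableComplement.circ_complete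
    (ext G g hg) (inE D) (M.map ⟨Sum.inr, Sum.inr_injective⟩) hC hdis (by
    rintro (v | w) hv
    · rw [dg_inE] at hv
      rw [dg_old]
      have h1 : oldP (M.map ⟨Sum.inr, Sum.inr_injective⟩ : Finset (E ⊕ Fin b)) = ∅ := by
        ext e
        rw [mem_oldP]
        simp
      have h2 : (univ.filter fun j : Fin b => (Sum.inr j : E ⊕ Fin b) ∈
          (M.map ⟨Sum.inr, Sum.inr_injective⟩ : Finset (E ⊕ Fin b)) ∧
          (Sum.inl v : V ⊕ Fin a) ∈ g j) = ∅ := by
        rw [filter_eq_empty_iff]
        rintro j _ ⟨_, h3⟩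
        have h4 := hat j v h3
        omega
      rw [h1, h2]
      simp [dg]
    · rw [dg_new]
      have h2 : (univ.filter fun j : Fin b => (Sum.inr j : E ⊕ Fin b) ∈
          (M.map ⟨Sum.inr, Sum.inr_injective⟩ : Finset (E ⊕ Fin b)) ∧
          (Sum.inr w : V ⊕ Fin a) ∈ g j) = M.filter fun j => (Sum.inr w : V ⊕ Fin a) ∈ g j := by
        ext j
        rw [mem_filter, mem_filter, hmem]
        simp
      rw [h2]
      exact hM w)
  refine ⟨_, hE, ?_, ?_⟩
  · intro e he
    rw [mem_union] at he
    rcases he with he | he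
    · exact absurd he (hmem' e)
    · exact (mem_inE D e).1 (hJ he)
  · intro j
    rw [mem_union, hmem]
    constructor
    · rintro (h1 | h1)
      · exact h1
      · exact absurd (hJ h1) (inr_notMem_inE D j)
    · exact Or.inl

end Pool.Agent.H444.FA
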