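import Pool.Agent.H444.FA.Stm

set_option autoImplicit false
set_option linter.unusedSectionVars false

open Finset

namespace Pool.Agent.H444.FA

open Pool.Agent.Helper347.Sab
open Pool.Agent.Helper998.Near (Rch)

variable {V E : Type} [Fintype V] [DecidableEq V] [Fintype E] [DecidableEq E]

theorem j0_lift (G : MGraph V E) {a b : ℕ} (g : Fin b → Sym2 (V ⊕ Fin a))
    (hg : ∀ j, ¬ (g j).IsDiag) (A S : Finset E) (u v : V) (h : Rch G (A \ S) u v) :
    Rch (ext G g hg) (inG A \ inE S) (Sum.inl u) (Sum.inl v) := by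
  induction h with
  | refl => exact Relation.ReflTransGen.refl
  | tail _ h1 ih =>
    obtain ⟨e, he, hends⟩ := h1
    refine ih.tail ⟨Sum.inl e, ?_, ?_⟩
    · rw [mem_sdiff] at he ⊢
      exact ⟨(inl_mem_inG A e).2 he.1, fun h => he.2 ((mem_inE S e).1 h)⟩
    · simp only [ext, Sum.elim_inl, hends, Sym2.map_mk]

theorem j0_down (G : MGraph V E) {a b d : ℕ} (g : Fin b → Sym2 (V ⊕ Fin a))
    (hg : ∀ j, ¬ (g j).IsDiag) (A S : Finset E) (x : Fin d → V)
    (hx : ∀ i, dg G (A \ S) (x i) = 0)
    (hgx : ∀ j u, (Sum.inl u : V ⊕ Fin a) ∈ g j → ∃ i, u = x i) (u : V) (hu : ∀ i, u ≠ x i)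
    (w : V ⊕ Fin a) (h : Rch (ext G g hg) (inG A \ inE S) (Sum.inl u) w) :
    ∃ v, w = Sum.inl v ∧ (∀ i, v ≠ x i) ∧ Rch G (A \ S) u v := by
  induction h with
  | refl => exact ⟨u, rfl, hu, Relation.ReflTransGen.refl⟩
  | @tail w1 w2 _ h1 ih =>
    obtain ⟨v, rfl, hv, hr⟩ := ih
    obtain ⟨e', he', hends⟩ := h1
    rcases e' with e | j
    · rw [mem_sdiff, inl_mem_inG, mem_inE] at he'
      rcases w2 with v2 | w2
      · have hends' : G.ends e = s(v, v2) := by
          have h2 : (G.ends e).map (Sum.inl : V → V ⊕ Fin a) = Sym2.map Sum.inl s(v, v2) := by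
            rw [Sym2.map_mk]
            exact hends
          exact Sym2.map.injective Sum.inl_injective h2
        refine ⟨v2, rfl, ?_, hr.tail ⟨e, mem_sdiff.2 he', hends'⟩⟩
        rintro i rfl
        have h3 := hx i
        unfold dg at h3
        rw [card_eq_zero, filter_eq_empty_iff] at h3
        apply h3 (mem_sdiff.2 he')
        rw [hends']
        exact Sym2.mem_mk_right _ _
      · exfalso
        apply ext_inr_inl G g hg e w2
        rw [hends]
        exact Sym2.mem_mk_right _ _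
    · exfalso
      rw [ext_inr] at hends
      obtain ⟨i, hi⟩ := hgx j v (by rw [hends]; exact Sym2.mem_mk_left _ _)
      exact hv i hi

theorem oldLoc : SOldLoc := by
  intro V E _ _ _ _ G A S hSA d a b x hx g hg hgx u hu hLoc
  obtain ⟨P, Q, hP, hQ, hPA, hQA, h1, h2⟩ := hLoc
  have hEv : ∀ R : Finset E, Ev G R → Ev (ext G g hg) (inE R) := by
    intro R hR v
    rcases v with v | w
    · rw [dg_inE]
      exact hR v
    · rw [dg_inE_new]
      exact Even.zero
  have hsub : ∀ R : Finset E, R ⊆ A → (inE R : Finset (E ⊕ Fin b)) ⊆ inG A := by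
    intro R hR e he
    rcases e with e | j
    · rw [mem_inE] at he
      exact (inl_mem_inG A e).2 (hR he)
    · exact absurd he (inr_notMem_inE R j)
  refine ⟨inE P, inE Q, hEv P hP, hEv Q hQ, hsub P hPA, hsub Q hQA, ?_, ?_⟩
  · intro f hf hPQ w hw
    rcases f with f | j
    · rw [mem_inE] at hf
      rw [mem_inE, mem_inE] at hPQ
      rcases w with v | w
      · rw [ext_inl_inl] at hw
        exact j0_lift G g hg A S u v (h1 f hf hPQ v hw)
      · exact absurd hw (ext_inr_inl G g hg f w)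
    · rcases hPQ with h | h
      · exact absurd h (inr_notMem_inE P j)
      · exact absurd h (inr_notMem_inE Q j)
  · intro f hfA hfS hf
    rcases f with f | j
    · rw [inl_mem_inG] at hfA
      rw [mem_inE] at hfS
      rw [mem_inE, mem_inE]
      apply h2 f hfA hfS
      intro v hv
      obtain ⟨v', hv', _, hr⟩ := j0_down G g hg A S x hx hgx u hu (Sum.inl v)
        (hf _ ((ext_inl_inl G g hg f v).2 hv))
      rw [Sum.inl.injEq] at hv'
      subst hv'
      exact hr
    · exfalso
      obtain ⟨w, hw⟩ : ∃ w, w ∈ g j := ⟨(g j).out.1, Sym2.out_fst_mem _⟩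
      obtain ⟨v, rfl, hv, _⟩ := j0_down G g hg A S x hx hgx u hu w (hf w hw)
      obtain ⟨i, hi⟩ := hgx j v hw
      exact hv i hi

end Pool.Agent.H444.FA
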