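import Pool.Agent.H444.FA.Stm

set_option autoImplicit false
set_option linter.unusedSectionVars false

/-!
B1: every colour occurs in an even number of patterns.
-/

open Finset

namespace Pool.Agent.H444.FA

open Pool.Agent.Helper347.Sab
open Pool.Agent.Helper998.Near (Rch)

theorem patEven : SPatEven := by
  intro V E _ _ _ _ G A m d x hx κ _ _ X hX c
  have h1 : Even (∑ v, dg G (X c) v) := handshake G (X c)
  have h2 : Even (univ.filter fun v => Odd (dg G (X c) v)).card := by
    rwa [← Finset.even_sum_iff_even_card_odd]
  have h3 : (univ.filter fun v => Odd (dg G (X c) v)) =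
      (univ.filter fun i => c ∈ pat G x X i).map ⟨x, hx⟩ := by
    ext v
    simp only [mem_filter, mem_univ, true_and, mem_map, Function.Embedding.coeFn_mk, pat]
    constructor
    · intro hv
      by_contra hcon
      have : ∀ i, v ≠ x i := by
        intro i hi
        exact hcon ⟨i, by rw [← hi]; exact hv, hi.symm⟩
      exact (Nat.not_even_iff_odd.mpr hv) (hX.2.2 c v this)
    · rintro ⟨i, hi, rfl⟩
      exact hi
  rw [h3, card_map] at h2
  exact h2

end Pool.Agent.H444.FA
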