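import Pool.Agent.H444.FA.Stm

set_option autoImplicit false
set_option linter.unusedSectionVars false

/-!
The degrees of the replacement graphs.
-/

open Finset

namespace Pool.Agent.H444.FA

theorem fin4a : ∀ i k l l' : Fin 4, k ≠ 0 → l ≠ 0 → l' ≠ 0 → k ≠ l → k ≠ l' →
    (i = 0 ∨ i = k) → (i = l ∨ i = l') → False := by decide

theorem fin2 (j : Fin 2) : j = 0 ∨ j = 1 := by
  revert j; decide

theorem fin3 (j : Fin 3) : j = 0 ∨ j = 1 ∨ j = 2 := by
  revert j; decide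

theorem fin5 (j : Fin 5) : j = 0 ∨ j = 1 ∨ j = 2 ∨ j = 3 ∨ j = 4 := by
  revert j; decide

section

variable {V : Type} [DecidableEq V]

theorem inl_mem {a : ℕ} (u v w : V) :
    (Sum.inl u : V ⊕ Fin a) ∈ s(Sum.inl v, Sum.inl w) ↔ u = v ∨ u = w := by
  rw [Sym2.mem_iff, Sum.inl.injEq, Sum.inl.injEq]

theorem inl_mem' {a : ℕ} (u v : V) (w : Fin a) :
    (Sum.inl u : V ⊕ Fin a) ∈ s(Sum.inl v, Sum.inr w) ↔ u = v := by
  rw [Sym2.mem_iff, Sum.inl.injEq]
  exact ⟨fun h => h.elim id (fun h => by cases h), Or.inl⟩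

theorem inl_mem'' {a : ℕ} (u : V) (v w : Fin a) :
    ¬ (Sum.inl u : V ⊕ Fin a) ∈ s(Sum.inr v, Sum.inr w) := by
  rw [Sym2.mem_iff]
  rintro (h | h) <;> cases h

theorem par_mem (x : Fin 4 → V) (k l l' : Fin 4) (j : Fin 2) (u : V)
    (hj : (Sum.inl u : V ⊕ Fin 0) ∈ gPar x k l l' j) :
    (j = 0 ∧ (u = x 0 ∨ u = x k)) ∨ (j = 1 ∧ (u = x l ∨ u = x l')) := by
  rcases fin2 j with rfl | rfl
  · exact Or.inl ⟨rfl, (inl_mem _ _ _).1 hj⟩
  · exact Or.inr ⟨rfl, (inl_mem _ _ _).1 hj⟩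

theorem tree_mem (x : Fin 4 → V) (k l l' : Fin 4) (j : Fin 5) (u : V)
    (hj : (Sum.inl u : V ⊕ Fin 2) ∈ gTree x k l l' j) :
    (j = 0 ∧ u = x 0) ∨ (j = 1 ∧ u = x k) ∨ (j = 3 ∧ u = x l) ∨ (j = 4 ∧ u = x l') := by
  rcases fin5 j with rfl | rfl | rfl | rfl | rfl
  · exact Or.inl ⟨rfl, (inl_mem' _ _ _).1 hj⟩
  · exact Or.inr (Or.inl ⟨rfl, (inl_mem' _ _ _).1 hj⟩)
  · exact absurd hj (inl_mem'' _ _ _)
  · exact Or.inr (Or.inr (Or.inl ⟨rfl, (inl_mem' _ _ _).1 hj⟩))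
  · exact Or.inr (Or.inr (Or.inr ⟨rfl, (inl_mem' _ _ _).1 hj⟩))

theorem claw_mem (x : Fin 3 → V) (j : Fin 3) (u : V)
    (hj : (Sum.inl u : V ⊕ Fin 1) ∈ gClaw x j) : u = x j := by
  rcases fin3 j with rfl | rfl | rfl
  · exact (inl_mem' _ _ _).1 hj
  · exact (inl_mem' _ _ _).1 hj
  · exact (inl_mem' _ _ _).1 hj

theorem edge_mem (x : Fin 2 → V) (j : Fin 1) (u : V)
    (hj : (Sum.inl u : V ⊕ Fin 0) ∈ gEdge x j) : u = x 0 ∨ u = x 1 := by
  rw [Subsingleton.elim j 0] at hj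
  exact (inl_mem _ _ _).1 hj

theorem par_card (x : Fin 4 → V) (hinj : Function.Injective x) (k l l' : Fin 4) (hk : k ≠ 0)
    (hl : l ≠ 0) (hl' : l' ≠ 0) (hkl : k ≠ l) (hkl' : k ≠ l') (i : Fin 4) :
    (univ.filter fun j => (Sum.inl (x i) : V ⊕ Fin 0) ∈ gPar x k l l' j).card ≤ 1 := by
  rw [card_le_one]
  intro j hj j' hj'
  rw [mem_filter] at hj hj'
  rcases par_mem x k l l' j _ hj.2 with ⟨a1, a2⟩ | ⟨a1, a2⟩ <;>
    rcases par_mem x k l l' j' _ hj'.2 with ⟨b1, b2⟩ | ⟨b1, b2⟩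
  · rw [a1, b1]
  · exact (fin4a i k l l' hk hl hl' hkl hkl' (a2.imp (fun h => hinj h) (fun h => hinj h))
      (b2.imp (fun h => hinj h) (fun h => hinj h))).elim
  · exact (fin4a i k l l' hk hl hl' hkl hkl' (b2.imp (fun h => hinj h) (fun h => hinj h))
      (a2.imp (fun h => hinj h) (fun h => hinj h))).elim
  · rw [a1, b1]

theorem tree_card (x : Fin 4 → V) (hinj : Function.Injective x) (k l l' : Fin 4) (hk : k ≠ 0)
    (hl : l ≠ 0) (hl' : l' ≠ 0) (hkl : k ≠ l) (hkl' : k ≠ l') (hll' : l ≠ l') (i : Fin 4) :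
    (univ.filter fun j => (Sum.inl (x i) : V ⊕ Fin 2) ∈ gTree x k l l' j).card ≤ 1 := by
  rw [card_le_one]
  intro j hj j' hj'
  rw [mem_filter] at hj hj'
  rcases tree_mem x k l l' j _ hj.2 with ⟨a1, a2⟩ | ⟨a1, a2⟩ | ⟨a1, a2⟩ | ⟨a1, a2⟩ <;>
    rcases tree_mem x k l l' j' _ hj'.2 with ⟨b1, b2⟩ | ⟨b1, b2⟩ | ⟨b1, b2⟩ | ⟨b1, b2⟩ <;>
    have a3 := hinj a2 <;> have b3 := hinj b2
  · rw [a1, b1]
  · exact absurd (b3.symm.trans a3) hk
  · exact absurd (b3.symm.trans a3) hl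
  · exact absurd (b3.symm.trans a3) hl'
  · exact absurd (a3.symm.trans b3) hk
  · rw [a1, b1]
  · exact absurd (a3.symm.trans b3) hkl
  · exact absurd (a3.symm.trans b3) hkl'
  · exact absurd (a3.symm.trans b3) hl
  · exact absurd (b3.symm.trans a3) hkl
  · rw [a1, b1]
  · exact absurd (a3.symm.trans b3) hll'
  · exact absurd (a3.symm.trans b3) hl'
  · exact absurd (b3.symm.trans a3) hkl'
  · exact absurd (b3.symm.trans a3) hll'
  · rw [a1, b1]

theorem claw_card (x : Fin 3 → V) (hinj : Function.Injective x) (i : Fin 3) :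
    (univ.filter fun j => (Sum.inl (x i) : V ⊕ Fin 1) ∈ gClaw x j).card ≤ 1 := by
  rw [card_le_one]
  intro j hj j' hj'
  rw [mem_filter] at hj hj'
  exact (hinj (claw_mem x j _ hj.2)).symm.trans (hinj (claw_mem x j' _ hj'.2))

theorem tree_new (x : Fin 4 → V) (k l l' : Fin 4) (w : Fin 2) :
    (univ.filter fun j => (Sum.inr w : V ⊕ Fin 2) ∈ gTree x k l l' j).card ≤ 3 := by
  have h0 : ∀ v : V, ∀ w w' : Fin 2, (Sum.inr w : V ⊕ Fin 2) ∈ s(Sum.inl v, Sum.inr w') →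
      w = w' := by
    intro v w w' h
    rw [Sym2.mem_iff] at h
    rcases h with h | h
    · cases h
    · exact Sum.inr_injective h
  rcases fin2 w with rfl | rfl
  · have e2 : (univ.filter fun j => (Sum.inr 0 : V ⊕ Fin 2) ∈ gTree x k l l' j) ⊆
        {0, 1, 2} := by
      intro j hj
      rw [mem_filter] at hj
      have hj := hj.2
      rcases fin5 j with rfl | rfl | rfl | rfl | rfl
      · decide
      · decide
      · decide
      · exact absurd (h0 _ _ _ hj) (by decide)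
      · exact absurd (h0 _ _ _ hj) (by decide)
    exact (card_le_card e2).trans card_le_three
  · have e2 : (univ.filter fun j => (Sum.inr 1 : V ⊕ Fin 2) ∈ gTree x k l l' j) ⊆
        {2, 3, 4} := by
      intro j hj
      rw [mem_filter] at hj
      have hj := hj.2
      rcases fin5 j with rfl | rfl | rfl | rfl | rfl
      · exact absurd (h0 _ _ _ hj) (by decide)
      · exact absurd (h0 _ _ _ hj) (by decide)
      · decide
      · decide
      · decide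
    exact (card_le_card e2).trans card_le_three

theorem par_diag (x : Fin 4 → V) (hinj : Function.Injective x) (k l l' : Fin 4) (hk : k ≠ 0)
    (hll' : l ≠ l') (j : Fin 2) : ¬ (gPar x k l l' j).IsDiag := by
  rcases fin2 j with rfl | rfl
  · show ¬ (s(Sum.inl (x 0), Sum.inl (x k)) : Sym2 (V ⊕ Fin 0)).IsDiag
    rw [Sym2.mk_isDiag_iff]
    intro h
    exact hk (hinj (Sum.inl_injective h)).symm
  · show ¬ (s(Sum.inl (x l), Sum.inl (x l')) : Sym2 (V ⊕ Fin 0)).IsDiag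
    rw [Sym2.mk_isDiag_iff]
    intro h
    exact hll' (hinj (Sum.inl_injective h))

theorem tree_diag (x : Fin 4 → V) (k l l' : Fin 4) (j : Fin 5) :
    ¬ (gTree x k l l' j).IsDiag := by
  have h0 : ∀ (v : V) (w : Fin 2), ¬ (s(Sum.inl v, Sum.inr w) : Sym2 (V ⊕ Fin 2)).IsDiag := by
    intro v w
    rw [Sym2.mk_isDiag_iff]
    intro h
    cases h
  rcases fin5 j with rfl | rfl | rfl | rfl | rfl
  · exact h0 _ _
  · exact h0 _ _
  · show ¬ (s(Sum.inr 0, Sum.inr 1) : Sym2 (V ⊕ Fin 2)).IsDiag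
    rw [Sym2.mk_isDiag_iff]
    intro h
    exact absurd (Sum.inr_injective h) (by decide)
  · exact h0 _ _
  · exact h0 _ _

theorem claw_diag (x : Fin 3 → V) (j : Fin 3) : ¬ (gClaw x j).IsDiag := by
  have h0 : ∀ (v : V) (w : Fin 1), ¬ (s(Sum.inl v, Sum.inr w) : Sym2 (V ⊕ Fin 1)).IsDiag := by
    intro v w
    rw [Sym2.mk_isDiag_iff]
    intro h
    cases h
  rcases fin3 j with rfl | rfl | rfl <;> exact h0 _ _

theorem edge_diag (x : Fin 2 → V) (hinj : Function.Injective x) (j : Fin 1) :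
    ¬ (gEdge x j).IsDiag := by
  rw [Subsingleton.elim j 0]
  show ¬ (s(Sum.inl (x 0), Sum.inl (x 1)) : Sym2 (V ⊕ Fin 0)).IsDiag
  rw [Sym2.mk_isDiag_iff]
  intro h
  exact absurd (hinj (Sum.inl_injective h)) (by decide)

end

end Pool.Agent.H444.FA
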