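import Pool.Agent.H444.FA.Stm

set_option autoImplicit false
set_option linter.unusedSectionVars false

/-!
Induction on the number of pieces.
-/

open Finset

namespace Pool.Agent.H444.FA

open Pool.Agent.Helper347.Sab
open Pool.Agent.Helper998.Near (Rch)

/-- the piece in the graph with new vertices and edges -/
def liftP {V E : Type} (a b : ℕ) (p : Pole V E) : Pole (V ⊕ Fin a) (E ⊕ Fin b) where
  F := inE p.F
  d := p.d
  x := fun i => Sum.inl (p.x i)

section

variable {V E : Type} [Fintype V] [DecidableEq V] [Fintype E] [DecidableEq E]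

theorem dg_sd (G : MGraph V E) (A S : Finset E) (h : S ⊆ A) (v : V) :
    dg G A v = dg G S v + dg G (A \ S) v := by
  unfold dg
  rw [← card_union_of_disjoint]
  · congr 1
    rw [← filter_union, union_sdiff_of_subset h]
  · rw [disjoint_left]
    intro e h1 h2
    rw [mem_filter] at h1 h2
    exact (mem_sdiff.1 h2.1).2 h1.1

theorem dg_inG (G : MGraph V E) {a b : ℕ} (g : Fin b → Sym2 (V ⊕ Fin a))
    (hg : ∀ j, ¬ (g j).IsDiag) (A : Finset E) (v : V) :
    dg (ext G g hg) (inG A) (Sum.inl v) = dg G A v +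
      (univ.filter fun j : Fin b => (Sum.inl v : V ⊕ Fin a) ∈ g j).card := by
  rw [dg_old, oldP_inG]
  congr 2
  ext j
  simp [inr_mem_inG]

theorem oldP_sd {b : ℕ} (A S : Finset E) :
    oldP ((inG A : Finset (E ⊕ Fin b)) \ inE S) = A \ S := by
  ext e
  simp [mem_oldP, mem_inE, inl_mem_inG]

theorem PC_ext (G : MGraph V E) {a b : ℕ} (g : Fin b → Sym2 (V ⊕ Fin a))
    (hg : ∀ j, ¬ (g j).IsDiag) (F : Finset E) {d : ℕ} (x : Fin d → V) {κ : Type} [Fintype κ]
    (X : κ → Finset E) (hX : PC G F (fun _ => 2) x X) :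
    PC (ext G g hg) (inE F) (fun _ => 2) (fun i => Sum.inl (x i)) (fun c => inE (X c)) := by
  obtain ⟨h1, h2, h3⟩ := hX
  refine ⟨fun c => ?_, ?_, ?_⟩
  · rintro (e | j) he
    · rw [mem_inE] at he ⊢
      exact h1 c he
    · exact absurd he (inr_notMem_inE _ j)
  · rintro (e | j) he
    · rw [mem_inE] at he
      rw [← h2 e he]
      congr 1
      ext c
      simp only [mem_filter, mem_univ, true_and, mem_inE]
    · exact absurd he (inr_notMem_inE _ j)
  · rintro c (v | w) hv
    · rw [dg_inE]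
      exact h3 c v fun i hi => hv i (by rw [hi])
    · rw [dg_inE_new]
      exact Even.zero

theorem foldr_ext {a b : ℕ} (A : Finset E) (L : List (Pole V E)) :
    (L.map (liftP a b)).foldr (fun p B => p.F ∪ B) (inG A) =
      inG (L.foldr (fun p B => p.F ∪ B) A) := by
  induction L with
  | nil => rfl
  | cons p L ih =>
    rw [List.map_cons, List.foldr_cons, List.foldr_cons, ih]
    show inE p.F ∪ inG _ = _
    ext e
    rcases e with e | j
    · rw [mem_union, mem_inE, inl_mem_inG, inl_mem_inG, mem_union]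
    · rw [mem_union]
      exact ⟨fun _ => inr_mem_inG _ j, fun _ => Or.inr (inr_mem_inG _ j)⟩

theorem stepExt (hcirc : SCirc) (n : ℕ)
    (ih : ∀ (V E : Type) [Fintype V] [DecidableEq V] [Fintype E] [DecidableEq E]
      (G : MGraph V E) (A S : Finset E) (L : List (Pole V E)), L.length = n → S ⊆ A →
      (∀ v, dg G A v ≤ 3) → (∀ v, dg G S v = 0 ∨ dg G S v = 2) → (∀ v, Loc G A S v) →
      (∀ p ∈ L, p.Ok G A S) →
      L.Pairwise (fun p q => Disjoint p.F q.F ∧ ∀ i j, p.x i ≠ q.x j) →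
      Good G (L.foldr (fun p B => p.F ∪ B) A) S)
    (G : MGraph V E) (A S : Finset E) (L : List (Pole V E)) (hn : L.length = n) (hSA : S ⊆ A)
    (hA : ∀ v, dg G A v ≤ 3) (hS : ∀ v, dg G S v = 0 ∨ dg G S v = 2)
    (hok : ∀ p ∈ L, p.Ok G A S)
    (hpw : L.Pairwise (fun p q => Disjoint p.F q.F ∧ ∀ i j, p.x i ≠ q.x j))
    {d a b : ℕ} (x : Fin d → V) (hatt : Att G A S x) (hxq : ∀ q ∈ L, ∀ i j, x i ≠ q.x j)
    (g : Fin b → Sym2 (V ⊕ Fin a)) (hg : ∀ j, ¬ (g j).IsDiag)
    (g1 : ∀ j u, (Sum.inl u : V ⊕ Fin a) ∈ g j → ∃ i, u = x i)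
    (g2 : ∀ i, (univ.filter fun j => (Sum.inl (x i) : V ⊕ Fin a) ∈ g j).card ≤ 1)
    (g3 : ∀ w, (univ.filter fun j => (Sum.inr w : V ⊕ Fin a) ∈ g j).card ≤ 3)
    (g4 : ∀ v, Loc (ext G g hg) (inG A) (inE S) v) :
    Good (ext G g hg) (inG (L.foldr (fun p B => p.F ∪ B) A)) (inE S) := by
  rw [← foldr_ext]
  have hnone : ∀ u, (∀ i, u ≠ x i) →
      (univ.filter fun j => (Sum.inl u : V ⊕ Fin a) ∈ g j) = ∅ := by
    intro u hu
    rw [filter_eq_empty_iff]
    intro j _ h
    obtain ⟨i, hi⟩ := g1 j u h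
    exact hu i hi
  refine ih (V ⊕ Fin a) (E ⊕ Fin b) (ext G g hg) (inG A) (inE S) _
    (by rw [List.length_map, hn]) ?_ ?_ ?_ g4 ?_ ?_
  · rintro (e | j) he
    · rw [mem_inE] at he
      rw [inl_mem_inG]
      exact hSA he
    · exact absurd he (inr_notMem_inE _ j)
  · rintro (v | w)
    · rw [dg_inG]
      by_cases hv : ∃ i, v = x i
      · obtain ⟨i, rfl⟩ := hv
        obtain ⟨-, h2, D, hD, hDS, hDx⟩ := hatt
        have h3 := dg_sd G A S hSA (x i)
        rw [h2 i] at h3
        have h4 : dg G S (x i) ≤ 2 := by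
          rcases hS (x i) with h | h <;> omega
        have h5 := g2 i
        omega
      · push Not at hv
        rw [hnone v hv, card_empty, add_zero]
        exact hA v
    · rw [dg_new]
      refine le_trans (card_le_card ?_) (g3 w)
      intro j hj
      rw [mem_filter] at hj ⊢
      exact ⟨mem_univ _, hj.2.2⟩
  · rintro (v | w)
    · rw [dg_inE]; exact hS v
    · left; exact dg_inE_new G g hg S w
  · intro p' hp'
    rw [List.mem_map] at hp'
    obtain ⟨p, hp, rfl⟩ := hp'
    obtain ⟨q1, q2, q3, q4, q5, q6⟩ := hok p hp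
    refine ⟨q1, ?_, ?_, ?_, ?_, ?_⟩
    · rintro (v | w)
      · show dg (ext G g hg) (inE p.F) _ ≤ 3
        rw [dg_inE]; exact q2 v
      · show dg (ext G g hg) (inE p.F) _ ≤ 3
        rw [dg_inE_new]; norm_num
    · intro i
      show dg (ext G g hg) (inE p.F) (Sum.inl (p.x i)) = 1
      rw [dg_inE]; exact q3 i
    · obtain ⟨r1, r2, D, r3, r4, r5⟩ := q4
      refine ⟨fun i j hij => r1 (Sum.inl_injective hij), ?_, inE D, hcirc V E G a b g hg D r3,
        ?_, ?_⟩
      · intro i
        show dg (ext G g hg) (inG A \ inE S) (Sum.inl (p.x i)) = 0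
        rw [dg_old, oldP_sd, r2 i]
        rw [zero_add, card_eq_zero, filter_eq_empty_iff]
        rintro j _ ⟨_, h⟩
        obtain ⟨i', hi'⟩ := g1 j _ h
        exact hxq p hp i' i hi'.symm
      · rintro (e | j) he
        · rw [mem_inE] at he ⊢
          exact r4 he
        · exact absurd he (inr_notMem_inE _ j)
      · intro i
        show dg (ext G g hg) (inE D) (Sum.inl (p.x i)) = 2
        rw [dg_inE]; exact r5 i
    · show Disjoint (inG A) (inE p.F)
      rw [disjoint_left]
      rintro (e | j) h1 h2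
      · rw [inl_mem_inG] at h1
        rw [mem_inE] at h2
        exact (disjoint_left.1 q5) h1 h2
      · exact absurd h2 (inr_notMem_inE _ j)
    · obtain ⟨X, hX⟩ := q6
      exact ⟨_, PC_ext G g hg p.F p.x X hX⟩
  · rw [List.pairwise_map]
    refine hpw.imp ?_
    rintro p q ⟨h1, h2⟩
    refine ⟨?_, fun i j h => h2 i j (Sum.inl_injective h)⟩
    show Disjoint (inE p.F) (inE q.F)
    rw [disjoint_left]
    rintro (e | j) h3 h4
    · rw [mem_inE] at h3 h4
      exact (disjoint_left.1 h1) h3 h4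
    · exact absurd h4 (inr_notMem_inE _ j)

end

end Pool.Agent.H444.FA
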