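import Pool.Agent.H444.FA.Core4
import Pool.Agent.H444.FA.Gad
import Pool.Agent.H444.FA.StepE

set_option autoImplicit false
set_option linter.unusedSectionVars false

/-!
Induction on the number of pieces.
-/

open Finset

namespace Pool.Agent.H444.FA

open Pool.Agent.Helper347.Sab
open Pool.Agent.Helper998.Near (Rch)

theorem poles (h4 : SCore4) (h3 : SCore3) (h2 : SCore2) (he : SPatEven) (hpar : SPar)
    (htree : STree) (hclaw : SClaw) (hedge : SEdge) (lp : SLocPar) (lt : SLocTree)
    (lc : SLocClaw) (le : SLocEdge) (hcirc : SCirc) (hglue : SGlue) (hbase : SBase) :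
    SPoles := by
  intro n
  induction n with
  | zero =>
    intro V E _ _ _ _ G A S L hL hSA hA hS hloc _ _
    rw [List.length_eq_zero_iff] at hL
    subst hL
    exact hbase V E G A S hSA hA hS hloc
  | succ n ih =>
    intro V E _ _ _ _ G A S L hL hSA hA hS hloc hok hpw
    obtain ⟨p, L', rfl⟩ := List.exists_cons_of_length_eq_add_one hL
    rw [List.length_cons, Nat.add_right_cancel_iff] at hL
    rw [List.pairwise_cons] at hpw
    obtain ⟨hpw1, hpw2⟩ := hpw
    have hok' : ∀ q ∈ L', q.Ok G A S := fun q hq => hok q (List.mem_cons_of_mem _ hq)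
    obtain ⟨q1, q2, q3, q4, q5, q6⟩ := hok p List.mem_cons_self
    rw [List.foldr_cons]
    obtain ⟨A1, hA1⟩ : ∃ A1, A1 = L'.foldr (fun p B => p.F ∪ B) A := ⟨_, rfl⟩
    rw [← hA1]
    have hsub : A ⊆ A1 := by
      rw [hA1]
      clear * -
      induction L' with
      | nil => exact Subset.refl _
      | cons p L' ih => rw [List.foldr_cons]; exact ih.trans subset_union_right
    have hSA1 : S ⊆ A1 := hSA.trans hsub
    have hdisj : Disjoint A1 p.F := by
      rw [hA1]
      clear hok hok' hL hsub hSA1 hA1
      induction L' with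
      | nil => exact q5
      | cons q L' ih' =>
        rw [List.foldr_cons, disjoint_union_left]
        refine ⟨(hpw1 q List.mem_cons_self).1.symm, ih' ?_ ?_⟩
        · intro r hr
          exact hpw1 r (List.mem_cons_of_mem _ hr)
        · exact (List.pairwise_cons.1 hpw2).2
    rw [union_comm]
    have hxq : ∀ q ∈ L', ∀ i j, p.x i ≠ q.x j := fun q hq => (hpw1 q hq).2
    obtain ⟨F, d, x⟩ := p
    simp only at q1 q2 q3 q4 q5 q6 hdisj hxq ⊢
    have hinj := q4.1
    have key : ∀ {a b : ℕ} (g : Fin b → Sym2 (V ⊕ Fin a)) (hg : ∀ j, ¬ (g j).IsDiag),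
        (∀ j u, (Sum.inl u : V ⊕ Fin a) ∈ g j → ∃ i, u = x i) →
        (∀ i, (univ.filter fun j => (Sum.inl (x i) : V ⊕ Fin a) ∈ g j).card ≤ 1) →
        (∀ w, (univ.filter fun j => (Sum.inr w : V ⊕ Fin a) ∈ g j).card ≤ 3) →
        (∀ v, Loc (ext G g hg) (inG A) (inE S) v) → Good (ext G g hg) (inG A1) (inE S) := by
      intro a b g hg g1 g2 g3 g4
      rw [hA1]
      exact stepExt hcirc n ih G A S L' hL hSA hA hS hok' hpw2 x q4 hxq g hg g1 g2 g3 g4
    have hd : d = 0 ∨ d = 1 ∨ d = 2 ∨ d = 3 ∨ d = 4 := by omega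
    rcases hd with rfl | rfl | rfl | rfl | rfl
    · -- no attachment
      obtain ⟨m, Z, z1, z2, z3⟩ := ih V E G A S L' hL hSA hA hS hloc hok' hpw2
      rw [← hA1] at z1 z2
      obtain ⟨X, hX⟩ := q6
      exact hglue V E G A1 F S hdisj hSA1 0 x (Fin m) Z ⟨z1, z2, fun c v _ => z3 c v⟩ X hX
        (Fin 0) ⟨Fin.elim0, fun i => Fin.elim0 i⟩ ⟨Fin.elim0, fun i => Fin.elim0 i⟩
        (fun i => Fin.elim0 i) (fun i => Fin.elim0 i) (fun i => Fin.elim0 i)
    · -- one attachment: impossible
      exfalso
      obtain ⟨X, hX⟩ := q6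
      have h5 := card_pat G F x q3 X hX 0
      obtain ⟨c, hc⟩ := card_pos.1 (by rw [h5]; norm_num : 0 < (pat G x X 0).card)
      have h6 := he V E G F (fun _ => 2) 1 x hinj T3 X hX c
      have h7 : (univ.filter fun i => c ∈ pat G x X i) = {0} := by
        ext i
        rw [Subsingleton.elim i 0]
        simp [hc]
      rw [h7, card_singleton] at h6
      exact absurd h6 (by decide)
    · -- two attachments
      refine h2 V E G A1 F S hdisj hSA1 x hinj q3 q6
        (hedge V E G A1 S hSA1 x hinj (edge_diag x hinj) (key _ (edge_diag x hinj) ?_ ?_ ?_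
          (le V E G A S hSA hloc x q4 (edge_diag x hinj))))
      · intro j u hu
        rcases edge_mem x j u hu with h | h
        · exact ⟨0, h⟩
        · exact ⟨1, h⟩
      · intro i
        exact (card_le_univ _).trans (by rw [Fintype.card_fin])
      · intro w
        exact w.elim0
    · -- three attachments
      refine h3 V E G A1 F S hdisj hSA1 x hinj q3 q6
        (hclaw V E G A1 S hSA1 x hinj (claw_diag x) (key _ (claw_diag x) ?_ ?_ ?_
          (lc V E G A S hSA hloc x q4 (claw_diag x))))
      · intro j u hu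
        exact ⟨j, claw_mem x j u hu⟩
      · exact claw_card x hinj
      · intro w
        exact (card_le_univ _).trans (by rw [Fintype.card_fin])
    · -- four attachments
      have hP : ∀ k l l' : Fin 4, k ≠ 0 → l ≠ 0 → l' ≠ 0 → k ≠ l → k ≠ l' → l ≠ l' →
          ∃ (n : ℕ) (X : Fin n → Finset E), PC G A1 (mS S) x X ∧
            (∀ i, (pat G x X i).card = 2) ∧ pat G x X 0 = pat G x X k := by
        intro k l l' hk hl hl' hkl hkl' hll'
        refine hpar V E G A1 S hSA1 x hinj k l l' hk hl hl' hkl hkl' hll'
          (par_diag x hinj k l l' hk hll') (key _ (par_diag x hinj k l l' hk hll') ?_ ?_ ?_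
            (lp V E G A S hSA hloc x q4 k l l' hk hl hl' hkl hkl' hll'
              (par_diag x hinj k l l' hk hll')))
        · intro j u hu
          rcases par_mem x k l l' j u hu with ⟨-, h⟩ | ⟨-, h⟩
          · rcases h with h | h
            · exact ⟨0, h⟩
            · exact ⟨k, h⟩
          · rcases h with h | h
            · exact ⟨l, h⟩
            · exact ⟨l', h⟩
        · exact par_card x hinj k l l' hk hl hl' hkl hkl'
        · intro w
          exact w.elim0
      have hT : ∀ k l l' : Fin 4, k ≠ 0 → l ≠ 0 → l' ≠ 0 → k ≠ l → k ≠ l' → l ≠ l' →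
          ∃ (n : ℕ) (X : Fin n → Finset E), PC G A1 (mS S) x X ∧
            (∀ i, (pat G x X i).card = 2) ∧ (pat G x X 0 ∩ pat G x X k).card = 1 := by
        intro k l l' hk hl hl' hkl hkl' hll'
        refine htree V E G A1 S hSA1 x hinj k l l' hk hl hl' hkl hkl' hll'
          (tree_diag x k l l') (key _ (tree_diag x k l l') ?_ ?_ ?_
            (lt V E G A S hSA hloc x q4 k l l' hk hl hl' hkl hkl' hll' (tree_diag x k l l')))
        · intro j u hu
          rcases tree_mem x k l l' j u hu with ⟨-, h⟩ | ⟨-, h⟩ | ⟨-, h⟩ | ⟨-, h⟩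
          · exact ⟨0, h⟩
          · exact ⟨k, h⟩
          · exact ⟨l, h⟩
          · exact ⟨l', h⟩
        · exact tree_card x hinj k l l' hk hl hl' hkl hkl' hll'
        · exact tree_new x k l l'
      have f4 : ∀ k : Fin 4, k = 0 ∨ k = 1 ∨ k = 2 ∨ k = 3 := by decide
      refine h4 V E G A1 F S hdisj hSA1 q2 x hinj q3 q6 ?_ ?_
      · intro k hk
        rcases f4 k with rfl | rfl | rfl | rfl
        · exact absurd rfl hk
        · exact hP 1 2 3 (by decide) (by decide) (by decide) (by decide) (by decide) (by decide)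
        · exact hP 2 1 3 (by decide) (by decide) (by decide) (by decide) (by decide) (by decide)
        · exact hP 3 1 2 (by decide) (by decide) (by decide) (by decide) (by decide) (by decide)
      · intro k hk
        rcases f4 k with rfl | rfl | rfl | rfl
        · exact absurd rfl hk
        · exact hT 1 2 3 (by decide) (by decide) (by decide) (by decide) (by decide) (by decide)
        · exact hT 2 1 3 (by decide) (by decide) (by decide) (by decide) (by decide) (by decide)
        · exact hT 3 1 2 (by decide) (by decide) (by decide) (by decide) (by decide) (by decide)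

end Pool.Agent.H444.FA
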