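import Pool.Agent.H444.FA.Stm

set_option autoImplicit false
set_option linter.unusedSectionVars false

/-!
Consequences of the Kempe exchanges for the realised types of patterns.
-/

open Finset

namespace Pool.Agent.H444.FA

open Pool.Agent.Helper347.Sab
open Pool.Agent.Helper998.Near (Rch)

namespace Rules

/-- exchange of the colours `a`, `b` at the legs `0` and `j.succ` -/
def swp (a b : Fin 4) (j : Fin 3) (P : Fin 4 → Finset (Fin 4)) : Fin 4 → Finset (Fin 4) := fun i =>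
  if i = 0 ∨ i = j.succ then sw a b (P i) else P i

/-- `P` is `P'` up to renaming of the four colours -/
def iso (P P' : Fin 4 → Finset (Fin 4)) : Prop :=
  ∃ f : Fin 4 → Fin 4, Function.Injective f ∧ ∀ i, P i = (P' i).image f

instance (P P' : Fin 4 → Finset (Fin 4)) : Decidable (iso P P') := by
  unfold iso; infer_instance

/-- every pattern contains exactly one of `a`, `b` -/
def one (a b : Fin 4) (P : Fin 4 → Finset (Fin 4)) : Prop :=
  ∀ i, (a ∈ P i ∧ b ∉ P i) ∨ (a ∉ P i ∧ b ∈ P i)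

instance (a b : Fin 4) (P : Fin 4 → Finset (Fin 4)) : Decidable (one a b P) := by
  unfold one; infer_instance

section

variable {V E : Type} [Fintype V] [DecidableEq V] [Fintype E] [DecidableEq E]
  {G : MGraph V E} {A : Finset E} {m : E → ℕ} {x : Fin 4 → V} {κ : Type} [Fintype κ]
  [DecidableEq κ]

theorem RT_iso {P P' : Fin 4 → Finset (Fin 4)} (h : RT G A m x κ P) (hi : iso P P') :
    RT G A m x κ P' := by
  obtain ⟨X, hX, ι, hι⟩ := h
  obtain ⟨f, hf, hP⟩ := hi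
  refine ⟨X, hX, (⟨f, hf⟩ : Fin 4 ↪ Fin 4).trans ι, fun i => ?_⟩
  rw [hι, hP, ← Finset.map_map, Finset.map_eq_image ⟨f, hf⟩]
  rfl

theorem sw_map (ι : Fin 4 ↪ κ) (a b : Fin 4) (p : Finset (Fin 4)) :
    sw (ι a) (ι b) (p.map ι) = (sw a b p).map ι := by
  unfold sw
  rw [Finset.map_map, Finset.map_map]
  congr 1
  ext c
  simp only [Function.Embedding.trans_apply, Equiv.coe_toEmbedding]
  exact (Function.Injective.map_swap ι.injective a b c).symm

theorem one_map {P : Fin 4 → Finset (Fin 4)} {a b : Fin 4} (h : one a b P) {X : κ → Finset E}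
    {ι : Fin 4 ↪ κ} (hι : ∀ i, pat G x X i = (P i).map ι) (i : Fin 4) :
    (ι a ∈ pat G x X i ∧ ι b ∉ pat G x X i) ∨ (ι a ∉ pat G x X i ∧ ι b ∈ pat G x X i) := by
  rw [hι, Finset.mem_map', Finset.mem_map']
  exact h i

theorem pat_swp {P : Fin 4 → Finset (Fin 4)} {X X' : κ → Finset E} {ι : Fin 4 ↪ κ} {a b : Fin 4}
    {j : Fin 3} (hι : ∀ i, pat G x X i = (P i).map ι)
    (h : ∀ i, pat G x X' i = if i = 0 ∨ i = j.succ then sw (ι a) (ι b) (pat G x X i)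
      else pat G x X i) (i : Fin 4) : pat G x X' i = (swp a b j P i).map ι := by
  rw [h, hι]
  unfold swp
  split_ifs with h1
  · exact sw_map ι a b (P i)
  · rfl

theorem step1 (h1 : SKempe1) (hx : Function.Injective x) {P : Fin 4 → Finset (Fin 4)}
    (h : RT G A m x κ P) (a b : Fin 4) (hab : a ≠ b) (ho : one a b P) :
    ∃ j : Fin 3, RT G A m x κ (swp a b j P) := by
  obtain ⟨X, hX, ι, hι⟩ := h
  obtain ⟨j, X', hX', hp⟩ := h1 V E G A m x hx κ X hX (ι a) (ι b) (ι.injective.ne hab)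
    (one_map ho hι)
  exact ⟨j, X', hX', ι, pat_swp hι hp⟩

theorem step2 (h2 : SKempe2) (hx : Function.Injective x) {P : Fin 4 → Finset (Fin 4)}
    (h : RT G A m x κ P) (a b c d : Fin 4) (hab : a ≠ b) (hcd : c ≠ d) (hac : a ≠ c) (had : a ≠ d)
    (hbc : b ≠ c) (hbd : b ≠ d) (ho : one a b P) (ho' : one c d P) :
    ∃ j l : Fin 3, RT G A m x κ (swp a b j P) ∧ RT G A m x κ (swp c d l P) ∧
      RT G A m x κ (swp c d l (swp a b j P)) := by
  obtain ⟨X, hX, ι, hι⟩ := h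
  obtain ⟨j, l, X1, X2, X3, hX1, hX2, hX3, hp1, hp2, hp3⟩ := h2 V E G A m x hx κ X hX (ι a) (ι b)
    (ι c) (ι d) (ι.injective.ne hab) (ι.injective.ne hcd) (ι.injective.ne hac)
    (ι.injective.ne had) (ι.injective.ne hbc) (ι.injective.ne hbd) (one_map ho hι)
    (one_map ho' hι)
  have e1 := pat_swp hι hp1
  exact ⟨j, l, ⟨X1, hX1, ι, e1⟩, ⟨X2, hX2, ι, pat_swp hι hp2⟩, ⟨X3, hX3, ι, pat_swp e1 hp3⟩⟩

end

/-! finite checks -/

theorem chk1 : one 1 2 Qp ∧ ∀ j : Fin 3, iso (swp 1 2 j Qp) (Ap j) := by decide +kernel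

theorem chk2 : ∀ k : Fin 3, one 0 3 (Ap k) ∧ ∀ j : Fin 3,
    (j = k → iso (swp 0 3 j (Ap k)) (Bp k)) ∧
    (j ≠ k → third k j ≠ k ∧ iso (swp 0 3 j (Ap k)) (Rp (third k j))) := by decide +kernel

theorem chk3 : ∀ k : Fin 3, one 0 2 (Bp k) ∧ ∀ j : Fin 3,
    (j = k → iso (swp 0 2 j (Bp k)) (Ap k)) ∧
    (j ≠ k → iso (swp 0 2 j (Bp k)) (Rp j)) := by decide +kernel

theorem chk4 : ∀ k l : Fin 3, l ≠ k → ∃ a b : Fin 4, a ≠ b ∧ one a b (Rp k) ∧ ∀ j : Fin 3,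
    iso (swp a b j (Rp k)) (Ap (third k l)) ∨ iso (swp a b j (Rp k)) (Bp (third k l)) ∨
      iso (swp a b j (Rp k)) (Rp l) := by decide +kernel

theorem chk5 : ∀ k : Fin 3, one 1 2 (Ap k) ∧ ∀ j l : Fin 3,
    iso (swp 1 2 j (Ap k)) (if j = k then Qp else Ap (third k j)) ∧
    iso (swp 0 3 l (Ap k)) (if l = k then Bp k else Rp (third k l)) ∧
    iso (swp 0 3 l (swp 1 2 j (Ap k))) (if j = k then Ap l else
        if l = third k j then Bp l else Rp (third (third k j) l)) := by decide +kernel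

theorem chk6 : ∀ k : Fin 3, one 0 3 (Rp k) ∧ one 1 2 (Rp k) ∧ ∀ j l : Fin 3,
    (iso (swp 0 3 j (Rp k)) Qp ∨ ∃ r, iso (swp 0 3 j (Rp k)) (Ap r) ∨
      iso (swp 0 3 j (Rp k)) (Bp r)) ∨
    (iso (swp 1 2 l (Rp k)) Qp ∨ ∃ r, iso (swp 1 2 l (Rp k)) (Ap r) ∨
      iso (swp 1 2 l (Rp k)) (Bp r)) ∨
    (iso (swp 1 2 l (swp 0 3 j (Rp k))) Qp ∨ ∃ r, iso (swp 1 2 l (swp 0 3 j (Rp k))) (Ap r) ∨
      iso (swp 1 2 l (swp 0 3 j (Rp k))) (Bp r)) := by decide +kernel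

end Rules

open Rules in
/-- C: consequences of the Kempe exchanges for the realised types -/
theorem rules (h1 : SKempe1) (h2 : SKempe2) : SRules := by
  intro V E _ _ _ _ G A m x hx κ _ _
  refine ⟨?_, ?_, ?_, ?_, ?_, ?_⟩
  · intro h
    obtain ⟨j, hj⟩ := step1 h1 hx h 1 2 (by decide) chk1.1
    exact ⟨j, RT_iso hj (chk1.2 j)⟩
  · intro k h
    obtain ⟨j, hj⟩ := step1 h1 hx h 0 3 (by decide) (chk2 k).1
    by_cases hjk : j = k
    · exact Or.inl (RT_iso hj (((chk2 k).2 j).1 hjk))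
    · exact Or.inr ⟨third k j, (((chk2 k).2 j).2 hjk).1, RT_iso hj (((chk2 k).2 j).2 hjk).2⟩
  · intro k h
    obtain ⟨j, hj⟩ := step1 h1 hx h 0 2 (by decide) (chk3 k).1
    by_cases hjk : j = k
    · exact Or.inl (RT_iso hj (((chk3 k).2 j).1 hjk))
    · exact Or.inr ⟨j, hjk, RT_iso hj (((chk3 k).2 j).2 hjk)⟩
  · intro k l hlk h
    obtain ⟨a, b, hab, ho, hc⟩ := chk4 k l hlk
    obtain ⟨j, hj⟩ := step1 h1 hx h a b hab ho
    rcases hc j with hc | hc | hc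
    · exact Or.inl (RT_iso hj hc)
    · exact Or.inr (Or.inl (RT_iso hj hc))
    · exact Or.inr (Or.inr (RT_iso hj hc))
  · intro k h
    obtain ⟨j, l, e1, e2, e3⟩ := step2 h2 hx h 1 2 0 3 (by decide) (by decide) (by decide)
      (by decide) (by decide) (by decide) (chk5 k).1 (chk2 k).1
    obtain ⟨c1, c2, c3⟩ := (chk5 k).2 j l
    exact ⟨j, l, RT_iso e1 c1, RT_iso e2 c2, RT_iso e3 c3⟩
  · intro k h
    obtain ⟨j, l, e1, e2, e3⟩ := step2 h2 hx h 0 3 1 2 (by decide) (by decide) (by decide)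
      (by decide) (by decide) (by decide) (chk6 k).1 (chk6 k).2.1
    rcases (chk6 k).2.2 j l with (c | ⟨r, c | c⟩) | (c | ⟨r, c | c⟩) | (c | ⟨r, c | c⟩)
    · exact Or.inl (RT_iso e1 c)
    · exact Or.inr ⟨r, Or.inl (RT_iso e1 c)⟩
    · exact Or.inr ⟨r, Or.inr (RT_iso e1 c)⟩
    · exact Or.inl (RT_iso e2 c)
    · exact Or.inr ⟨r, Or.inl (RT_iso e2 c)⟩
    · exact Or.inr ⟨r, Or.inr (RT_iso e2 c)⟩
    · exact Or.inl (RT_iso e3 c)
    · exact Or.inr ⟨r, Or.inl (RT_iso e3 c)⟩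
    · exact Or.inr ⟨r, Or.inr (RT_iso e3 c)⟩

end Pool.Agent.H444.FA
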