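import Pool.Agent.H444.FA.Path
import Pool.Agent.H444.FA.Kempe1
import Pool.Agent.H444.FA.Kempe2
import Pool.Agent.H444.FA.PatEven
import Pool.Agent.H444.FA.Classify
import Pool.Agent.H444.FA.Rules
import Pool.Agent.H444.FA.Lift
import Pool.Agent.H444.FA.Frule
import Pool.Agent.H444.FA.Cov
import Pool.Agent.H444.FA.Glue
import Pool.Agent.H444.FA.Base
import Pool.Agent.H444.FA.Cdc
import Pool.Agent.H444.FA.I1
import Pool.Agent.H444.FA.ITree
import Pool.Agent.H444.FA.IClaw
import Pool.Agent.H444.FA.OldLoc
import Pool.Agent.H444.FA.NewEven
import Pool.Agent.H444.FA.Circ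
import Pool.Agent.H444.FA.LocTree
import Pool.Agent.H444.FA.LocPar
import Pool.Agent.H444.FA.LocClaw
import Pool.Agent.H444.FA.Core3
import Pool.Agent.H444.FA.Core4
import Pool.Agent.H444.FA.Poles
import Pool.Agent.H444.FA.MainN
import Pool.Agent.H444.FA.FinalH

set_option autoImplicit false

/-!
Assembly.
-/

namespace Pool.Agent.H444.FA

theorem all_rules : SRules := rules (kempe1 path) (kempe2 path)

theorem all_frule : SFrule := frule lift patEven classify

theorem all_core4 : SCore4 := core4 all_rules all_frule glue classify patEven

theorem all_newEven : SNewEven := newEven circ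

theorem all_poles : SPoles :=
  poles all_core4 (core3 glue patEven) (core2 glue patEven) patEven par tree claw edge
    (locPar oldLoc all_newEven) (locTree oldLoc all_newEven) (locClaw oldLoc all_newEven)
    (locEdge oldLoc all_newEven) circ glue base

theorem all_final : SFinalH := finalH (main all_poles cov)

end Pool.Agent.H444.FA
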