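import Pool.Agent.H444.FA.Stm

set_option autoImplicit false
set_option linter.unusedSectionVars false

/-!
Circuits stay circuits in the graph with new vertices and new edges.
-/

open Finset

namespace Pool.Agent.H444.FA

open Pool.Agent.Helper347.Sab
open Pool.Agent.Helper998.Near (Rch)

theorem circ : SCirc := by
  intro V E _ _ _ _ G a b g hg D hD
  obtain ⟨hne, hdeg, hcon⟩ := hD
  refine ⟨?_, ?_, ?_⟩
  · obtain ⟨e, he⟩ := hne
    exact ⟨Sum.inl e, (mem_inE D e).2 he⟩
  · rintro (v | w)
    · rw [dg_inE]
      exact hdeg v
    · left
      exact dg_inE_new G g hg D w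
  · rintro (e | j) he f hf
    · rcases f with f | j
      · rw [mem_inE] at he hf
        have hch := hcon e he f hf
        clear hf
        induction hch with
        | refl => exact Relation.ReflTransGen.refl
        | @tail p q _ h1 ih =>
          obtain ⟨hq, v, hvp, hvq⟩ := h1
          exact ih.tail ⟨(mem_inE D q).2 hq, Sum.inl v, (ext_inl_inl G g hg p v).2 hvp,
            (ext_inl_inl G g hg q v).2 hvq⟩
      · exact absurd hf (inr_notMem_inE D j)
    · exact absurd he (inr_notMem_inE D j)

end Pool.Agent.H444.FA
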