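import Pool.Agent.H164R2.Edges
import Pool.Agent.H126R2.CDC.Main

set_option autoImplicit false
set_option linter.unusedSectionVars false

/-!
Covers of an edge set by classes that are even off at most four attachments; patterns.
-/

open Finset

namespace Pool.Agent.H444.FA

open Pool.Agent.Helper347.Sab
open Pool.Agent.Helper998.Near (Rch)

abbrev T3 := Pool.Agent.H126R2.CDC.T3
abbrev F2 := Pool.Agent.Helper879.ECD.F2

section

variable {V E : Type} [Fintype V] [DecidableEq V] [Fintype E] [DecidableEq E]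

/-- `X` is a cover of the edge set `A` by the classes `X c`, the edge `e` lies in `m e` classes, and
every class is even off the vertices `x i`. -/
def PC (G : MGraph V E) (A : Finset E) (m : E → ℕ) {d : ℕ} (x : Fin d → V)
    {κ : Type} [Fintype κ] (X : κ → Finset E) : Prop :=
  (∀ c, X c ⊆ A) ∧ (∀ e ∈ A, (univ.filter fun c => e ∈ X c).card = m e) ∧
    ∀ c v, (∀ i, v ≠ x i) → Even (dg G (X c) v)

/-- the pattern at `x i`: the set of the classes of odd degree -/
def pat (G : MGraph V E) {d : ℕ} (x : Fin d → V) {κ : Type} [Fintype κ] (X : κ → Finset E)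
    (i : Fin d) : Finset κ :=
  univ.filter fun c => Odd (dg G (X c) (x i))

/-- edges of `S` are covered once (the second class is `S` itself), the others twice -/
def mS (S : Finset E) (e : E) : ℕ := if e ∈ S then 1 else 2

/-- together with `S` some even edge sets cover every edge of `H` exactly twice -/
def Good (G : MGraph V E) (H S : Finset E) : Prop :=
  ∃ (n : ℕ) (Z : Fin n → Finset E), (∀ c, Z c ⊆ H) ∧
    (∀ e ∈ H, (univ.filter fun c => e ∈ Z c).card = mS S e) ∧ ∀ c v, Even (dg G (Z c) v)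

/-- the component of `v` in `A \ S` has its own nowhere-zero 4-flow after contraction of `S` -/
def Loc (G : MGraph V E) (A S : Finset E) (v : V) : Prop :=
  ∃ P Q : Finset E, Ev G P ∧ Ev G Q ∧ P ⊆ A ∧ Q ⊆ A ∧
    (∀ f, f ∉ S → (f ∈ P ∨ f ∈ Q) → ∀ u ∈ G.ends f, Rch G (A \ S) v u) ∧
    (∀ f ∈ A, f ∉ S → (∀ u ∈ G.ends f, Rch G (A \ S) v u) → f ∈ P ∨ f ∈ Q)

/-- exchange of the colours `α` and `β` -/
def sw {κ : Type} [DecidableEq κ] (α β : κ) (p : Finset κ) : Finset κ :=
  p.map (Equiv.swap α β).toEmbedding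

/-- the pattern `P` (in four colours) is realised by a cover of `A` with classes indexed by `κ` -/
def RT (G : MGraph V E) (A : Finset E) (m : E → ℕ) (x : Fin 4 → V) (κ : Type) [Fintype κ]
    [DecidableEq κ] (P : Fin 4 → Finset (Fin 4)) : Prop :=
  ∃ X : κ → Finset E, PC G A m x X ∧ ∃ ι : Fin 4 ↪ κ, ∀ i, pat G x X i = (P i).map ι

end

/-- the standard patterns; the leg number `k.succ` plays the role of the partner of leg 0 -/
def Qp : Fin 4 → Finset (Fin 4) := fun _ => {0, 1}

def Ap (k : Fin 3) : Fin 4 → Finset (Fin 4) := fun i =>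
  if i = 0 ∨ i = k.succ then {0, 1} else {0, 2}

def Bp (k : Fin 3) : Fin 4 → Finset (Fin 4) := fun i =>
  if i = 0 ∨ i = k.succ then {0, 1} else {2, 3}

/-- legs 0 and `k.succ` are opposite edges of a four-cycle of colours -/
def Rp (k : Fin 3) : Fin 4 → Finset (Fin 4) := fun i =>
  if i = 0 then {0, 1} else if i = k.succ then {2, 3} else
    if (i : ℕ) = (if k = 0 then 2 else 1) then {0, 2} else {1, 3}

section ext

variable {V E : Type} [Fintype V] [DecidableEq V] [Fintype E] [DecidableEq E]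

/-- the graph with `a` new vertices and `b` new edges `g j` -/
def ext (G : MGraph V E) {a b : ℕ} (g : Fin b → Sym2 (V ⊕ Fin a)) (hg : ∀ j, ¬ (g j).IsDiag) :
    MGraph (V ⊕ Fin a) (E ⊕ Fin b) where
  ends := Sum.elim (fun e => (G.ends e).map Sum.inl) g
  loopless := by
    rintro (e | j)
    · intro h
      apply G.loopless e
      revert h
      simp only [Sum.elim_inl]
      induction G.ends e using Sym2.ind with
      | _ u v =>
        simp
    · exact hg j

/-- old edges -/
def inE {a : ℕ} (A : Finset E) : Finset (E ⊕ Fin a) := A.map ⟨Sum.inl, Sum.inl_injective⟩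

/-- old edges together with all new edges -/
def inG {b : ℕ} (A : Finset E) : Finset (E ⊕ Fin b) :=
  inE A ∪ (univ : Finset (Fin b)).map ⟨Sum.inr, Sum.inr_injective⟩

/-- two new edges `x 0 x k`, `x l x l'` -/
def gPar (x : Fin 4 → V) (k l l' : Fin 4) : Fin 2 → Sym2 (V ⊕ Fin 0) :=
  ![s(Sum.inl (x 0), Sum.inl (x k)), s(Sum.inl (x l), Sum.inl (x l'))]

/-- a tree with two new vertices -/
def gTree (x : Fin 4 → V) (k l l' : Fin 4) : Fin 5 → Sym2 (V ⊕ Fin 2) :=
  ![s(Sum.inl (x 0), Sum.inr 0), s(Sum.inl (x k), Sum.inr 0), s(Sum.inr 0, Sum.inr 1),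
    s(Sum.inl (x l), Sum.inr 1), s(Sum.inl (x l'), Sum.inr 1)]

/-- a claw -/
def gClaw (x : Fin 3 → V) : Fin 3 → Sym2 (V ⊕ Fin 1) :=
  ![s(Sum.inl (x 0), Sum.inr 0), s(Sum.inl (x 1), Sum.inr 0), s(Sum.inl (x 2), Sum.inr 0)]

/-- an edge -/
def gEdge (x : Fin 2 → V) : Fin 1 → Sym2 (V ⊕ Fin 0) :=
  ![s(Sum.inl (x 0), Sum.inl (x 1))]

end ext

end Pool.Agent.H444.FA
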