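import Pool.Agent.H444.FA.Defs

set_option autoImplicit false
set_option linter.unusedSectionVars false

/-!
Degrees in the graph with new vertices and new edges.
-/

open Finset

namespace Pool.Agent.H444.FA

open Pool.Agent.Helper347.Sab
open Pool.Agent.Helper998.Near (Rch)

variable {V E : Type} [Fintype V] [DecidableEq V] [Fintype E] [DecidableEq E]

/-- the old edges in `Z` -/
def oldP {b : ℕ} (Z : Finset (E ⊕ Fin b)) : Finset E := univ.filter fun e => Sum.inl e ∈ Z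

theorem mem_oldP {b : ℕ} (Z : Finset (E ⊕ Fin b)) (e : E) : e ∈ oldP Z ↔ Sum.inl e ∈ Z := by
  simp [oldP]

theorem mem_inE {b : ℕ} (A : Finset E) (e : E) :
    (Sum.inl e : E ⊕ Fin b) ∈ (inE A : Finset (E ⊕ Fin b)) ↔ e ∈ A := by
  simp [inE]

theorem inr_notMem_inE {b : ℕ} (A : Finset E) (j : Fin b) :
    (Sum.inr j : E ⊕ Fin b) ∉ (inE A : Finset (E ⊕ Fin b)) := by
  simp [inE]

theorem inl_mem_inG {b : ℕ} (A : Finset E) (e : E) :
    (Sum.inl e : E ⊕ Fin b) ∈ (inG A : Finset (E ⊕ Fin b)) ↔ e ∈ A := by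
  simp [inG, inE]

theorem inr_mem_inG {b : ℕ} (A : Finset E) (j : Fin b) :
    (Sum.inr j : E ⊕ Fin b) ∈ (inG A : Finset (E ⊕ Fin b)) := by
  simp [inG, inE]

theorem ext_inl_inl (G : MGraph V E) {a b : ℕ} (g : Fin b → Sym2 (V ⊕ Fin a))
    (hg : ∀ j, ¬ (g j).IsDiag) (e : E) (v : V) :
    (Sum.inl v : V ⊕ Fin a) ∈ (ext G g hg).ends (Sum.inl e) ↔ v ∈ G.ends e := by
  simp only [ext, Sum.elim_inl]
  rw [Sym2.mem_map]
  constructor
  · rintro ⟨u, hu, h⟩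
    rw [← Sum.inl_injective h]
    exact hu
  · intro h
    exact ⟨v, h, rfl⟩

theorem ext_inr_inl (G : MGraph V E) {a b : ℕ} (g : Fin b → Sym2 (V ⊕ Fin a))
    (hg : ∀ j, ¬ (g j).IsDiag) (e : E) (w : Fin a) :
    ¬ (Sum.inr w : V ⊕ Fin a) ∈ (ext G g hg).ends (Sum.inl e) := by
  simp only [ext, Sum.elim_inl]
  rw [Sym2.mem_map]
  rintro ⟨u, _, h⟩
  exact absurd h (by simp)

theorem ext_inr (G : MGraph V E) {a b : ℕ} (g : Fin b → Sym2 (V ⊕ Fin a))
    (hg : ∀ j, ¬ (g j).IsDiag) (j : Fin b) : (ext G g hg).ends (Sum.inr j) = g j := rfl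

/-- degree of an old vertex -/
theorem dg_old (G : MGraph V E) {a b : ℕ} (g : Fin b → Sym2 (V ⊕ Fin a))
    (hg : ∀ j, ¬ (g j).IsDiag) (Z : Finset (E ⊕ Fin b)) (v : V) :
    dg (ext G g hg) Z (Sum.inl v) = dg G (oldP Z) v +
      (univ.filter fun j : Fin b => Sum.inr j ∈ Z ∧ (Sum.inl v : V ⊕ Fin a) ∈ g j).card := by
  unfold dg
  have h1 : (Z.filter fun e => (Sum.inl v : V ⊕ Fin a) ∈ (ext G g hg).ends e) =
      ((oldP Z).filter fun e => v ∈ G.ends e).map ⟨Sum.inl, Sum.inl_injective⟩ ∪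
      (univ.filter fun j : Fin b => Sum.inr j ∈ Z ∧ (Sum.inl v : V ⊕ Fin a) ∈ g j).map
        ⟨Sum.inr, Sum.inr_injective⟩ := by
    ext e
    rcases e with e | j
    · simp [mem_oldP, ext_inl_inl]
    · simp [ext_inr]
  rw [h1, card_union_of_disjoint, card_map, card_map]
  rw [disjoint_left]
  intro e h2 h3
  simp only [mem_map, Function.Embedding.coeFn_mk] at h2 h3
  obtain ⟨e1, _, rfl⟩ := h2
  obtain ⟨j, _, h4⟩ := h3
  exact absurd h4 (by simp)

/-- degree of a new vertex -/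
theorem dg_new (G : MGraph V E) {a b : ℕ} (g : Fin b → Sym2 (V ⊕ Fin a))
    (hg : ∀ j, ¬ (g j).IsDiag) (Z : Finset (E ⊕ Fin b)) (w : Fin a) :
    dg (ext G g hg) Z (Sum.inr w) =
      (univ.filter fun j : Fin b => Sum.inr j ∈ Z ∧ (Sum.inr w : V ⊕ Fin a) ∈ g j).card := by
  unfold dg
  have h1 : (Z.filter fun e => (Sum.inr w : V ⊕ Fin a) ∈ (ext G g hg).ends e) =
      (univ.filter fun j : Fin b => Sum.inr j ∈ Z ∧ (Sum.inr w : V ⊕ Fin a) ∈ g j).map
        ⟨Sum.inr, Sum.inr_injective⟩ := by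
    ext e
    rcases e with e | j
    · simp [ext_inr_inl]
    · simp [ext_inr]
  rw [h1, card_map]

theorem oldP_inE {b : ℕ} (A : Finset E) : oldP (inE A : Finset (E ⊕ Fin b)) = A := by
  ext e; simp [mem_oldP, mem_inE]

theorem oldP_inG {b : ℕ} (A : Finset E) : oldP (inG A : Finset (E ⊕ Fin b)) = A := by
  ext e; simp [mem_oldP, inl_mem_inG]

/-- degrees of old vertices in sets of old edges -/
theorem dg_inE (G : MGraph V E) {a b : ℕ} (g : Fin b → Sym2 (V ⊕ Fin a))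
    (hg : ∀ j, ¬ (g j).IsDiag) (A : Finset E) (v : V) :
    dg (ext G g hg) (inE A) (Sum.inl v) = dg G A v := by
  rw [dg_old, oldP_inE]
  have h1 : (univ.filter fun j : Fin b => (Sum.inr j : E ⊕ Fin b) ∈ (inE A : Finset (E ⊕ Fin b)) ∧
      (Sum.inl v : V ⊕ Fin a) ∈ g j) = ∅ := by
    rw [filter_eq_empty_iff]
    rintro j _ ⟨h, _⟩
    exact inr_notMem_inE A j h
  rw [h1, card_empty, add_zero]

theorem dg_inE_new (G : MGraph V E) {a b : ℕ} (g : Fin b → Sym2 (V ⊕ Fin a))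
    (hg : ∀ j, ¬ (g j).IsDiag) (A : Finset E) (w : Fin a) :
    dg (ext G g hg) (inE A) (Sum.inr w) = 0 := by
  rw [dg_new]
  rw [card_eq_zero, filter_eq_empty_iff]
  rintro j _ ⟨h, _⟩
  exact inr_notMem_inE A j h

end Pool.Agent.H444.FA
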