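import Pool.Agent.H444.FA.Stm

set_option autoImplicit false
set_option linter.unusedVariables false

/-!
The propositional part: two families of types closed under the rules meet.
-/

namespace Pool.Agent.H444.FA

theorem logic_flat (sq sa0 sa1 sa2 sb0 sb1 sb2 sr0 sr1 sr2 iq ia0 ia1 ia2 ib0 ib1 ib2 ir0 ir1 ir2 : Prop)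
  (dq : ¬ (sq ∧ iq)) (da0 : ¬ (sa0 ∧ ia0)) (da1 : ¬ (sa1 ∧ ia1)) (da2 : ¬ (sa2 ∧ ia2))
  (db0 : ¬ (sb0 ∧ ib0)) (db1 : ¬ (sb1 ∧ ib1)) (db2 : ¬ (sb2 ∧ ib2))
  (dr0 : ¬ (sr0 ∧ ir0)) (dr1 : ¬ (sr1 ∧ ir1)) (dr2 : ¬ (sr2 ∧ ir2))
  (ne : sq ∨ sa0 ∨ sa1 ∨ sa2 ∨ sb0 ∨ sb1 ∨ sb2 ∨ sr0 ∨ sr1 ∨ sr2)
  -- S rules
  (sQ : sq → sa0 ∨ sa1 ∨ sa2)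
  (jr0 : sr0 → sq ∨ sa0 ∨ sa1 ∨ sa2 ∨ sb0 ∨ sb1 ∨ sb2)
  (jr1 : sr1 → sq ∨ sa0 ∨ sa1 ∨ sa2 ∨ sb0 ∨ sb1 ∨ sb2)
  (jr2 : sr2 → sq ∨ sa0 ∨ sa1 ∨ sa2 ∨ sb0 ∨ sb1 ∨ sb2)
  (f10 : sb0 → sa0 ∨ sr0) (f11 : sb1 → sa1 ∨ sr1) (f12 : sb2 → sa2 ∨ sr2)
  (f201 : sb0 → sq ∨ sb1) (f202 : sb0 → sq ∨ sb2) (f210 : sb1 → sq ∨ sb0)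
  (f212 : sb1 → sq ∨ sb2) (f220 : sb2 → sq ∨ sb0) (f221 : sb2 → sq ∨ sb1)
  (f30 : sr0 → sr1 ∨ sr2) (f31 : sr1 → sr0 ∨ sr2) (f32 : sr2 → sr0 ∨ sr1)
  (j0 : sa0 → (sq ∧ sb0 ∧ sa0) ∨ (sq ∧ sr2 ∧ sa1) ∨ (sq ∧ sr1 ∧ sa2) ∨ (sa2 ∧ sb0 ∧ sr1) ∨
      (sa2 ∧ sr2 ∧ sr0) ∨ (sa2 ∧ sr1 ∧ sb2) ∨ (sa1 ∧ sb0 ∧ sr2) ∨ (sa1 ∧ sr2 ∧ sb1) ∨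
      (sa1 ∧ sr1 ∧ sr0))
  (j1 : sa1 → (sa2 ∧ sr2 ∧ sr1) ∨ (sa2 ∧ sb1 ∧ sr0) ∨ (sa2 ∧ sr0 ∧ sb2) ∨ (sq ∧ sr2 ∧ sa0) ∨
      (sq ∧ sb1 ∧ sa1) ∨ (sq ∧ sr0 ∧ sa2) ∨ (sa0 ∧ sr2 ∧ sb0) ∨ (sa0 ∧ sb1 ∧ sr2) ∨
      (sa0 ∧ sr0 ∧ sr1))
  (j2 : sa2 → (sa1 ∧ sr1 ∧ sr2) ∨ (sa1 ∧ sr0 ∧ sb1) ∨ (sa1 ∧ sb2 ∧ sr0) ∨ (sa0 ∧ sr1 ∧ sb0) ∨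
      (sa0 ∧ sr0 ∧ sr2) ∨ (sa0 ∧ sb2 ∧ sr1) ∨ (sq ∧ sr1 ∧ sa0) ∨ (sq ∧ sr0 ∧ sa1) ∨
      (sq ∧ sb2 ∧ sa2))
  -- I rules
  (iQ : iq → ia0 ∨ ia1 ∨ ia2)
  (iA0 : ia0 → ib0 ∨ ir1 ∨ ir2) (iA1 : ia1 → ib1 ∨ ir0 ∨ ir2) (iA2 : ia2 → ib2 ∨ ir0 ∨ ir1)
  (iB0 : ib0 → ia0 ∨ ir1 ∨ ir2) (iB1 : ib1 → ia1 ∨ ir0 ∨ ir2) (iB2 : ib2 → ia2 ∨ ir0 ∨ ir1)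
  (iR01 : ir0 → ia2 ∨ ib2 ∨ ir1) (iR02 : ir0 → ia1 ∨ ib1 ∨ ir2)
  (iR10 : ir1 → ia2 ∨ ib2 ∨ ir0) (iR12 : ir1 → ia0 ∨ ib0 ∨ ir2)
  (iR20 : ir2 → ia1 ∨ ib1 ∨ ir0) (iR21 : ir2 → ia0 ∨ ib0 ∨ ir1)
  (p0 : iq ∨ ia0 ∨ ib0) (p1 : iq ∨ ia1 ∨ ib1) (p2 : iq ∨ ia2 ∨ ib2)
  (t0 : ia1 ∨ ir1 ∨ ia2 ∨ ir2) (t1 : ia0 ∨ ir0 ∨ ia2 ∨ ir2) (t2 : ia0 ∨ ir0 ∨ ia1 ∨ ir1) :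
  False := by
  grind (splits := 60)

end Pool.Agent.H444.FA
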