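import Pool.Agent.H444.FA.Stm

set_option autoImplicit false
set_option linter.unusedSectionVars false

/-!
A path inside `D` from an odd vertex to another odd vertex.
-/

open Finset

namespace Pool.Agent.H444.FA

open Pool.Agent.Helper347.Sab
open Pool.Agent.Helper998.Near (Rch)

variable {V E : Type} [Fintype V] [DecidableEq V] [Fintype E] [DecidableEq E]

theorem path_dg_insert (G : MGraph V E) (F : Finset E) (e : E) (he : e ∉ F) (v : V) :
    dg G (insert e F) v = dg G F v + (if v ∈ G.ends e then 1 else 0) := by
  unfold dg
  rw [Finset.filter_insert]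
  split_ifs with h
  · rw [card_insert_of_notMem]
    intro h'
    exact he (mem_of_mem_filter e h')
  · rw [add_zero]

theorem path_dg_erase (G : MGraph V E) (F : Finset E) (e : E) (he : e ∈ F) (v : V) :
    dg G F v = dg G (F.erase e) v + (if v ∈ G.ends e then 1 else 0) := by
  rw [← path_dg_insert G (F.erase e) e (notMem_erase e F) v, insert_erase he]

theorem path_aux (G : MGraph V E) (n : ℕ) : ∀ (D : Finset E) (a : V), D.card = n →
    Odd (dg G D a) →
    ∃ b, b ≠ a ∧ Odd (dg G D b) ∧ ∃ P, P ⊆ D ∧ ∀ v, Odd (dg G P v) ↔ (v = a ∨ v = b) := by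
  induction n with
  | zero =>
    intro D a hD ha
    rw [card_eq_zero] at hD
    subst hD
    simp [dg] at ha
  | succ n ih =>
    intro D a hD ha
    obtain ⟨e, he⟩ : (D.filter fun e => a ∈ G.ends e).Nonempty := by
      rw [← card_pos]
      exact ha.pos
    rw [mem_filter] at he
    obtain ⟨heD, hae⟩ := he
    obtain ⟨k, hk⟩ := Sym2.mem_iff_exists.mp hae
    have hka : k ≠ a := by
      rintro rfl
      apply G.loopless e
      rw [hk]
      exact Sym2.mk_isDiag_iff.mpr rfl
    have hmem : ∀ v, v ∈ G.ends e ↔ (v = a ∨ v = k) := by
      intro v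
      rw [hk, Sym2.mem_iff]
    by_cases hodd : Odd (dg G D k)
    · refine ⟨k, hka, hodd, {e}, by simpa using heD, ?_⟩
      intro v
      have h1 := path_dg_insert G ∅ e (by simp) v
      have h2 : dg G (∅ : Finset E) v = 0 := by simp [dg]
      have h3 : insert e (∅ : Finset E) = {e} := by simp
      rw [h3, h2, zero_add] at h1
      rw [h1, ← hmem v]
      split_ifs with h
      · simp [h]
      · simp [h]
    · have hk1 := path_dg_erase G D e heD k
      have ha1 := path_dg_erase G D e heD a
      rw [if_pos ((hmem k).mpr (Or.inr rfl))] at hk1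
      rw [if_pos ((hmem a).mpr (Or.inl rfl))] at ha1
      have hk2 : Odd (dg G (D.erase e) k) := by
        rw [hk1] at hodd
        by_contra hcon
        rw [Nat.not_odd_iff_even] at hcon
        exact hodd hcon.add_one
      have ha2 : ¬ Odd (dg G (D.erase e) a) := by
        rw [ha1] at ha
        intro hcon
        exact (Nat.not_odd_iff_even.mpr hcon.add_one) ha
      obtain ⟨b, hbk, hb, P, hP, hPv⟩ := ih (D.erase e) k (by rw [card_erase_of_mem heD, hD]; rfl) hk2
      have hba : b ≠ a := fun h => ha2 (h ▸ hb)
      have hbe : b ∉ G.ends e := by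
        rw [hmem]
        rintro (h | h)
        · exact hba h
        · exact hbk h
      refine ⟨b, hba, ?_, insert e P, ?_, ?_⟩
      · rw [path_dg_erase G D e heD b, if_neg hbe, add_zero]
        exact hb
      · intro x hx
        rw [mem_insert] at hx
        rcases hx with rfl | hx
        · exact heD
        · exact (erase_subset e D) (hP hx)
      · intro v
        have heP : e ∉ P := fun h => notMem_erase e D (hP h)
        rw [path_dg_insert G P e heP v]
        by_cases hv : v ∈ G.ends e
        · rw [if_pos hv, Nat.odd_add_one, hPv v]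
          rw [hmem] at hv
          rcases hv with rfl | rfl
          · simp [hka.symm, hba.symm]
          · simp [hbk.symm, hka]
        · rw [if_neg hv, add_zero, hPv v]
          rw [hmem, not_or] at hv
          simp [hv.1, hv.2]

theorem path : SPath := by
  intro V E _ _ _ _ G D a ha
  exact path_aux G D.card D a rfl ha

end Pool.Agent.H444.FA
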