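import Pool.Agent.H444.FA.ExtL

set_option autoImplicit false
set_option linter.unusedSectionVars false

/-!
Statements of the parts of the proof (strong circuit double covers for bridges with at most four
attachments). Every `S...` is a proposition; it is proved in its own module.
-/

open Finset

namespace Pool.Agent.H444.FA

open Pool.Agent.Helper347.Sab
open Pool.Agent.Helper998.Near (Rch)

/-- A1: a path inside `D` from an odd vertex to another odd vertex -/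
def SPath : Prop :=
  ∀ (V E : Type) [Fintype V] [DecidableEq V] [Fintype E] [DecidableEq E] (G : MGraph V E)
    (D : Finset E) (a : V), Odd (dg G D a) →
    ∃ b, b ≠ a ∧ Odd (dg G D b) ∧ ∃ P, P ⊆ D ∧ ∀ v, Odd (dg G P v) ↔ (v = a ∨ v = b)

/-- A2: one Kempe exchange -/
def SKempe1 : Prop :=
  ∀ (V E : Type) [Fintype V] [DecidableEq V] [Fintype E] [DecidableEq E] (G : MGraph V E)
    (A : Finset E) (m : E → ℕ) (x : Fin 4 → V), Function.Injective x →
    ∀ (κ : Type) [Fintype κ] [DecidableEq κ] (X : κ → Finset E), PC G A m x X →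
    ∀ α β : κ, α ≠ β →
    (∀ i, (α ∈ pat G x X i ∧ β ∉ pat G x X i) ∨ (α ∉ pat G x X i ∧ β ∈ pat G x X i)) →
    ∃ j : Fin 3, ∃ X' : κ → Finset E, PC G A m x X' ∧
      ∀ i, pat G x X' i = if i = 0 ∨ i = j.succ then sw α β (pat G x X i) else pat G x X i

/-- A3: two Kempe exchanges for disjoint pairs of colours; the partner `l` of leg 0 for the second
pair is the same before and after the first exchange -/
def SKempe2 : Prop :=
  ∀ (V E : Type) [Fintype V] [DecidableEq V] [Fintype E] [DecidableEq E] (G : MGraph V E)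
    (A : Finset E) (m : E → ℕ) (x : Fin 4 → V), Function.Injective x →
    ∀ (κ : Type) [Fintype κ] [DecidableEq κ] (X : κ → Finset E), PC G A m x X →
    ∀ α β γ δ : κ, α ≠ β → γ ≠ δ → α ≠ γ → α ≠ δ → β ≠ γ → β ≠ δ →
    (∀ i, (α ∈ pat G x X i ∧ β ∉ pat G x X i) ∨ (α ∉ pat G x X i ∧ β ∈ pat G x X i)) →
    (∀ i, (γ ∈ pat G x X i ∧ δ ∉ pat G x X i) ∨ (γ ∉ pat G x X i ∧ δ ∈ pat G x X i)) →
    ∃ j l : Fin 3, ∃ X1 X2 X3 : κ → Finset E, PC G A m x X1 ∧ PC G A m x X2 ∧ PC G A m x X3 ∧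
      (∀ i, pat G x X1 i = if i = 0 ∨ i = j.succ then sw α β (pat G x X i) else pat G x X i) ∧
      (∀ i, pat G x X2 i = if i = 0 ∨ i = l.succ then sw γ δ (pat G x X i) else pat G x X i) ∧
      (∀ i, pat G x X3 i = if i = 0 ∨ i = l.succ then sw γ δ (pat G x X1 i) else pat G x X1 i)

/-- B1: every colour occurs in an even number of patterns -/
def SPatEven : Prop :=
  ∀ (V E : Type) [Fintype V] [DecidableEq V] [Fintype E] [DecidableEq E] (G : MGraph V E)
    (A : Finset E) (m : E → ℕ) (d : ℕ) (x : Fin d → V), Function.Injective x →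
    ∀ (κ : Type) [Fintype κ] [DecidableEq κ] (X : κ → Finset E), PC G A m x X →
    ∀ c, Even (univ.filter fun i => c ∈ pat G x X i).card

/-- B2: classification of the even patterns with four legs -/
def SClass : Prop :=
  ∀ (κ : Type) [Fintype κ] [DecidableEq κ], 4 ≤ Fintype.card κ → ∀ p : Fin 4 → Finset κ,
    (∀ i, (p i).card = 2) → (∀ c, Even (univ.filter fun i => c ∈ p i).card) →
    (∃ ι : Fin 4 ↪ κ, ∀ i, p i = (Qp i).map ι) ∨
    ∃ k : Fin 3, (∃ ι : Fin 4 ↪ κ, ∀ i, p i = (Ap k i).map ι) ∨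
      (∃ ι : Fin 4 ↪ κ, ∀ i, p i = (Bp k i).map ι) ∨
      (∃ ι : Fin 4 ↪ κ, ∀ i, p i = (Rp k i).map ι)

/-- the third element of `Fin 3` (for distinct arguments) -/
def third (a b : Fin 3) : Fin 3 := -(a + b)

/-- C: consequences of the Kempe exchanges for the realised types -/
def SRules : Prop :=
  ∀ (V E : Type) [Fintype V] [DecidableEq V] [Fintype E] [DecidableEq E] (G : MGraph V E)
    (A : Finset E) (m : E → ℕ) (x : Fin 4 → V), Function.Injective x →
    ∀ (κ : Type) [Fintype κ] [DecidableEq κ],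
    (RT G A m x κ Qp → ∃ k, RT G A m x κ (Ap k)) ∧
    (∀ k, RT G A m x κ (Ap k) → RT G A m x κ (Bp k) ∨ ∃ l, l ≠ k ∧ RT G A m x κ (Rp l)) ∧
    (∀ k, RT G A m x κ (Bp k) → RT G A m x κ (Ap k) ∨ ∃ l, l ≠ k ∧ RT G A m x κ (Rp l)) ∧
    (∀ k l, l ≠ k → RT G A m x κ (Rp k) →
      RT G A m x κ (Ap (third k l)) ∨ RT G A m x κ (Bp (third k l)) ∨ RT G A m x κ (Rp l)) ∧
    (∀ k, RT G A m x κ (Ap k) → ∃ j l : Fin 3,
      RT G A m x κ (if j = k then Qp else Ap (third k j)) ∧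
      RT G A m x κ (if l = k then Bp k else Rp (third k l)) ∧
      RT G A m x κ (if j = k then Ap l else
        if l = third k j then Bp l else Rp (third (third k j) l))) ∧
    (∀ k, RT G A m x κ (Rp k) → RT G A m x κ Qp ∨
      ∃ l, RT G A m x κ (Ap l) ∨ RT G A m x κ (Bp l))

/-- D: lifting again the flow of an 8-colour cover, with two pairs of legs glued or joined -/
def SFrule : Prop :=
  ∀ (V E : Type) [Fintype V] [DecidableEq V] [Fintype E] [DecidableEq E] (G : MGraph V E)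
    (F : Finset E) (x : Fin 4 → V), Function.Injective x → (∀ v, dg G F v ≤ 3) →
    (∀ i, dg G F (x i) = 1) →
    (∀ k, RT G F (fun _ => 2) x T3 (Bp k) →
      RT G F (fun _ => 2) x T3 (Ap k) ∨ RT G F (fun _ => 2) x T3 (Rp k)) ∧
    (∀ k l, l ≠ k → RT G F (fun _ => 2) x T3 (Bp k) →
      RT G F (fun _ => 2) x T3 Qp ∨ RT G F (fun _ => 2) x T3 (Bp l)) ∧
    (∀ k, RT G F (fun _ => 2) x T3 (Rp k) → ∃ l, l ≠ k ∧ RT G F (fun _ => 2) x T3 (Rp l))

/-- D1: the general lift. `y i` is the sum of the two colours at leg `i`. -/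
def SLift : Prop :=
  ∀ (V E : Type) [Fintype V] [DecidableEq V] [Fintype E] [DecidableEq E] (G : MGraph V E)
    (F : Finset E) (x : Fin 4 → V), Function.Injective x → (∀ v, dg G F v ≤ 3) →
    (∀ i, dg G F (x i) = 1) →
    ∀ X : T3 → Finset E, PC G F (fun _ => 2) x X →
    ∀ y : Fin 4 → T3,
    (∀ i, ∃ a, pat G x X i = {a, Pool.Agent.H126R2.CDC.T3.add a (y i)}) →
    ∀ k l l' : Fin 4, k ≠ 0 → l ≠ 0 → l' ≠ 0 → k ≠ l → k ≠ l' → l ≠ l' →
    (y 0 = y k → ∃ X' : T3 → Finset E, PC G F (fun _ => 2) x X' ∧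
      (∀ i, ∃ a, pat G x X' i = {a, Pool.Agent.H126R2.CDC.T3.add a (y i)}) ∧
      pat G x X' 0 = pat G x X' k ∧ pat G x X' l = pat G x X' l') ∧
    (y 0 ≠ y k → ∃ X' : T3 → Finset E, PC G F (fun _ => 2) x X' ∧
      (∀ i, ∃ a, pat G x X' i = {a, Pool.Agent.H126R2.CDC.T3.add a (y i)}) ∧
      (pat G x X' 0 ∩ pat G x X' k).card = 1)

/-- E: eight-colour covers of a bridgeless piece -/
def SCov : Prop :=
  ∀ (V E : Type) [Fintype V] [DecidableEq V] [Fintype E] [DecidableEq E] (G : MGraph V E)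
    (F : Finset E) (d : ℕ) (x : Fin d → V), (∀ v, dg G F v ≤ 3) →
    (∀ e ∈ F, ∃ Z, Z ⊆ F ∧ e ∈ Z ∧ ∀ v, (∀ i, v ≠ x i) → Even (dg G Z v)) →
    ∃ X : T3 → Finset E, PC G F (fun _ => 2) x X

/-- F: gluing a cover of `A` and an 8-colour cover of `F` with the same pattern -/
def SGlue : Prop :=
  ∀ (V E : Type) [Fintype V] [DecidableEq V] [Fintype E] [DecidableEq E] (G : MGraph V E)
    (A F S : Finset E), Disjoint A F → S ⊆ A → ∀ (d : ℕ) (x : Fin d → V),
    ∀ (κ : Type) [Fintype κ] [DecidableEq κ] (X : κ → Finset E), PC G A (mS S) x X →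
    ∀ (Y : T3 → Finset E), PC G F (fun _ => 2) x Y →
    ∀ (ξ : Type) [Fintype ξ] [DecidableEq ξ] (ι : ξ ↪ κ) (ι' : ξ ↪ T3) (P : Fin d → Finset ξ),
    (∀ i, pat G x X i = (P i).map ι) → (∀ i, pat G x Y i = (P i).map ι') → Good G (A ∪ F) S

/-- G: the case in which every bridge has a nowhere-zero 4-flow -/
def SBase : Prop :=
  ∀ (V E : Type) [Fintype V] [DecidableEq V] [Fintype E] [DecidableEq E] (G : MGraph V E)
    (A S : Finset E), S ⊆ A → (∀ v, dg G A v ≤ 3) → (∀ v, dg G S v = 0 ∨ dg G S v = 2) →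
    (∀ v, Loc G A S v) → Good G A S

/-- H: from even classes to circuits -/
def SCdc : Prop :=
  ∀ (V E : Type) [Fintype V] [DecidableEq V] [Fintype E] [DecidableEq E] (G : MGraph V E)
    (H S : Finset E), S ⊆ H → (∀ v, dg G H v ≤ 3) → (∀ v, dg G S v = 0 ∨ dg G S v = 2) →
    Good G H S →
    ∃ F : Multiset (Finset E), (∀ X ∈ F, IsCircuit G X) ∧
      (∀ e, F.countP (e ∈ ·) = if e ∈ H then 2 else 0) ∧
      ∀ C, IsCircuit G C → C ⊆ S → C ∈ F

/-- I1 -/
def SPar : Prop :=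
  ∀ (V E : Type) [Fintype V] [DecidableEq V] [Fintype E] [DecidableEq E] (G : MGraph V E)
    (A S : Finset E), S ⊆ A → ∀ (x : Fin 4 → V), Function.Injective x →
    ∀ (k l l' : Fin 4), k ≠ 0 → l ≠ 0 → l' ≠ 0 → k ≠ l → k ≠ l' → l ≠ l' →
    ∀ hg, Good (ext G (gPar x k l l') hg) (inG A) (inE S) →
    ∃ (n : ℕ) (X : Fin n → Finset E), PC G A (mS S) x X ∧ (∀ i, (pat G x X i).card = 2) ∧
      pat G x X 0 = pat G x X k

/-- I2 -/
def STree : Prop :=
  ∀ (V E : Type) [Fintype V] [DecidableEq V] [Fintype E] [DecidableEq E] (G : MGraph V E)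
    (A S : Finset E), S ⊆ A → ∀ (x : Fin 4 → V), Function.Injective x →
    ∀ (k l l' : Fin 4), k ≠ 0 → l ≠ 0 → l' ≠ 0 → k ≠ l → k ≠ l' → l ≠ l' →
    ∀ hg, Good (ext G (gTree x k l l') hg) (inG A) (inE S) →
    ∃ (n : ℕ) (X : Fin n → Finset E), PC G A (mS S) x X ∧ (∀ i, (pat G x X i).card = 2) ∧
      (pat G x X 0 ∩ pat G x X k).card = 1

/-- I3 -/
def SClaw : Prop :=
  ∀ (V E : Type) [Fintype V] [DecidableEq V] [Fintype E] [DecidableEq E] (G : MGraph V E)
    (A S : Finset E), S ⊆ A → ∀ (x : Fin 3 → V), Function.Injective x →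
    ∀ hg, Good (ext G (gClaw x) hg) (inG A) (inE S) →
    ∃ (n : ℕ) (X : Fin n → Finset E), PC G A (mS S) x X ∧ (∀ i, (pat G x X i).card = 2)

/-- I4 -/
def SEdge : Prop :=
  ∀ (V E : Type) [Fintype V] [DecidableEq V] [Fintype E] [DecidableEq E] (G : MGraph V E)
    (A S : Finset E), S ⊆ A → ∀ (x : Fin 2 → V), Function.Injective x →
    ∀ hg, Good (ext G (gEdge x) hg) (inG A) (inE S) →
    ∃ (n : ℕ) (X : Fin n → Finset E), PC G A (mS S) x X ∧ (∀ i, (pat G x X i).card = 2)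

/-- J0: circuits stay circuits -/
def SCirc : Prop :=
  ∀ (V E : Type) [Fintype V] [DecidableEq V] [Fintype E] [DecidableEq E] (G : MGraph V E)
    (a b : ℕ) (g : Fin b → Sym2 (V ⊕ Fin a)) (hg : ∀ j, ¬ (g j).IsDiag) (D : Finset E),
    IsCircuit G D → IsCircuit (ext G g hg) (inE D)

/-- J0: components of old vertices which do not touch the gadget -/
def SOldLoc : Prop :=
  ∀ (V E : Type) [Fintype V] [DecidableEq V] [Fintype E] [DecidableEq E] (G : MGraph V E)
    (A S : Finset E), S ⊆ A → ∀ (d a b : ℕ) (x : Fin d → V), (∀ i, dg G (A \ S) (x i) = 0) →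
    ∀ (g : Fin b → Sym2 (V ⊕ Fin a)) (hg : ∀ j, ¬ (g j).IsDiag),
    (∀ j u, (Sum.inl u : V ⊕ Fin a) ∈ g j → ∃ i, u = x i) →
    ∀ u, (∀ i, u ≠ x i) → Loc G A S u → Loc (ext G g hg) (inG A) (inE S) (Sum.inl u)

/-- J0: a set of gadget edges which is even at the new vertices is completed by edges of `D` -/
def SNewEven : Prop :=
  ∀ (V E : Type) [Fintype V] [DecidableEq V] [Fintype E] [DecidableEq E] (G : MGraph V E)
    (D : Finset E), IsCircuit G D → ∀ (a b : ℕ) (g : Fin b → Sym2 (V ⊕ Fin a))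
    (hg : ∀ j, ¬ (g j).IsDiag), (∀ j u, (Sum.inl u : V ⊕ Fin a) ∈ g j → dg G D u = 2) →
    ∀ M : Finset (Fin b), (∀ w, Even (M.filter fun j => (Sum.inr w : V ⊕ Fin a) ∈ g j).card) →
    ∃ P : Finset (E ⊕ Fin b), Ev (ext G g hg) P ∧ (∀ e, Sum.inl e ∈ P → e ∈ D) ∧
      ∀ j, Sum.inr j ∈ P ↔ j ∈ M

/-- hypotheses for the insertion of a gadget at the vertices `x i` of a circuit of `S` -/
def Att {V E : Type} [Fintype V] [DecidableEq V] [Fintype E] [DecidableEq E] (G : MGraph V E)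
    (A S : Finset E) {d : ℕ} (x : Fin d → V) : Prop :=
  Function.Injective x ∧ (∀ i, dg G (A \ S) (x i) = 0) ∧
    ∃ D, IsCircuit G D ∧ D ⊆ S ∧ ∀ i, dg G D (x i) = 2

/-- J1 -/
def SLocPar : Prop :=
  ∀ (V E : Type) [Fintype V] [DecidableEq V] [Fintype E] [DecidableEq E] (G : MGraph V E)
    (A S : Finset E), S ⊆ A → (∀ v, Loc G A S v) → ∀ (x : Fin 4 → V), Att G A S x →
    ∀ (k l l' : Fin 4), k ≠ 0 → l ≠ 0 → l' ≠ 0 → k ≠ l → k ≠ l' → l ≠ l' →
    ∀ hg, ∀ v, Loc (ext G (gPar x k l l') hg) (inG A) (inE S) v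

/-- J2 -/
def SLocTree : Prop :=
  ∀ (V E : Type) [Fintype V] [DecidableEq V] [Fintype E] [DecidableEq E] (G : MGraph V E)
    (A S : Finset E), S ⊆ A → (∀ v, Loc G A S v) → ∀ (x : Fin 4 → V), Att G A S x →
    ∀ (k l l' : Fin 4), k ≠ 0 → l ≠ 0 → l' ≠ 0 → k ≠ l → k ≠ l' → l ≠ l' →
    ∀ hg, ∀ v, Loc (ext G (gTree x k l l') hg) (inG A) (inE S) v

/-- J3 -/
def SLocClaw : Prop :=
  ∀ (V E : Type) [Fintype V] [DecidableEq V] [Fintype E] [DecidableEq E] (G : MGraph V E)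
    (A S : Finset E), S ⊆ A → (∀ v, Loc G A S v) → ∀ (x : Fin 3 → V), Att G A S x →
    ∀ hg, ∀ v, Loc (ext G (gClaw x) hg) (inG A) (inE S) v

/-- J4 -/
def SLocEdge : Prop :=
  ∀ (V E : Type) [Fintype V] [DecidableEq V] [Fintype E] [DecidableEq E] (G : MGraph V E)
    (A S : Finset E), S ⊆ A → (∀ v, Loc G A S v) → ∀ (x : Fin 2 → V), Att G A S x →
    ∀ hg, ∀ v, Loc (ext G (gEdge x) hg) (inG A) (inE S) v

/-- L4: the core theorem for a piece `F` with four legs -/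
def SCore4 : Prop :=
  ∀ (V E : Type) [Fintype V] [DecidableEq V] [Fintype E] [DecidableEq E] (G : MGraph V E)
    (A F S : Finset E), Disjoint A F → S ⊆ A → (∀ v, dg G F v ≤ 3) → ∀ (x : Fin 4 → V),
    Function.Injective x → (∀ i, dg G F (x i) = 1) →
    (∃ X : T3 → Finset E, PC G F (fun _ => 2) x X) →
    (∀ k : Fin 4, k ≠ 0 → ∃ (n : ℕ) (X : Fin n → Finset E), PC G A (mS S) x X ∧
      (∀ i, (pat G x X i).card = 2) ∧ pat G x X 0 = pat G x X k) →
    (∀ k : Fin 4, k ≠ 0 → ∃ (n : ℕ) (X : Fin n → Finset E), PC G A (mS S) x X ∧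
      (∀ i, (pat G x X i).card = 2) ∧ (pat G x X 0 ∩ pat G x X k).card = 1) →
    Good G (A ∪ F) S

/-- L3 -/
def SCore3 : Prop :=
  ∀ (V E : Type) [Fintype V] [DecidableEq V] [Fintype E] [DecidableEq E] (G : MGraph V E)
    (A F S : Finset E), Disjoint A F → S ⊆ A → ∀ (x : Fin 3 → V),
    Function.Injective x → (∀ i, dg G F (x i) = 1) →
    (∃ X : T3 → Finset E, PC G F (fun _ => 2) x X) →
    (∃ (n : ℕ) (X : Fin n → Finset E), PC G A (mS S) x X ∧ (∀ i, (pat G x X i).card = 2)) →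
    Good G (A ∪ F) S

/-- L2 -/
def SCore2 : Prop :=
  ∀ (V E : Type) [Fintype V] [DecidableEq V] [Fintype E] [DecidableEq E] (G : MGraph V E)
    (A F S : Finset E), Disjoint A F → S ⊆ A → ∀ (x : Fin 2 → V),
    Function.Injective x → (∀ i, dg G F (x i) = 1) →
    (∃ X : T3 → Finset E, PC G F (fun _ => 2) x X) →
    (∃ (n : ℕ) (X : Fin n → Finset E), PC G A (mS S) x X ∧ (∀ i, (pat G x X i).card = 2)) →
    Good G (A ∪ F) S

/-- a piece attached to a circuit of `S` at `d` vertices -/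
structure Pole (V E : Type) where
  F : Finset E
  d : ℕ
  x : Fin d → V

/-- the piece is attached to a circuit of `S` at at most four vertices -/
structure Pole.Ok {V E : Type} [Fintype V] [DecidableEq V] [Fintype E] [DecidableEq E]
    (G : MGraph V E) (A S : Finset E) (p : Pole V E) : Prop where
  le : p.d ≤ 4
  deg : ∀ v, dg G p.F v ≤ 3
  one : ∀ i, dg G p.F (p.x i) = 1
  att : Att G A S p.x
  disj : Disjoint A p.F
  cov : ∃ X : T3 → Finset E, PC G p.F (fun _ => 2) p.x X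

/-- M: all pieces together -/
def SPoles : Prop :=
  ∀ (n : ℕ) (V E : Type) [Fintype V] [DecidableEq V] [Fintype E] [DecidableEq E]
    (G : MGraph V E) (A S : Finset E) (L : List (Pole V E)), L.length = n → S ⊆ A →
    (∀ v, dg G A v ≤ 3) → (∀ v, dg G S v = 0 ∨ dg G S v = 2) → (∀ v, Loc G A S v) →
    (∀ p ∈ L, p.Ok G A S) →
    L.Pairwise (fun p q => Disjoint p.F q.F ∧ ∀ i j, p.x i ≠ q.x j) →
    Good G (L.foldr (fun p B => p.F ∪ B) A) S

/-- the edges of the component of `v` in `A \ S` -/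
noncomputable def comp {V E : Type} [Fintype V] [DecidableEq V] [Fintype E] [DecidableEq E]
    (G : MGraph V E) (A S : Finset E) (v : V) : Finset E := by
  classical
  exact (A \ S).filter fun e => ∀ u ∈ G.ends e, Rch G (A \ S) v u

/-- the component of `v` is bridgeless and attached to one circuit of `S` at at most 4 vertices -/
def Exc {V E : Type} [Fintype V] [DecidableEq V] [Fintype E] [DecidableEq E]
    (G : MGraph V E) (A S : Finset E) (v : V) : Prop :=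
  (∀ e ∈ comp G A S v, ∃ Z, Z ⊆ comp G A S v ∧ e ∈ Z ∧
    ∀ u, dg G S u = 0 → Even (dg G Z u)) ∧
  (univ.filter fun u => dg G S u = 2 ∧ dg G (comp G A S v) u ≠ 0).card ≤ 4 ∧
  ∃ D, IsCircuit G D ∧ D ⊆ S ∧ ∀ u, dg G S u = 2 → dg G (comp G A S v) u ≠ 0 → dg G D u = 2

/-- N: extraction of the pieces -/
def SMain : Prop :=
  ∀ (V E : Type) [Fintype V] [DecidableEq V] [Fintype E] [DecidableEq E] (G : MGraph V E)
    (H S : Finset E), S ⊆ H → (∀ v, dg G H v ≤ 3) → (∀ v, dg G S v = 0 ∨ dg G S v = 2) →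
    (∀ v, Loc G H S v ∨ Exc G H S v) → Good G H S

end Pool.Agent.H444.FA
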