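import Pool.Agent.H444.FA.Stm

set_option autoImplicit false
set_option linter.unusedSectionVars false

open Finset

namespace Pool.Agent.H444.FA

open Pool.Agent.Helper347.Sab
open Pool.Agent.Helper998.Near (Rch)

/-- v is an attachment of the bridge of `S` containing the edge `e` -/
def IsAtt {V E : Type} [Fintype V] [DecidableEq V] [Fintype E] [DecidableEq E]
    (G : MGraph V E) (S : Finset E) (e : E) (v : V) : Prop :=
  dg G S v = 2 ∧ ∃ f, f ∉ S ∧ v ∈ G.ends f ∧ Pool.Agent.H164R2.SB G S e f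

/-- O: edge version. Every bridge of `S` has its own nowhere-zero 4-flow, or it has at most four
attachments, all on one circuit of `S`, and its edges lie in even sets. -/
def SFinalH : Prop :=
  ∀ (V E : Type) [Fintype V] [DecidableEq V] [Fintype E] [DecidableEq E] (G : MGraph V E)
    (H S : Finset E), S ⊆ H → (∀ v, dg G H v ≤ 3) → (∀ v, dg G S v = 0 ∨ dg G S v = 2) →
    (∀ f, f ∉ H → ∀ v ∈ G.ends f, dg G S v ≠ 0) →
    (∀ e ∈ H, e ∉ S →
      (∃ P Q : Finset E, Ev G P ∧ Ev G Q ∧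
        (∀ f ∈ P, f ∈ S ∨ Pool.Agent.H164R2.SB G S e f) ∧
        (∀ f ∈ Q, f ∈ S ∨ Pool.Agent.H164R2.SB G S e f) ∧
        ∀ f, f ∉ S → Pool.Agent.H164R2.SB G S e f → f ∈ P ∨ f ∈ Q) ∨
      ((∀ f, f ∉ S → Pool.Agent.H164R2.SB G S e f → ∃ Z, f ∈ Z ∧ Ev G Z) ∧
        ∃ (W : Finset V) (D : Finset E), IsCircuit G D ∧ D ⊆ S ∧ W.card ≤ 4 ∧
          ∀ v, IsAtt G S e v → v ∈ W ∧ dg G D v = 2)) →
    Good G H S

end Pool.Agent.H444.FA
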